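import Mathlib

set_option autoImplicit false

open MeasureTheory Complex Set Filter Topology
open scoped ENNReal NNReal ContDiff Convolution

namespace Pool.Agent.T9h61.DB

/-- the derivative with respect to the conjugate variable -/
noncomputable def dbar (f : ℂ → ℂ) (z : ℂ) : ℂ := (fderiv ℝ f z 1 + I * fderiv ℝ f z I) / 2

/-- the norm of the space Lip alpha, with differences of order `k` -/
noncomputable def lipNorm (α : ℝ) (k : ℕ) (f : ℂ → ℂ) : ℝ≥0∞ :=
  (⨆ z : ℂ, ‖f z‖ₑ) +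
    ⨆ (h : ℂ) (_ : h ≠ 0) (z : ℂ), ‖(fwdDiff h)^[k] f z‖ₑ / ENNReal.ofReal (‖h‖ ^ α)

def Admissible (α : ℝ) (k : ℕ) (Ω : Set ℂ) : Prop :=
  ∃ C : ℝ≥0, ∀ f : ℂ → ℂ, ContDiff ℝ ∞ f → HasCompactSupport f →
    ‖-∫ z in Ω, dbar f z‖ₑ ≤ C * lipNorm α k f

/-! ### iterated differences -/

section diff

variable {E : Type} [NormedAddCommGroup E] [NormedSpace ℝ E]

omit [NormedSpace ℝ E] in
lemma iter_succ (v : ℂ) (k : ℕ) (F : ℂ → E) (x : ℂ) :
    (fwdDiff v)^[k + 1] F x = (fwdDiff v)^[k] F (x + v) - (fwdDiff v)^[k] F x := by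
  rw [Function.iterate_succ_apply']
  rfl

lemma hasFDerivAt_iter {F : ℂ → E} (hF : Differentiable ℝ F) (v : ℂ) (k : ℕ) :
    ∀ x, HasFDerivAt ((fwdDiff v)^[k] F) ((fwdDiff v)^[k] (fderiv ℝ F) x) x := by
  induction k with
  | zero => intro x; exact (hF x).hasFDerivAt
  | succ k ih =>
    intro x
    rw [iter_succ]
    have h1 : HasFDerivAt (fun y => (fwdDiff v)^[k] F (y + v))
        ((fwdDiff v)^[k] (fderiv ℝ F) (x + v)) x := by
      have := (ih (x + v)).comp x ((hasFDerivAt_id x).add_const v)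
      rw [ContinuousLinearMap.comp_id] at this
      exact this
    have h2 := h1.sub (ih x)
    refine h2.congr_of_eventuallyEq ?_
    exact Filter.Eventually.of_forall fun y => iter_succ v k F y

lemma iter_bound (k : ℕ) : ∀ (E : Type) [NormedAddCommGroup E] [NormedSpace ℝ E] (F : ℂ → E),
    ContDiff ℝ ∞ F → HasCompactSupport F →
    ∃ B : ℝ, 0 ≤ B ∧ ∀ v x : ℂ, ‖(fwdDiff v)^[k] F x‖ ≤ B * ‖v‖ ^ k := by
  induction k with
  | zero =>
    intro E _ _ F hF hc
    obtain ⟨C, hC⟩ := hc.exists_bound_of_continuous hF.continuous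
    refine ⟨max C 0, le_max_right _ _, fun v x => ?_⟩
    simp only [Function.iterate_zero, id_eq, pow_zero, mul_one]
    exact (hC x).trans (le_max_left _ _)
  | succ k ih =>
    intro E _ _ F hF hc
    obtain ⟨B, hB0, hB⟩ := ih (ℂ →L[ℝ] E) (fderiv ℝ F)
      (hF.fderiv_right (m := ∞) (by simp)) (hc.fderiv ℝ)
    refine ⟨B, hB0, fun v x => ?_⟩
    rw [iter_succ]
    have hd : Differentiable ℝ F := hF.differentiable (by simp)
    have h1 := Convex.norm_image_sub_le_of_norm_hasFDerivWithin_le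
      (f := (fwdDiff v)^[k] F) (f' := (fwdDiff v)^[k] (fderiv ℝ F)) (s := Set.univ)
      (C := B * ‖v‖ ^ k) (x := x) (y := x + v)
      (fun y _ => (hasFDerivAt_iter hd v k y).hasFDerivWithinAt) (fun y _ => hB v y)
      convex_univ (Set.mem_univ _) (Set.mem_univ _)
    rw [add_sub_cancel_left] at h1
    rw [pow_succ, ← mul_assoc]
    exact h1

lemma iter_sum (F : ℂ → ℂ) (v : ℂ) (k : ℕ) (x : ℂ) :
    (fwdDiff v)^[k] F x = ∑ j ∈ Finset.range (k + 1),
      ((-1 : ℝ) ^ (k - j) * (k.choose j : ℝ)) • F (x + (j : ℝ) • v) := by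
  rw [fwdDiff_iter_eq_sum_shift]
  refine Finset.sum_congr rfl fun j _ => ?_
  rw [← Int.cast_smul_eq_zsmul ℝ]
  push_cast
  congr 2
  rw [← Nat.cast_smul_eq_nsmul ℝ]

end diff

end Pool.Agent.T9h61.DB
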