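import Pool.Agent.T9h61.DB.Kern

set_option autoImplicit false

open MeasureTheory Complex Set Filter Topology
open scoped ENNReal NNReal ContDiff Convolution

namespace Pool.Agent.T9h61.DB

/-- convolution -/
noncomputable def cv (a ψ : ℂ → ℂ) (z : ℂ) : ℂ := ∫ w, a w * ψ (z - w)

lemma cv_eq (a ψ : ℂ → ℂ) : cv a ψ = a ⋆[ContinuousLinearMap.mul ℝ ℂ, volume] ψ := rfl

lemma cv_contDiff {a ψ : ℂ → ℂ} (ha : LocallyIntegrable a) (hψ : ContDiff ℝ ∞ ψ)
    (hc : HasCompactSupport ψ) : ContDiff ℝ ∞ (cv a ψ) := by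
  rw [cv_eq]
  exact hc.contDiff_convolution_right _ ha hψ

lemma cv_compact {a ψ : ℂ → ℂ} (ha : HasCompactSupport a) (hc : HasCompactSupport ψ) :
    HasCompactSupport (cv a ψ) := by
  rw [cv_eq]
  exact ha.convolution _ hc

lemma cv_fderiv {a ψ : ℂ → ℂ} (ha : LocallyIntegrable a) (hψ : ContDiff ℝ ∞ ψ)
    (hc : HasCompactSupport ψ) (z v : ℂ) :
    fderiv ℝ (cv a ψ) z v = cv a (fun y => fderiv ℝ ψ y v) z := by
  have h1 := hc.hasFDerivAt_convolution_right (ContinuousLinearMap.mul ℝ ℂ) (μ := volume) ha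
    (hψ.of_le (by simp)) z
  rw [cv_eq, h1.fderiv, convolution_precompR_apply _ ha (hc.fderiv ℝ)
    (hψ.continuous_fderiv (by simp))]
  rfl

lemma intg {a ψ : ℂ → ℂ} (ha : LocallyIntegrable a) (hψ : Continuous ψ)
    (hc : HasCompactSupport ψ) (z : ℂ) : Integrable (fun w => a w * ψ (z - w)) := by
  have h : ConvolutionExistsAt a ψ z (ContinuousLinearMap.mul ℝ ℂ) volume :=
    hc.convolutionExists_right (ContinuousLinearMap.mul ℝ ℂ) ha hψ z
  exact h

lemma fd_continuous {ψ : ℂ → ℂ} (hψ : ContDiff ℝ ∞ ψ) (v : ℂ) :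
    Continuous (fun y => fderiv ℝ ψ y v) :=
  (hψ.continuous_fderiv (by simp)).clm_apply continuous_const

lemma fd_contDiff {ψ : ℂ → ℂ} (hψ : ContDiff ℝ ∞ ψ) (v : ℂ) :
    ContDiff ℝ ∞ (fun y => fderiv ℝ ψ y v) :=
  (hψ.fderiv_right (m := ∞) (by simp)).clm_apply contDiff_const

lemma fd_compact {ψ : ℂ → ℂ} (hc : HasCompactSupport ψ) (v : ℂ) :
    HasCompactSupport (fun y => fderiv ℝ ψ y v) :=
  (hc.fderiv ℝ).comp_left (g := fun L : ℂ →L[ℝ] ℂ => L v) (by simp)

lemma dbar_contDiff {ψ : ℂ → ℂ} (hψ : ContDiff ℝ ∞ ψ) : ContDiff ℝ ∞ (dbar ψ) := by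
  unfold dbar
  have h1 := fd_contDiff hψ 1
  have h2 := fd_contDiff hψ I
  exact (h1.add (contDiff_const.mul h2)).div_const 2

lemma dbar_compact {ψ : ℂ → ℂ} (hc : HasCompactSupport ψ) : HasCompactSupport (dbar ψ) := by
  have h : dbar ψ = (fun L : ℂ →L[ℝ] ℂ => (L 1 + I * L I) / 2) ∘ fderiv ℝ ψ := rfl
  rw [h]
  exact (hc.fderiv ℝ).comp_left (by simp)

lemma cv_dbar {a ψ : ℂ → ℂ} (ha : LocallyIntegrable a) (hψ : ContDiff ℝ ∞ ψ)
    (hc : HasCompactSupport ψ) (z : ℂ) :
    dbar (cv a ψ) z = cv a (dbar ψ) z := by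
  unfold dbar
  rw [cv_fderiv ha hψ hc, cv_fderiv ha hψ hc]
  unfold cv
  rw [← integral_const_mul, ← integral_add (intg ha (fd_continuous hψ 1) (fd_compact hc 1) z)
    ((intg ha (fd_continuous hψ I) (fd_compact hc I) z).const_mul I), ← integral_div]
  congr 1
  ext w
  ring

/-- the indicator function -/
noncomputable def ch (Ω : Set ℂ) : ℂ → ℂ := Ω.indicator (fun _ => 1)

lemma ch_loc {Ω : Set ℂ} (hΩ : MeasurableSet Ω) : LocallyIntegrable (ch Ω) :=
  (locallyIntegrable_const (1 : ℂ)).indicator hΩ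

lemma cv_ch {Ω : Set ℂ} (hΩ : MeasurableSet Ω) (ψ : ℂ → ℂ) (z : ℂ) :
    cv (ch Ω) ψ z = ∫ w in Ω, ψ (z - w) := by
  unfold cv ch
  rw [← integral_indicator hΩ]
  congr 1
  ext w
  by_cases hw : w ∈ Ω
  · simp [hw]
  · simp [hw]

/-- integration by parts -/
lemma parts {f u : ℂ → ℂ} (hf : ContDiff ℝ ∞ f) (hc : HasCompactSupport f)
    (hu : ContDiff ℝ ∞ u) :
    ∫ w, dbar f w * u w = -∫ w, f w * dbar u w := by
  have h1 : ∀ v : ℂ, Integrable (fun w => fderiv ℝ f w v * u w) := fun v =>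
    ((fd_continuous hf v).mul hu.continuous).integrable_of_hasCompactSupport
      ((fd_compact hc v).mul_right)
  have h2 : ∀ v : ℂ, Integrable (fun w => f w * fderiv ℝ u w v) := fun v =>
    (hf.continuous.mul (fd_continuous hu v)).integrable_of_hasCompactSupport
      (hc.mul_right)
  have h3 : Integrable (fun w => f w * u w) :=
    (hf.continuous.mul hu.continuous).integrable_of_hasCompactSupport hc.mul_right
  have key : ∀ v : ℂ, ∫ w, fderiv ℝ f w v * u w = -∫ w, f w * fderiv ℝ u w v := by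
    intro v
    rw [integral_mul_fderiv_eq_neg_fderiv_mul_of_integrable (h1 v) (h2 v) h3
      (fun x _ => (hf.differentiable (by simp)) x) (fun x _ => (hu.differentiable (by simp)) x),
      neg_neg]
  have e1 : ∫ w, dbar f w * u w =
      ((∫ w, fderiv ℝ f w 1 * u w) + I * ∫ w, fderiv ℝ f w I * u w) / 2 := by
    rw [← integral_const_mul, ← integral_add (h1 1) ((h1 I).const_mul I), ← integral_div]
    congr 1
    ext w
    unfold dbar
    ring
  have e2 : ∫ w, f w * dbar u w =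
      ((∫ w, f w * fderiv ℝ u w 1) + I * ∫ w, f w * fderiv ℝ u w I) / 2 := by
    rw [← integral_const_mul, ← integral_add (h2 1) ((h2 I).const_mul I), ← integral_div]
    congr 1
    ext w
    unfold dbar
    ring
  rw [e1, e2, key, key]
  ring

/-- the pairing with a convolution -/
lemma swap {Ω : Set ℂ} {F ψ : ℂ → ℂ} (hΩ : MeasurableSet Ω) (hF : Continuous F)
    (hFc : HasCompactSupport F)
    (hψ : Continuous ψ) (hc : HasCompactSupport ψ) :
    ∫ z in Ω, ∫ w, ψ (w - z) * F w = ∫ w, F w * cv (ch Ω) ψ w := by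
  have hcont : Continuous (Function.uncurry fun (z w : ℂ) => ψ (w - z) * F w) := by
    unfold Function.uncurry
    fun_prop
  have hcomp : HasCompactSupport (Function.uncurry fun (z w : ℂ) => ψ (w - z) * F w) := by
    have hK : IsCompact (((fun p : ℂ × ℂ => p.2 - p.1) '' ((tsupport ψ) ×ˢ (tsupport F))) ×ˢ
        (tsupport F)) :=
      ((hc.isCompact.prod hFc.isCompact).image (by fun_prop)).prod hFc.isCompact
    refine HasCompactSupport.intro hK ?_
    rintro ⟨z, w⟩ hzw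
    simp only [Function.uncurry]
    by_contra hne
    have h1 : ψ (w - z) ≠ 0 := fun h => hne (by rw [h, zero_mul])
    have h2 : F w ≠ 0 := fun h => hne (by rw [h, mul_zero])
    apply hzw
    refine ⟨⟨(w - z, w), ⟨subset_tsupport _ h1, subset_tsupport _ h2⟩, ?_⟩,
      subset_tsupport _ h2⟩
    simp
  rw [integral_integral_swap_of_hasCompactSupport hcont hcomp]
  congr 1
  ext w
  rw [cv_ch hΩ, ← integral_const_mul]
  congr 1
  ext z
  ring

end Pool.Agent.T9h61.DB
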