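import Mathlib

set_option autoImplicit false

open Set Filter Topology
open scoped ENNReal NNReal

namespace Pool.Agent.T9h61.DB

lemma geo0 {α : ℝ} (hα : 0 < α) {k : ℕ} (hk : α < k) :
    ∃ C : ℝ, 0 ≤ C ∧ ∀ (M : ℕ) (x : ℝ), 0 < x →
      ∑ m ∈ Finset.range M, ((2 : ℝ) ^ m) ^ (-α) * min 1 (((2 : ℝ) ^ m * x) ^ k) ≤ C * x ^ α := by
  set β : ℝ := k - α with hβ
  have hβ0 : 0 < β := by rw [hβ]; linarith
  set r : ℝ := (2 : ℝ) ^ β with hr
  have hr1 : 1 < r := Real.one_lt_rpow (by norm_num) hβ0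
  set q : ℝ := (2 : ℝ) ^ (-α) with hq
  have hq0 : 0 < q := Real.rpow_pos_of_pos (by norm_num) _
  have hq1 : q < 1 := Real.rpow_lt_one_of_one_lt_of_neg (by norm_num) (by linarith)
  have hqm : ∀ m : ℕ, ((2 : ℝ) ^ m) ^ (-α) = q ^ m := by
    intro m
    rw [hq, ← Real.rpow_natCast, ← Real.rpow_mul (by norm_num), ← Real.rpow_natCast,
      ← Real.rpow_mul (by norm_num), mul_comm]
  have hrm : ∀ m : ℕ, ((2 : ℝ) ^ m) ^ β = r ^ m := by
    intro m
    rw [hr, ← Real.rpow_natCast, ← Real.rpow_mul (by norm_num), ← Real.rpow_natCast,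
      ← Real.rpow_mul (by norm_num), mul_comm]
  refine ⟨r / (r - 1) + 1 / (1 - q), by
    have : 0 < r - 1 := by linarith
    have : 0 < 1 - q := by linarith
    positivity, fun M x hx => ?_⟩
  have hx0 : 0 ≤ x ^ α := Real.rpow_nonneg hx.le _
  have hex : ∃ p : ℕ, 1 < (2 : ℝ) ^ p * x := by
    obtain ⟨p, hp⟩ := pow_unbounded_of_one_lt (1 / x) (by norm_num : (1 : ℝ) < 2)
    exact ⟨p, by rwa [div_lt_iff₀ hx] at hp⟩
  classical
  set p := Nat.find hex with hp
  have hp1 : 1 < (2 : ℝ) ^ p * x := Nat.find_spec hex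
  have hp2 : ∀ m < p, (2 : ℝ) ^ m * x ≤ 1 := fun m hm => not_lt.1 (Nat.find_min hex hm)
  -- the term bound
  have hterm : ∀ m, ((2 : ℝ) ^ m) ^ (-α) * min 1 (((2 : ℝ) ^ m * x) ^ k) ≤
      (if m < p then x ^ k * r ^ m else 0) + (if p ≤ m then q ^ m else 0) := by
    intro m
    by_cases hm : m < p
    · rw [if_pos hm, if_neg (by omega), add_zero]
      calc ((2 : ℝ) ^ m) ^ (-α) * min 1 (((2 : ℝ) ^ m * x) ^ k)
          ≤ ((2 : ℝ) ^ m) ^ (-α) * ((2 : ℝ) ^ m * x) ^ k := by
            gcongr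
            exact min_le_right _ _
        _ = x ^ k * (((2 : ℝ) ^ m) ^ (-α) * ((2 : ℝ) ^ m) ^ (k : ℝ)) := by
            rw [mul_pow, Real.rpow_natCast]; ring
        _ = x ^ k * r ^ m := by
            rw [← Real.rpow_add (by positivity), ← hrm]
            congr 2
            rw [hβ]; ring
    · rw [if_neg hm, if_pos (by omega), zero_add, hqm]
      calc q ^ m * min 1 (((2 : ℝ) ^ m * x) ^ k) ≤ q ^ m * 1 := by
            gcongr
            exact min_le_left _ _
        _ = q ^ m := mul_one _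
  have hA : ∑ m ∈ Finset.range M, (if m < p then x ^ k * r ^ m else 0) ≤
      r / (r - 1) * x ^ α := by
    have h1 : ∑ m ∈ Finset.range M, (if m < p then x ^ k * r ^ m else 0) ≤
        ∑ m ∈ Finset.range p, x ^ k * r ^ m := by
      rw [← Finset.sum_filter]
      refine Finset.sum_le_sum_of_subset_of_nonneg ?_ fun i _ _ => by positivity
      intro m hm
      rw [Finset.mem_filter] at hm
      exact Finset.mem_range.2 hm.2
    refine h1.trans ?_
    rcases Nat.eq_zero_or_pos p with h0 | h0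
    · rw [h0]
      simp only [Finset.range_zero, Finset.sum_empty]
      have : 0 < r - 1 := by linarith
      positivity
    · rw [← Finset.mul_sum, geom_sum_eq hr1.ne']
      have h2 := hp2 (p - 1) (by omega)
      have h3 : (2 : ℝ) ^ p ≤ 2 / x := by
        rw [le_div_iff₀ hx]
        have : (2 : ℝ) ^ p = 2 ^ (p - 1) * 2 := by
          rw [← pow_succ]; congr 1; omega
        rw [this]
        nlinarith
      have h4 : r ^ p ≤ (2 / x) ^ β := by
        rw [← hrm]
        exact Real.rpow_le_rpow (by positivity) h3 hβ0.le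
      have h5 : x ^ k * (2 / x) ^ β = r * x ^ α := by
        rw [Real.div_rpow (by norm_num) hx.le, ← hr, ← Real.rpow_natCast x k]
        rw [show (k : ℝ) = α + β by rw [hβ]; ring, Real.rpow_add hx]
        have : x ^ β ≠ 0 := (Real.rpow_pos_of_pos hx _).ne'
        field_simp
      have h6 : 0 < r - 1 := by linarith
      calc x ^ k * ((r ^ p - 1) / (r - 1)) ≤ x ^ k * (r ^ p / (r - 1)) := by
            gcongr
            linarith
        _ ≤ x ^ k * ((2 / x) ^ β / (r - 1)) := by gcongr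
        _ = (x ^ k * (2 / x) ^ β) / (r - 1) := by ring
        _ = r / (r - 1) * x ^ α := by rw [h5]; ring
  have hB : ∑ m ∈ Finset.range M, (if p ≤ m then q ^ m else 0) ≤ 1 / (1 - q) * x ^ α := by
    have h1 : ∑ m ∈ Finset.range M, (if p ≤ m then q ^ m else 0) ≤ q ^ p * (1 / (1 - q)) := by
      have h2 : ∀ m ∈ Finset.range M, (if p ≤ m then q ^ m else 0) ≤
          (if p ≤ m then q ^ p * q ^ (m - p) else 0) := by
        intro m _
        split_ifs with h
        · rw [← pow_add]
          apply le_of_eq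
          congr 1
          omega
        · exact le_rfl
      refine (Finset.sum_le_sum h2).trans ?_
      rw [← Finset.sum_filter]
      rw [← Finset.mul_sum]
      gcongr
      have h3 : ∑ i ∈ Finset.filter (fun m => p ≤ m) (Finset.range M), q ^ (i - p) ≤
          ∑ i ∈ Finset.range M, q ^ i := by
        have h4 : ∑ i ∈ Finset.filter (fun m => p ≤ m) (Finset.range M), q ^ (i - p) =
            ∑ i ∈ (Finset.filter (fun m => p ≤ m) (Finset.range M)).image (fun i => i - p),
              q ^ i := by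
          rw [Finset.sum_image]
          intro a ha b hb hab
          have ha' := (Finset.mem_filter.1 ha).2
          have hb' := (Finset.mem_filter.1 hb).2
          simp only at hab
          omega
        rw [h4]
        refine Finset.sum_le_sum_of_subset_of_nonneg ?_ fun i _ _ => by positivity
        intro i hi
        obtain ⟨a, ha, rfl⟩ := Finset.mem_image.1 hi
        have := Finset.mem_range.1 (Finset.mem_filter.1 ha).1
        exact Finset.mem_range.2 (by omega)
      refine h3.trans ?_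
      have h5 := (summable_geometric_of_lt_one hq0.le hq1).sum_le_tsum (Finset.range M)
        (fun i _ => by positivity)
      rw [tsum_geometric_of_lt_one hq0.le hq1, ← one_div] at h5
      exact h5
    refine h1.trans ?_
    have h6 : q ^ p ≤ x ^ α := by
      rw [← hqm, Real.rpow_neg (by positivity), ← Real.inv_rpow (by positivity)]
      apply Real.rpow_le_rpow (by positivity) _ hα.le
      rw [inv_le_comm₀ (by positivity) hx, ← one_div, div_le_iff₀ hx]
      exact hp1.le
    have h7 : 0 < 1 - q := by linarith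
    rw [mul_comm]
    gcongr
  calc _ ≤ ∑ m ∈ Finset.range M, ((if m < p then x ^ k * r ^ m else 0) +
        (if p ≤ m then q ^ m else 0)) := Finset.sum_le_sum fun m _ => hterm m
    _ ≤ r / (r - 1) * x ^ α + 1 / (1 - q) * x ^ α := by
        rw [Finset.sum_add_distrib]
        exact add_le_add hA hB
    _ = _ := by ring

/-- the same for the scales `t / 2 ^ m` -/
lemma geo {α : ℝ} (hα : 0 < α) {k : ℕ} (hk : α < k) :
    ∃ C : ℝ, 0 ≤ C ∧ ∀ (M : ℕ) (t x : ℝ), 1 / 2 ≤ t → t ≤ 1 → 0 < x →
      ∑ m ∈ Finset.range M, (t / 2 ^ m) ^ α * min 1 (((t / 2 ^ m)⁻¹ * x) ^ k) ≤ C * x ^ α := by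
  obtain ⟨C, hC0, hC⟩ := geo0 hα hk
  refine ⟨C * 2 ^ α, by positivity, fun M t x ht1 ht2 hx => ?_⟩
  have ht0 : 0 < t := by linarith
  have h1 := hC M (x / t) (by positivity)
  calc ∑ m ∈ Finset.range M, (t / 2 ^ m) ^ α * min 1 (((t / 2 ^ m)⁻¹ * x) ^ k)
      ≤ ∑ m ∈ Finset.range M, ((2 : ℝ) ^ m) ^ (-α) * min 1 (((2 : ℝ) ^ m * (x / t)) ^ k) := by
        refine Finset.sum_le_sum fun m _ => ?_
        have e1 : (t / 2 ^ m)⁻¹ * x = (2 : ℝ) ^ m * (x / t) := by
          field_simp
        rw [e1]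
        refine mul_le_mul_of_nonneg_right ?_ (by positivity)
        rw [Real.rpow_neg (by positivity), ← Real.inv_rpow (by positivity)]
        apply Real.rpow_le_rpow (by positivity) _ hα.le
        rw [div_eq_mul_inv]
        calc t * (2 ^ m)⁻¹ ≤ 1 * ((2 : ℝ) ^ m)⁻¹ := by gcongr
          _ = _ := one_mul _
    _ ≤ C * (x / t) ^ α := h1
    _ ≤ C * (2 * x) ^ α := by
        gcongr
        rw [div_le_iff₀ ht0]
        nlinarith
    _ = C * 2 ^ α * x ^ α := by
        rw [Real.mul_rpow (by norm_num) hx.le]; ring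

/-- the sum of the weights is bounded -/
lemma geo_one {α : ℝ} (hα : 0 < α) :
    ∃ C : ℝ, 0 ≤ C ∧ ∀ (M : ℕ) (t : ℝ), 0 ≤ t → t ≤ 1 →
      ∑ m ∈ Finset.range M, (t / 2 ^ m) ^ α ≤ C := by
  set q : ℝ := (2 : ℝ) ^ (-α) with hq
  have hq0 : 0 < q := Real.rpow_pos_of_pos (by norm_num) _
  have hq1 : q < 1 := Real.rpow_lt_one_of_one_lt_of_neg (by norm_num) (by linarith)
  refine ⟨(1 - q)⁻¹, inv_nonneg.2 (by linarith), fun M t ht0 ht1 => ?_⟩
  have h1 : ∀ m ∈ Finset.range M, (t / 2 ^ m) ^ α ≤ q ^ m := by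
    intro m _
    have e : q ^ m = (1 / 2 ^ m : ℝ) ^ α := by
      rw [hq, ← Real.rpow_natCast, ← Real.rpow_mul (by norm_num), one_div,
        Real.inv_rpow (by positivity), ← Real.rpow_neg (by positivity),
        ← Real.rpow_natCast, ← Real.rpow_mul (by norm_num), mul_comm, mul_neg]
    rw [e]
    apply Real.rpow_le_rpow (by positivity) _ hα.le
    gcongr
  refine (Finset.sum_le_sum h1).trans ?_
  have h5 := (summable_geometric_of_lt_one hq0.le hq1).sum_le_tsum (Finset.range M)
    (fun i _ => by positivity)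
  rwa [tsum_geometric_of_lt_one hq0.le hq1] at h5

end Pool.Agent.T9h61.DB
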