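import Pool.Agent.T9h61.DB.Basic

set_option autoImplicit false

open MeasureTheory Complex Set Filter Topology
open scoped ENNReal NNReal ContDiff Convolution

namespace Pool.Agent.T9h61.DB

/-- the scaled kernel -/
noncomputable def sc (ψ : ℂ → ℂ) (s : ℝ) (z : ℂ) : ℂ := (s ^ 2)⁻¹ • ψ (s⁻¹ • z)

lemma sc_contDiff {ψ : ℂ → ℂ} (hψ : ContDiff ℝ ∞ ψ) (s : ℝ) : ContDiff ℝ ∞ (sc ψ s) := by
  unfold sc
  fun_prop

lemma sc_compact {ψ : ℂ → ℂ} (hψ : HasCompactSupport ψ) {s : ℝ} (hs : s ≠ 0) :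
    HasCompactSupport (sc ψ s) := by
  have h := hψ.comp_smul (inv_ne_zero hs)
  exact h.comp_left (g := fun w => (s ^ 2)⁻¹ • w) (by simp)

lemma lint_smul {r : ℝ} (hr : r ≠ 0) (F : ℂ → ℝ≥0∞) :
    ∫⁻ z, F (r • z) = ENNReal.ofReal ((r ^ 2)⁻¹) * ∫⁻ z, F z := by
  have h := Measure.map_addHaar_smul (volume : Measure ℂ) hr
  rw [Complex.finrank_real_complex, abs_of_nonneg (by positivity)] at h
  have h2 := (Homeomorph.smulOfNeZero (α := ℂ) r hr).measurableEmbedding.lintegral_map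
    (μ := volume) F
  have h3 : Measure.map (⇑(Homeomorph.smulOfNeZero (α := ℂ) r hr)) volume =
      ENNReal.ofReal (r ^ 2)⁻¹ • volume := h
  rw [h3, lintegral_smul_measure] at h2
  rw [smul_eq_mul] at h2
  exact h2.symm

lemma lint_smul_real {r : ℝ} (hr : 0 < r) (F : ℝ → ℝ≥0∞) :
    ∫⁻ x, F (r * x) = ENNReal.ofReal (r⁻¹) * ∫⁻ x, F x := by
  have h := Measure.map_addHaar_smul (volume : Measure ℝ) hr.ne'
  rw [Module.finrank_self, pow_one, abs_of_nonneg (by positivity)] at h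
  have h2 := (Homeomorph.smulOfNeZero (α := ℝ) r hr.ne').measurableEmbedding.lintegral_map
    (μ := volume) F
  have h3 : Measure.map (⇑(Homeomorph.smulOfNeZero (α := ℝ) r hr.ne')) volume =
      ENNReal.ofReal r⁻¹ • volume := h
  rw [h3, lintegral_smul_measure] at h2
  rw [smul_eq_mul] at h2
  exact h2.symm

lemma iter_sc (ψ : ℂ → ℂ) (s : ℝ) (k : ℕ) (h z : ℂ) :
    (fwdDiff h)^[k] (sc ψ s) z = (s ^ 2)⁻¹ • (fwdDiff (s⁻¹ • h))^[k] ψ (s⁻¹ • z) := by
  rw [iter_sum, iter_sum, Finset.smul_sum]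
  refine Finset.sum_congr rfl fun j _ => ?_
  unfold sc
  rw [smul_comm, smul_add, smul_comm (s⁻¹) (j : ℝ) h]

lemma lint_iter_sc (ψ : ℂ → ℂ) {s : ℝ} (hs : 0 < s) (k : ℕ) (h : ℂ) :
    ∫⁻ z, ‖(fwdDiff h)^[k] (sc ψ s) z‖ₑ = ∫⁻ z, ‖(fwdDiff (s⁻¹ • h))^[k] ψ z‖ₑ := by
  simp_rw [iter_sc, enorm_smul]
  rw [lintegral_const_mul' _ _ enorm_ne_top,
    lint_smul (inv_ne_zero hs.ne') (fun z => ‖(fwdDiff (s⁻¹ • h))^[k] ψ z‖ₑ), ← mul_assoc]
  have h1 : ‖(s ^ 2)⁻¹‖ₑ * ENNReal.ofReal ((s⁻¹ ^ 2)⁻¹) = 1 := by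
    rw [Real.enorm_of_nonneg (by positivity), ← ENNReal.ofReal_mul (by positivity)]
    rw [show (s ^ 2)⁻¹ * (s⁻¹ ^ 2)⁻¹ = 1 by field_simp]
    simp
  rw [h1, one_mul]

lemma lint_iter_bound {ψ : ℂ → ℂ} (hψ : ContDiff ℝ ∞ ψ) (hc : HasCompactSupport ψ) (k : ℕ) :
    ∃ C : ℝ, 0 ≤ C ∧ ∀ v : ℂ,
      ∫⁻ z, ‖(fwdDiff v)^[k] ψ z‖ₑ ≤ ENNReal.ofReal (C * min 1 (‖v‖ ^ k)) := by
  obtain ⟨B, hB0, hB⟩ := iter_bound k ℂ ψ hψ hc
  obtain ⟨ρ, hρ⟩ := hc.isBounded.subset_closedBall (0 : ℂ)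
  have hint : Integrable ψ := hψ.continuous.integrable_of_hasCompactSupport hc
  set I₀ : ℝ := ∫ z, ‖ψ z‖ with hI₀
  have hI0 : 0 ≤ I₀ := integral_nonneg fun z => norm_nonneg _
  have hI : ∫⁻ z, ‖ψ z‖ₑ = ENNReal.ofReal I₀ := by
    rw [hI₀, ofReal_integral_norm_eq_lintegral_enorm hint]
  set S : ℝ := ∑ j ∈ Finset.range (k + 1), (k.choose j : ℝ) with hS
  have hS0 : 0 ≤ S := Finset.sum_nonneg fun j _ => by positivity
  set V : ℝ := (volume (Metric.closedBall (0 : ℂ) (ρ + k))).toReal with hV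
  have hV0 : 0 ≤ V := ENNReal.toReal_nonneg
  have hVt : volume (Metric.closedBall (0 : ℂ) (ρ + k)) = ENNReal.ofReal V := by
    rw [hV, ENNReal.ofReal_toReal measure_closedBall_lt_top.ne]
  have key1 : ∀ v : ℂ, ∫⁻ z, ‖(fwdDiff v)^[k] ψ z‖ₑ ≤ ENNReal.ofReal (S * I₀) := by
    intro v
    calc ∫⁻ z, ‖(fwdDiff v)^[k] ψ z‖ₑ
        ≤ ∫⁻ z, ∑ j ∈ Finset.range (k + 1), ENNReal.ofReal (k.choose j : ℝ) *
            ‖ψ (z + (j : ℝ) • v)‖ₑ := by
          refine lintegral_mono fun z => ?_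
          rw [iter_sum]
          refine (enorm_sum_le _ _).trans (Finset.sum_le_sum fun j _ => ?_)
          rw [enorm_smul, enorm_mul, Real.enorm_of_nonneg (Nat.cast_nonneg _)]
          gcongr
          rw [show ‖(-1 : ℝ) ^ (k - j)‖ₑ = 1 by simp [enorm_pow], one_mul]
      _ = ∑ j ∈ Finset.range (k + 1), ENNReal.ofReal (k.choose j : ℝ) * ENNReal.ofReal I₀ := by
          rw [lintegral_finsetSum' _ fun j _ => by
            have : Continuous fun z => ‖ψ (z + (j : ℝ) • v)‖ₑ := by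
              have := hψ.continuous
              fun_prop
            exact (this.measurable.const_mul _).aemeasurable]
          refine Finset.sum_congr rfl fun j _ => ?_
          rw [lintegral_const_mul' _ _ ENNReal.ofReal_ne_top]
          rw [lintegral_add_right_eq_self (fun z => ‖ψ z‖ₑ) ((j : ℝ) • v), hI]
      _ = ENNReal.ofReal (S * I₀) := by
          rw [← Finset.sum_mul, ENNReal.ofReal_mul hS0, hS,
            ENNReal.ofReal_sum_of_nonneg fun j _ => Nat.cast_nonneg _]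
  have key2 : ∀ v : ℂ, ‖v‖ ≤ 1 →
      ∫⁻ z, ‖(fwdDiff v)^[k] ψ z‖ₑ ≤ ENNReal.ofReal (B * V * ‖v‖ ^ k) := by
    intro v hv
    have hz : ∀ z : ℂ, z ∉ Metric.closedBall (0 : ℂ) (ρ + k) → (fwdDiff v)^[k] ψ z = 0 := by
      intro z hz
      rw [iter_sum]
      refine Finset.sum_eq_zero fun j hj => ?_
      have hj' : (j : ℝ) ≤ k := by
        have := Finset.mem_range.1 hj
        exact_mod_cast (by omega : j ≤ k)
      have h1 : z + (j : ℝ) • v ∉ tsupport ψ := by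
        intro h2
        have h3 := hρ h2
        rw [mem_closedBall_zero_iff] at h3
        rw [mem_closedBall_zero_iff, not_le] at hz
        have h4 : ‖(j : ℝ) • v‖ ≤ k := by
          rw [norm_smul, Real.norm_of_nonneg (Nat.cast_nonneg _)]
          calc (j : ℝ) * ‖v‖ ≤ k * 1 := by gcongr
            _ = k := mul_one _
        have h5 : ‖z‖ ≤ ‖z + (j : ℝ) • v‖ + ‖(j : ℝ) • v‖ := by
          have := norm_sub_le (z + (j : ℝ) • v) ((j : ℝ) • v)
          rwa [add_sub_cancel_right] at this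
        linarith
      rw [image_eq_zero_of_notMem_tsupport h1, smul_zero]
    calc ∫⁻ z, ‖(fwdDiff v)^[k] ψ z‖ₑ
        ≤ ∫⁻ z, (Metric.closedBall (0 : ℂ) (ρ + k)).indicator
            (fun _ => ENNReal.ofReal (B * ‖v‖ ^ k)) z := by
          refine lintegral_mono fun z => ?_
          by_cases hzb : z ∈ Metric.closedBall (0 : ℂ) (ρ + k)
          · rw [indicator_of_mem hzb, ← ofReal_norm_eq_enorm]
            exact ENNReal.ofReal_le_ofReal (hB v z)
          · rw [indicator_of_notMem hzb, hz z hzb, enorm_zero]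
      _ = ENNReal.ofReal (B * ‖v‖ ^ k) * ENNReal.ofReal V := by
          rw [lintegral_indicator Metric.isClosed_closedBall.measurableSet, setLIntegral_const, hVt]
      _ = ENNReal.ofReal (B * V * ‖v‖ ^ k) := by
          rw [← ENNReal.ofReal_mul (by positivity)]
          congr 1
          ring
  refine ⟨max (S * I₀) (B * V), le_max_of_le_left (by positivity), fun v => ?_⟩
  by_cases hv : ‖v‖ ≤ 1
  · rw [min_eq_right (pow_le_one₀ (norm_nonneg _) hv)]
    refine (key2 v hv).trans (ENNReal.ofReal_le_ofReal ?_)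
    gcongr
    exact le_max_right _ _
  · rw [min_eq_left (one_le_pow₀ (not_le.1 hv).le), mul_one]
    exact (key1 v).trans (ENNReal.ofReal_le_ofReal (le_max_left _ _))

end Pool.Agent.T9h61.DB
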