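import Pool.Agent.T9h61.DB.Per4

set_option autoImplicit false

open MeasureTheory Complex Set Filter Topology
open scoped ENNReal NNReal ContDiff Convolution ComplexConjugate

namespace Pool.Agent.T9h61.DB

variable {Ω : Set ℂ}

lemma X_smul (hΩ : MeasurableSet Ω) {ψ : ℂ → ℂ} (hψ : ContDiff ℝ ∞ ψ) (hc : HasCompactSupport ψ)
    (c : ℂ) {α : ℝ} (h : X Ω ψ α < ⊤) : X Ω (fun z => c * ψ z) α < ⊤ := by
  have h1 : ContDiff ℝ ∞ (fun z => c * ψ z) := contDiff_const.mul hψ
  have h2 : HasCompactSupport (fun z => c * ψ z) := hc.mul_left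
  have hd : ∀ y, dbar (fun z => c * ψ z) y = c * dbar ψ y := by
    intro y
    unfold dbar
    rw [fderiv_const_mul (hψ.differentiable (by simp) y)]
    simp only [_root_.smul_apply, smul_eq_mul]
    ring
  have h3 : ∀ s : ℝ, s ≠ 0 → g Ω (fun z => c * ψ z) s = ‖c‖ₑ * g Ω ψ s := by
    intro s hs
    unfold g
    rw [← lintegral_const_mul' _ _ enorm_ne_top]
    refine lintegral_congr fun w => ?_
    rw [← enorm_mul, G_formula hΩ h1 h2 hs, G_formula hΩ hψ hc hs, ← integral_const_mul]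
    congr 2
    ext z
    rw [hd]
    simp only [Complex.real_smul]
    ring
  have h4 : X Ω (fun z => c * ψ z) α = ‖c‖ₑ * X Ω ψ α := by
    unfold X
    rw [← lintegral_const_mul' _ _ enorm_ne_top]
    refine setLIntegral_congr_fun measurableSet_Ioo fun s hs => ?_
    rw [h3 s hs.1.ne']
    ring
  rw [h4]
  exact ENNReal.mul_lt_top enorm_lt_top h

/-- the criterion with one kernel -/
theorem main1 (hΩ : MeasurableSet Ω) {φ : ℂ → ℝ} (hφ : ContDiff ℝ ∞ φ)
    (hc : HasCompactSupport φ) (hne : ∫ z, φ z ≠ 0) {α : ℝ} (hα : 0 < α) {k : ℕ} (hk : α < k) :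
    Admissible α k Ω ↔ XR α Ω φ < ⊤ := by
  have hk1 : 1 ≤ k := by
    by_contra h
    have : k = 0 := by omega
    rw [this, Nat.cast_zero] at hk
    linarith
  rw [XR_iff hΩ hφ hc]
  constructor
  · intro h
    exact nec hΩ (rc_contDiff hφ) (rc_compact hc) hα hk h
  · intro h
    set c : ℂ := ((∫ z, φ z : ℝ) : ℂ) with hcdef
    have hc0 : c ≠ 0 := by
      rw [hcdef]
      exact_mod_cast hne
    have h1 := X_smul hΩ (rc_contDiff hφ) (rc_compact hc) c⁻¹ h
    refine suff (φ := fun z => c⁻¹ * rc φ z) hΩ (contDiff_const.mul (rc_contDiff hφ))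
      ((rc_compact hc).mul_left) ?_ hα hk1 h1
    rw [integral_const_mul]
    have h2 : ∫ z, rc φ z = c := by
      rw [hcdef]
      exact integral_complex_ofReal
    rw [h2, inv_mul_cancel₀ hc0]

theorem main2 (hΩ : MeasurableSet Ω) {φ : ℂ → ℝ} (hφ : ContDiff ℝ ∞ φ)
    (hc : HasCompactSupport φ) {α : ℝ} (hα : 0 < α) {k : ℕ} (hk : α < k)
    (h : Admissible α k Ω) : XR α Ω φ < ⊤ := by
  rw [XR_iff hΩ hφ hc]
  exact nec hΩ (rc_contDiff hφ) (rc_compact hc) hα hk h

/-- a bump function supported in the unit disc -/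
noncomputable def bc : ContDiffBump (0 : ℂ) := ⟨1 / 4, 1 / 2, by norm_num, by norm_num⟩

noncomputable def kb : ℂ → ℝ := bc.normed volume

lemma kb_contDiff : ContDiff ℝ ∞ kb := bc.contDiff_normed

lemma kb_compact : HasCompactSupport kb := bc.hasCompactSupport_normed

lemma kb_int : ∫ z, kb z = 1 := bc.integral_normed

lemma kb_dbar {y : ℂ} (hy : 1 ≤ ‖y‖) : dbar (rc kb) y = 0 := by
  have h1 : y ∉ tsupport kb := by
    unfold kb
    rw [bc.tsupport_normed_eq, Metric.mem_closedBall, dist_zero_right]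
    have : bc.rOut = 1 / 2 := rfl
    rw [this]
    linarith
  have h2 : fderiv ℝ kb y = 0 := by
    have := support_fderiv_subset ℝ (f := kb)
    by_contra h
    exact h1 (this h)
  unfold dbar
  rw [rc_fderiv kb_contDiff, rc_fderiv kb_contDiff, h2]
  simp

/-- the fractional perimeter criterion -/
theorem main3 (hΩ : MeasurableSet Ω) {α : ℝ} (hα : 0 < α) (hα1 : α < 1) {k : ℕ} (hk : α < k) :
    Admissible α k Ω ↔ FP α Ω < ⊤ := by
  constructor
  · intro h
    exact FP_of_X hΩ hα1 (nec hΩ (rc_contDiff k1_contDiff) (rc_compact k1_compact) hα hk h)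
      (nec hΩ (rc_contDiff k2_contDiff) (rc_compact k2_compact) hα hk h)
  · intro h
    obtain ⟨L, hL⟩ := (dbar_compact (rc_compact kb_compact)).exists_bound_of_continuous
      (dbar_contDiff (rc_contDiff kb_contDiff)).continuous
    have hL0 : 0 ≤ L := (norm_nonneg _).trans (hL 0)
    have h1 := X_of_FP hΩ (rc_contDiff kb_contDiff) (rc_compact kb_compact) hL0 hL
      (fun y hy => kb_dbar hy) (by linarith : α < 3) h
    rw [main1 hΩ kb_contDiff kb_compact (by rw [kb_int]; exact one_ne_zero) hα hk,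
      XR_iff hΩ kb_contDiff kb_compact]
    exact h1

end Pool.Agent.T9h61.DB
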