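import Pool.Agent.T9h61.DB.Suff4
import Pool.Agent.T9h61.DB.Geo

set_option autoImplicit false

open MeasureTheory Complex Set Filter Topology
open scoped ENNReal NNReal ContDiff Convolution ComplexConjugate

namespace Pool.Agent.T9h61.DB

variable {Ω : Set ℂ} {φ : ℂ → ℂ}

lemma iter_cv {a ψ : ℂ → ℂ} (ha : LocallyIntegrable a) (hψ : Continuous ψ)
    (hc : HasCompactSupport ψ) (h : ℂ) (k : ℕ) (z : ℂ) :
    (fwdDiff h)^[k] (cv a ψ) z = cv a ((fwdDiff h)^[k] ψ) z := by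
  rw [iter_sum]
  unfold cv
  simp_rw [iter_sum, Finset.mul_sum]
  rw [integral_finsetSum]
  · refine Finset.sum_congr rfl fun j _ => ?_
    rw [← integral_smul]
    congr 1
    ext w
    rw [mul_smul_comm]
    congr 3
    ring
  · intro j _
    have h1 := (intg ha hψ hc (z + (j : ℝ) • h)).smul ((-1 : ℝ) ^ (k - j) * (k.choose j : ℝ))
    refine h1.congr (Eventually.of_forall fun w => ?_)
    simp only [Pi.smul_apply]
    rw [mul_smul_comm]
    congr 3
    ring

lemma cv_le {a χ : ℂ → ℂ} (ha : ∀ w, ‖a w‖ ≤ 1) (z : ℂ) :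
    ‖cv a χ z‖ₑ ≤ ∫⁻ w, ‖χ w‖ₑ := by
  unfold cv
  refine (enorm_integral_le_lintegral_enorm _).trans ?_
  calc ∫⁻ w, ‖a w * χ (z - w)‖ₑ ≤ ∫⁻ w, ‖χ (z - w)‖ₑ := by
        refine lintegral_mono fun w => ?_
        rw [enorm_mul]
        have h1 : ‖a w‖ₑ ≤ 1 := by
          rw [← ofReal_norm, ← ENNReal.ofReal_one]
          exact ENNReal.ofReal_le_ofReal (ha w)
        calc ‖a w‖ₑ * ‖χ (z - w)‖ₑ ≤ 1 * ‖χ (z - w)‖ₑ := by gcongr
          _ = _ := one_mul _
    _ = ∫⁻ w, ‖χ w‖ₑ := lintegral_sub_left_eq_self (fun w => ‖χ w‖ₑ) z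

/-- the sign -/
noncomputable def sg (ζ : ℂ) : ℂ := conj ζ / ‖ζ‖

lemma sg_norm (ζ : ℂ) : ‖sg ζ‖ ≤ 1 := by
  unfold sg
  rw [norm_div, RCLike.norm_conj, norm_real, norm_norm]
  exact div_self_le_one _

lemma sg_mul (ζ : ℂ) : sg ζ * ζ = (‖ζ‖ : ℂ) := by
  unfold sg
  by_cases h : ζ = 0
  · simp [h]
  · have h1 : (‖ζ‖ : ℂ) ≠ 0 := by
      rw [Ne, ofReal_eq_zero]
      exact norm_ne_zero_iff.2 h
    rw [div_mul_eq_mul_div, div_eq_iff h1, mul_comm, mul_conj, normSq_eq_norm_sq]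
    push_cast
    ring

lemma sg_meas : Measurable sg := by
  unfold sg
  exact (continuous_conj.measurable).div (continuous_ofReal.comp continuous_norm).measurable

/-- the test function at one scale -/
noncomputable def hh (Ω : Set ℂ) (φ : ℂ → ℂ) (R s : ℝ) (w : ℂ) : ℂ :=
  (Metric.closedBall (0 : ℂ) R).indicator (fun w => sg (G Ω φ s w)) w

lemma hh_norm (R s : ℝ) (w : ℂ) : ‖hh Ω φ R s w‖ ≤ 1 := by
  unfold hh
  by_cases hw : w ∈ Metric.closedBall (0 : ℂ) R
  · rw [indicator_of_mem hw]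
    exact sg_norm _
  · rw [indicator_of_notMem hw, norm_zero]
    exact zero_le_one

lemma hh_meas (hΩ : MeasurableSet Ω) (hφ : ContDiff ℝ ∞ φ) (hc : HasCompactSupport φ)
    (R : ℝ) {s : ℝ} (hs : 0 < s) : Measurable (hh Ω φ R s) :=
  (sg_meas.comp (G_continuous (Ω := Ω) hΩ hφ hc hs.ne').measurable).indicator
    Metric.isClosed_closedBall.measurableSet

lemma hh_compact (R s : ℝ) : HasCompactSupport (hh Ω φ R s) := by
  refine HasCompactSupport.intro (isCompact_closedBall (0 : ℂ) R) fun w hw => ?_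
  unfold hh
  rw [indicator_of_notMem hw]

lemma hh_int (hΩ : MeasurableSet Ω) (hφ : ContDiff ℝ ∞ φ) (hc : HasCompactSupport φ)
    (R : ℝ) {s : ℝ} (hs : 0 < s) : Integrable (hh Ω φ R s) := by
  have h1 : IntegrableOn (fun _ : ℂ => (1 : ℝ)) (Metric.closedBall (0 : ℂ) R) :=
    integrableOn_const measure_closedBall_lt_top.ne
  rw [← integrable_indicator_iff Metric.isClosed_closedBall.measurableSet] at h1
  refine h1.mono' (hh_meas hΩ hφ hc R hs).aestronglyMeasurable (Eventually.of_forall fun w => ?_)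
  unfold hh
  by_cases hw : w ∈ Metric.closedBall (0 : ℂ) R
  · rw [indicator_of_mem hw, indicator_of_mem hw]
    exact sg_norm _
  · rw [indicator_of_notMem hw, indicator_of_notMem hw, norm_zero]

lemma refl_contDiff (hφ : ContDiff ℝ ∞ φ) : ContDiff ℝ ∞ (fun y => φ (-y)) :=
  hφ.comp contDiff_neg

lemma refl_compact (hc : HasCompactSupport φ) : HasCompactSupport (fun y => φ (-y)) := by
  have := hc.comp_smul (show (-1 : ℝ) ≠ 0 by norm_num)
  simpa using this

lemma dbar_refl (hφ : ContDiff ℝ ∞ φ) (s : ℝ) (y : ℂ) :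
    dbar (sc (fun y => φ (-y)) s) y = -dbar (sc φ s) (-y) := by
  have h1 : sc (fun y => φ (-y)) s = fun y => sc φ s (-y) := by
    ext y
    unfold sc
    rw [smul_neg]
  have h2 : ∀ v : ℂ, fderiv ℝ (fun y => sc φ s (-y)) y v = -fderiv ℝ (sc φ s) (-y) v := by
    intro v
    have h3 : HasFDerivAt (sc φ s) (fderiv ℝ (sc φ s) (-y)) (-y) :=
      ((sc_contDiff hφ s).differentiable (by simp) _).hasFDerivAt
    have h4 : HasFDerivAt (fun y : ℂ => -y) (-ContinuousLinearMap.id ℝ ℂ) y :=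
      (hasFDerivAt_id y).neg
    have h5 : HasFDerivAt (fun y => sc φ s (-y))
        ((fderiv ℝ (sc φ s) (-y)).comp (-ContinuousLinearMap.id ℝ ℂ)) y := h3.comp y h4
    rw [h5.fderiv]
    simp
  rw [h1]
  unfold dbar
  rw [h2, h2]
  ring

/-- the pairing at one scale -/
lemma one_pair (hΩ : MeasurableSet Ω) (hφ : ContDiff ℝ ∞ φ) (hc : HasCompactSupport φ)
    (R : ℝ) {s : ℝ} (hs : 0 < s) :
    ∫ z in Ω, cv (hh Ω φ R s) (dbar (sc (fun y => φ (-y)) s)) z =
      -((∫ w in Metric.closedBall (0 : ℂ) R, ‖G Ω φ s w‖ : ℝ) : ℂ) := by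
  have hψ := dbar_contDiff (sc_contDiff (refl_contDiff hφ) s)
  have hψc := dbar_compact (sc_compact (refl_compact hc) hs.ne')
  have hψi : Integrable (dbar (sc (fun y => φ (-y)) s)) :=
    hψ.continuous.integrable_of_hasCompactSupport hψc
  have hI := hh_int hΩ hφ hc R hs
  have hprod : Integrable (Function.uncurry fun z w : ℂ =>
      hh Ω φ R s w * dbar (sc (fun y => φ (-y)) s) (z - w))
      ((volume.restrict Ω).prod volume) := by
    have h1 := hI.convolution_integrand (ContinuousLinearMap.mul ℝ ℂ) hψi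
      (μ := (volume : Measure ℂ)) (ν := volume)
    exact Integrable.mono_measure h1 (Measure.prod_mono Measure.restrict_le_self le_rfl)
  unfold cv
  rw [integral_integral_swap hprod]
  have h2 : ∀ w : ℂ, ∫ z in Ω, hh Ω φ R s w * dbar (sc (fun y => φ (-y)) s) (z - w) =
      -((Metric.closedBall (0 : ℂ) R).indicator (fun w => (‖G Ω φ s w‖ : ℂ)) w) := by
    intro w
    rw [integral_const_mul]
    have h3 : ∫ z in Ω, dbar (sc (fun y => φ (-y)) s) (z - w) = -G Ω φ s w := by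
      unfold G
      rw [cv_dbar (ch_loc hΩ) (sc_contDiff hφ s) (sc_compact hc hs.ne'), cv_ch hΩ,
        ← integral_neg]
      congr 1
      ext z
      rw [dbar_refl hφ, neg_sub]
    rw [h3]
    unfold hh
    by_cases hw : w ∈ Metric.closedBall (0 : ℂ) R
    · rw [indicator_of_mem hw, indicator_of_mem hw, mul_neg, sg_mul]
    · rw [indicator_of_notMem hw, indicator_of_notMem hw, zero_mul, neg_zero]
  simp_rw [h2]
  rw [integral_neg, integral_indicator Metric.isClosed_closedBall.measurableSet,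
    integral_complex_ofReal]

/-- the test function -/
noncomputable def tf (Ω : Set ℂ) (φ : ℂ → ℂ) (α R t : ℝ) (M : ℕ) (z : ℂ) : ℂ :=
  ∑ m ∈ Finset.range M, (t / 2 ^ m) ^ α •
    cv (hh Ω φ R (t / 2 ^ m)) (sc (fun y => φ (-y)) (t / 2 ^ m)) z

lemma tf_contDiff (hΩ : MeasurableSet Ω) (hφ : ContDiff ℝ ∞ φ) (hc : HasCompactSupport φ)
    (α R : ℝ) {t : ℝ} (ht : 0 < t) (M : ℕ) : ContDiff ℝ ∞ (tf Ω φ α R t M) := by
  have h1 : ∀ m ∈ Finset.range M, ContDiff ℝ ∞ (fun z => (t / 2 ^ m) ^ α •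
      cv (hh Ω φ R (t / 2 ^ m)) (sc (fun y => φ (-y)) (t / 2 ^ m)) z) := by
    intro m _
    have hs : 0 < t / 2 ^ m := by positivity
    exact (cv_contDiff (hh_int hΩ hφ hc R hs).locallyIntegrable
      (sc_contDiff (refl_contDiff hφ) _) (sc_compact (refl_compact hc) hs.ne')).const_smul
      ((t / 2 ^ m) ^ α)
  exact ContDiff.sum h1

lemma tf_compact (hc : HasCompactSupport φ)
    (α R : ℝ) {t : ℝ} (ht : 0 < t) (M : ℕ) : HasCompactSupport (tf Ω φ α R t M) := by
  have hE : ∀ m : ℕ, HasCompactSupport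
      (cv (hh Ω φ R (t / 2 ^ m)) (sc (fun y => φ (-y)) (t / 2 ^ m))) := by
    intro m
    have hs : 0 < t / 2 ^ m := by positivity
    exact cv_compact (hh_compact _ _) (sc_compact (refl_compact hc) hs.ne')
  have h1 : IsCompact (⋃ m ∈ Finset.range M, tsupport
      (cv (hh Ω φ R (t / 2 ^ m)) (sc (fun y => φ (-y)) (t / 2 ^ m)))) :=
    (Finset.range M).isCompact_biUnion fun i _ => (hE i).isCompact
  refine HasCompactSupport.intro h1 fun w hw => ?_
  unfold tf
  refine Finset.sum_eq_zero fun i hi => ?_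
  have : w ∉ tsupport (cv (hh Ω φ R (t / 2 ^ i)) (sc (fun y => φ (-y)) (t / 2 ^ i))) :=
    fun h => hw (mem_biUnion hi h)
  rw [image_eq_zero_of_notMem_tsupport this, smul_zero]

lemma tf_dbar (hΩ : MeasurableSet Ω) (hφ : ContDiff ℝ ∞ φ) (hc : HasCompactSupport φ)
    (α R : ℝ) {t : ℝ} (ht : 0 < t) (M : ℕ) (z : ℂ) :
    dbar (tf Ω φ α R t M) z = ∑ m ∈ Finset.range M, (t / 2 ^ m) ^ α •
      cv (hh Ω φ R (t / 2 ^ m)) (dbar (sc (fun y => φ (-y)) (t / 2 ^ m))) z := by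
  have h0 : ∀ m ∈ Finset.range M, DifferentiableAt ℝ (fun z =>
      cv (hh Ω φ R (t / 2 ^ m)) (sc (fun y => φ (-y)) (t / 2 ^ m)) z) z := by
    intro m _
    have hs : 0 < t / 2 ^ m := by positivity
    exact (cv_contDiff (hh_int hΩ hφ hc R hs).locallyIntegrable
      (sc_contDiff (refl_contDiff hφ) _)
      (sc_compact (refl_compact hc) hs.ne')).differentiable (by simp) z
  have h1 : ∀ v : ℂ, fderiv ℝ (tf Ω φ α R t M) z v = ∑ m ∈ Finset.range M, (t / 2 ^ m) ^ α •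
      fderiv ℝ (cv (hh Ω φ R (t / 2 ^ m)) (sc (fun y => φ (-y)) (t / 2 ^ m))) z v := by
    intro v
    have e : tf Ω φ α R t M = fun z => ∑ m ∈ Finset.range M, (t / 2 ^ m) ^ α •
      cv (hh Ω φ R (t / 2 ^ m)) (sc (fun y => φ (-y)) (t / 2 ^ m)) z := rfl
    rw [e, fderiv_fun_sum (fun m hm => (h0 m hm).fun_const_smul _)]
    rw [_root_.sum_apply]
    refine Finset.sum_congr rfl fun m hm => ?_
    rw [fderiv_fun_const_smul (h0 m hm)]
    rfl
  unfold dbar
  rw [h1, h1, Finset.mul_sum, ← Finset.sum_add_distrib, Finset.sum_div]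
  refine Finset.sum_congr rfl fun m _ => ?_
  have hs : 0 < t / 2 ^ m := by positivity
  have h2 := cv_dbar (hh_int hΩ hφ hc R hs).locallyIntegrable
      (sc_contDiff (refl_contDiff hφ) _) (sc_compact (refl_compact hc) hs.ne') z
  change _ = (t / 2 ^ m) ^ α •
      cv (hh Ω φ R (t / 2 ^ m)) (dbar (sc (fun y => φ (-y)) (t / 2 ^ m))) z
  rw [← h2]
  unfold dbar
  simp only [Complex.real_smul]
  ring

end Pool.Agent.T9h61.DB
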