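import Pool.Agent.T9h61.DB.Nec

set_option autoImplicit false

open MeasureTheory Complex Set Filter Topology
open scoped ENNReal NNReal ContDiff Convolution ComplexConjugate

namespace Pool.Agent.T9h61.DB

variable {Ω : Set ℂ} {φ : ℂ → ℂ}

lemma tf_sup (hφ : ContDiff ℝ ∞ φ) (hc : HasCompactSupport φ)
    {α : ℝ} (hα : 0 < α) :
    ∃ D : ℝ, 0 ≤ D ∧ ∀ (Ω : Set ℂ) (R t : ℝ) (M : ℕ), 0 < t → t ≤ 1 →
      supn (tf Ω φ α R t M) ≤ ENNReal.ofReal D := by
  obtain ⟨C, hC0, hC⟩ := geo_one hα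
  obtain ⟨C', hC0', hC'⟩ := lint_iter_bound (refl_contDiff hφ) (refl_compact hc) 0
  refine ⟨C * C', by positivity, fun Ω R t M ht0 ht1 => iSup_le fun z => ?_⟩
  have hb : ∀ m : ℕ, ‖cv (hh Ω φ R (t / 2 ^ m)) (sc (fun y => φ (-y)) (t / 2 ^ m)) z‖ₑ ≤
      ENNReal.ofReal C' := by
    intro m
    have hs : 0 < t / 2 ^ m := by positivity
    refine (cv_le (hh_norm R _) z).trans ?_
    have h1 := lint_iter_sc (fun y => φ (-y)) hs 0 0
    simp only [Function.iterate_zero, id_eq] at h1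
    rw [h1]
    have h2 := hC' 0
    simp only [Function.iterate_zero, id_eq, pow_zero, min_self, mul_one] at h2
    exact h2
  calc ‖tf Ω φ α R t M z‖ₑ ≤ ∑ m ∈ Finset.range M, ENNReal.ofReal ((t / 2 ^ m) ^ α) *
        ENNReal.ofReal C' := by
        unfold tf
        refine (enorm_sum_le _ _).trans (Finset.sum_le_sum fun m _ => ?_)
        rw [enorm_smul, Real.enorm_of_nonneg (by positivity)]
        gcongr
        exact hb m
    _ = ENNReal.ofReal ((∑ m ∈ Finset.range M, (t / 2 ^ m) ^ α) * C') := by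
        rw [← Finset.sum_mul, ENNReal.ofReal_mul
          (Finset.sum_nonneg fun m _ => by positivity),
          ENNReal.ofReal_sum_of_nonneg fun m _ => by positivity]
    _ ≤ ENNReal.ofReal (C * C') := by
        apply ENNReal.ofReal_le_ofReal
        gcongr
        exact hC M t ht0.le ht1

lemma tf_semi (hφ : ContDiff ℝ ∞ φ) (hc : HasCompactSupport φ)
    {α : ℝ} (hα : 0 < α) {k : ℕ} (hk : α < k) :
    ∃ D : ℝ, 0 ≤ D ∧ ∀ (Ω : Set ℂ), MeasurableSet Ω → ∀ (R t : ℝ) (M : ℕ), 1 / 2 ≤ t → t ≤ 1 →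
      semi α k (tf Ω φ α R t M) ≤ ENNReal.ofReal D := by
  obtain ⟨C, hC0, hC⟩ := geo hα hk
  obtain ⟨C', hC0', hC'⟩ := lint_iter_bound (refl_contDiff hφ) (refl_compact hc) k
  refine ⟨C' * C, by positivity, fun Ω hΩ R t M ht0 ht1 => ?_⟩
  refine iSup_le fun h => iSup_le fun hh0 => iSup_le fun z => ?_
  have ht : 0 < t := by linarith
  have hhpos : 0 < ‖h‖ := norm_pos_iff.2 hh0
  have hpos : 0 < ‖h‖ ^ α := Real.rpow_pos_of_pos hhpos _
  rw [ENNReal.div_le_iff (by simpa using hpos) ENNReal.ofReal_ne_top]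
  have hlin : (fwdDiff h)^[k] (tf Ω φ α R t M) z = ∑ m ∈ Finset.range M, (t / 2 ^ m) ^ α •
      (fwdDiff h)^[k] (cv (hh Ω φ R (t / 2 ^ m)) (sc (fun y => φ (-y)) (t / 2 ^ m))) z := by
    rw [iter_sum]
    unfold tf
    simp_rw [Finset.smul_sum]
    rw [Finset.sum_comm]
    refine Finset.sum_congr rfl fun m _ => ?_
    rw [iter_sum, Finset.smul_sum]
    refine Finset.sum_congr rfl fun j _ => ?_
    rw [smul_comm]
  have hb : ∀ m : ℕ, ‖(fwdDiff h)^[k]
      (cv (hh Ω φ R (t / 2 ^ m)) (sc (fun y => φ (-y)) (t / 2 ^ m))) z‖ₑ ≤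
      ENNReal.ofReal (C' * min 1 (((t / 2 ^ m)⁻¹ * ‖h‖) ^ k)) := by
    intro m
    have hs : 0 < t / 2 ^ m := by positivity
    rw [iter_cv (hh_int hΩ hφ hc R hs).locallyIntegrable
      (sc_contDiff (refl_contDiff hφ) _).continuous (sc_compact (refl_compact hc) hs.ne')]
    refine (cv_le (hh_norm R _) z).trans ?_
    rw [lint_iter_sc _ hs]
    refine (hC' _).trans (le_of_eq ?_)
    rw [norm_smul, Real.norm_of_nonneg (by positivity)]
  rw [hlin]
  calc _ ≤ ∑ m ∈ Finset.range M, ENNReal.ofReal ((t / 2 ^ m) ^ α) *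
        ENNReal.ofReal (C' * min 1 (((t / 2 ^ m)⁻¹ * ‖h‖) ^ k)) := by
        refine (enorm_sum_le _ _).trans (Finset.sum_le_sum fun m _ => ?_)
        rw [enorm_smul, Real.enorm_of_nonneg (by positivity)]
        gcongr
        exact hb m
    _ = ENNReal.ofReal (C' * ∑ m ∈ Finset.range M, (t / 2 ^ m) ^ α *
          min 1 (((t / 2 ^ m)⁻¹ * ‖h‖) ^ k)) := by
        rw [Finset.mul_sum, ENNReal.ofReal_sum_of_nonneg fun m _ => by positivity]
        refine Finset.sum_congr rfl fun m _ => ?_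
        rw [← ENNReal.ofReal_mul (by positivity)]
        congr 1
        ring
    _ ≤ ENNReal.ofReal (C' * (C * ‖h‖ ^ α)) := by
        apply ENNReal.ofReal_le_ofReal
        gcongr
        exact hC M t ‖h‖ ht0 ht1 hhpos
    _ = ENNReal.ofReal (C' * C) * ENNReal.ofReal (‖h‖ ^ α) := by
        rw [← ENNReal.ofReal_mul (by positivity)]
        congr 1
        ring

lemma tf_pair (hΩ : MeasurableSet Ω) (hφ : ContDiff ℝ ∞ φ) (hc : HasCompactSupport φ)
    (α R : ℝ) {t : ℝ} (ht : 0 < t) (M : ℕ) :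
    ‖-∫ z in Ω, dbar (tf Ω φ α R t M) z‖ₑ = ∑ m ∈ Finset.range M,
      ENNReal.ofReal ((t / 2 ^ m) ^ α) *
        ∫⁻ w in Metric.closedBall (0 : ℂ) R, ‖G Ω φ (t / 2 ^ m) w‖ₑ := by
  have hint : ∀ m ∈ Finset.range M, IntegrableOn (fun z => (t / 2 ^ m) ^ α •
      cv (hh Ω φ R (t / 2 ^ m)) (dbar (sc (fun y => φ (-y)) (t / 2 ^ m))) z) Ω := by
    intro m _
    have hs : 0 < t / 2 ^ m := by positivity
    have h1 := dbar_contDiff (sc_contDiff (refl_contDiff hφ) (t / 2 ^ m))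
    have h2 := dbar_compact (sc_compact (refl_compact hc) hs.ne')
    have h3 : Integrable (cv (hh Ω φ R (t / 2 ^ m))
        (dbar (sc (fun y => φ (-y)) (t / 2 ^ m)))) :=
      (cv_contDiff (hh_int hΩ hφ hc R hs).locallyIntegrable h1 h2
        ).continuous.integrable_of_hasCompactSupport (cv_compact (hh_compact _ _) h2)
    exact (h3.smul ((t / 2 ^ m) ^ α)).integrableOn
  have h1 : -∫ z in Ω, dbar (tf Ω φ α R t M) z = ((∑ m ∈ Finset.range M, (t / 2 ^ m) ^ α *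
      ∫ w in Metric.closedBall (0 : ℂ) R, ‖G Ω φ (t / 2 ^ m) w‖ : ℝ) : ℂ) := by
    simp_rw [tf_dbar hΩ hφ hc α R ht M]
    rw [integral_finsetSum _ hint, ← Finset.sum_neg_distrib]
    push_cast
    refine Finset.sum_congr rfl fun m _ => ?_
    have hs : 0 < t / 2 ^ m := by positivity
    rw [integral_smul, one_pair hΩ hφ hc R hs, smul_neg, neg_neg, Complex.real_smul]
  rw [h1]
  have h2 : 0 ≤ ∑ m ∈ Finset.range M, (t / 2 ^ m) ^ α *
      ∫ w in Metric.closedBall (0 : ℂ) R, ‖G Ω φ (t / 2 ^ m) w‖ :=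
    Finset.sum_nonneg fun m _ => mul_nonneg (by positivity)
      (integral_nonneg fun w => norm_nonneg _)
  rw [← ofReal_norm, Complex.norm_real, Real.norm_of_nonneg h2,
    ENNReal.ofReal_sum_of_nonneg fun m _ => mul_nonneg (by positivity)
      (integral_nonneg fun w => norm_nonneg _)]
  refine Finset.sum_congr rfl fun m _ => ?_
  have hs : 0 < t / 2 ^ m := by positivity
  rw [ENNReal.ofReal_mul (by positivity)]
  congr 1
  have h3 : IntegrableOn (G Ω φ (t / 2 ^ m)) (Metric.closedBall (0 : ℂ) R) :=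
    (G_continuous (Ω := Ω) hΩ hφ hc hs.ne').continuousOn.integrableOn_compact
      (isCompact_closedBall _ _)
  rw [ofReal_integral_norm_eq_lintegral_enorm h3]

lemma g_aemeas' (hΩ : MeasurableSet Ω) (hφ : ContDiff ℝ ∞ φ) (hc : HasCompactSupport φ)
    {r : ℝ} (hr : 0 < r) {S : Set ℝ} (hS : MeasurableSet S) (h0 : S ⊆ Ioi 0) :
    AEMeasurable (fun t : ℝ => g Ω φ (r * t)) (volume.restrict S) := by
  have h1 : Measurable (fun t : ℝ => if r * t = 0 then 0 else g Ω φ (r * t)) :=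
    (g_measurable hΩ hφ hc).comp (measurable_const_mul r)
  refine h1.aemeasurable.congr ?_
  refine (ae_restrict_iff' hS).2 (Eventually.of_forall fun t ht => ?_)
  have : 0 < t := h0 ht
  have h2 : r * t ≠ 0 := by positivity
  simp only [h2, if_false]

/-- **Necessity.** -/
theorem nec (hΩ : MeasurableSet Ω) (hφ : ContDiff ℝ ∞ φ) (hc : HasCompactSupport φ)
    {α : ℝ} (hα : 0 < α) {k : ℕ} (hk : α < k) (h : Admissible α k Ω) : X Ω φ α < ⊤ := by
  obtain ⟨C, hC⟩ := h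
  obtain ⟨D₁, hD₁, h1⟩ := tf_sup hφ hc hα
  obtain ⟨D₂, hD₂, h2⟩ := tf_semi hφ hc hα hk
  set D : ℝ≥0∞ := C * (ENNReal.ofReal D₁ + ENNReal.ofReal D₂) with hD
  have hDt : D ≠ ⊤ := ENNReal.mul_ne_top ENNReal.coe_ne_top
    (ENNReal.add_ne_top.2 ⟨ENNReal.ofReal_ne_top, ENNReal.ofReal_ne_top⟩)
  have step1 : ∀ t : ℝ, 1 / 2 ≤ t → t ≤ 1 → ∀ M : ℕ, ∀ R : ℝ, ∑ m ∈ Finset.range M,
      ENNReal.ofReal ((t / 2 ^ m) ^ α) *
        ∫⁻ w in Metric.closedBall (0 : ℂ) R, ‖G Ω φ (t / 2 ^ m) w‖ₑ ≤ D := by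
    intro t ht1 ht2 M R
    have ht : 0 < t := by linarith
    rw [← tf_pair hΩ hφ hc α R ht M]
    refine (hC _ (tf_contDiff hΩ hφ hc α R ht M) (tf_compact hc α R ht M)).trans ?_
    rw [hD]
    gcongr
    exact add_le_add (h1 Ω R t M ht ht2) (h2 Ω hΩ R t M ht1 ht2)
  have step2 : ∀ t : ℝ, 1 / 2 ≤ t → t ≤ 1 → ∀ M : ℕ, ∑ m ∈ Finset.range M,
      ENNReal.ofReal ((t / 2 ^ m) ^ α) * g Ω φ (t / 2 ^ m) ≤ D := by
    intro t ht1 ht2 M
    have ht : 0 < t := by linarith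
    have hlim : Tendsto (fun n : ℕ => ∑ m ∈ Finset.range M, ENNReal.ofReal ((t / 2 ^ m) ^ α) *
        ∫⁻ w in Metric.closedBall (0 : ℂ) (n : ℝ), ‖G Ω φ (t / 2 ^ m) w‖ₑ) atTop
        (𝓝 (∑ m ∈ Finset.range M, ENNReal.ofReal ((t / 2 ^ m) ^ α) * g Ω φ (t / 2 ^ m))) := by
      refine tendsto_finsetSum _ fun m _ => ?_
      have hs : 0 < t / 2 ^ m := by positivity
      refine ENNReal.Tendsto.const_mul ?_ (Or.inr ENNReal.ofReal_ne_top)
      have hcov : AECover (volume : Measure ℂ) atTop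
          (fun n : ℕ => Metric.closedBall (0 : ℂ) (n : ℝ)) :=
        aecover_closedBall tendsto_natCast_atTop_atTop
      exact hcov.lintegral_tendsto_of_countably_generated
        (G_continuous (Ω := Ω) hΩ hφ hc hs.ne').enorm.measurable.aemeasurable
    exact le_of_tendsto' hlim fun n => step1 t ht1 ht2 M n
  have step3 : ∀ t : ℝ, 1 / 2 ≤ t → t ≤ 1 → ∑' m : ℕ,
      ENNReal.ofReal ((t / 2 ^ m) ^ α) * g Ω φ (t / 2 ^ m) ≤ D := fun t ht1 ht2 =>
    ENNReal.tsum_le_of_sum_range_le (step2 t ht1 ht2)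
  -- covering
  have hcover : Ioo (0 : ℝ) 1 ⊆ ⋃ m : ℕ, Ioc (1 / 2 / 2 ^ m : ℝ) (1 / 2 ^ m) := by
    intro s hs
    have hex : ∃ n : ℕ, (1 : ℝ) / 2 ^ n < s := by
      obtain ⟨n, hn⟩ := exists_pow_lt_of_lt_one hs.1 (by norm_num : (1 / 2 : ℝ) < 1)
      exact ⟨n, by rwa [one_div_pow] at hn⟩
    classical
    have hn0 : Nat.find hex ≠ 0 := by
      intro h0
      have := Nat.find_spec hex
      rw [h0] at this
      simp only [pow_zero, div_one] at this
      linarith [hs.2]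
    obtain ⟨n, hn⟩ := Nat.exists_eq_succ_of_ne_zero hn0
    refine mem_iUnion.2 ⟨n, ?_, ?_⟩
    · have := Nat.find_spec hex
      rw [hn] at this
      rw [div_div, ← pow_succ']
      exact this
    · exact not_lt.1 (Nat.find_min hex (by omega))
  have hscale : ∀ m : ℕ, ∫⁻ s in Ioc (1 / 2 / 2 ^ m : ℝ) (1 / 2 ^ m),
      ENNReal.ofReal (s ^ (α - 1)) * g Ω φ s ≤
      2 * ∫⁻ t in Ioc (1 / 2 : ℝ) 1, ENNReal.ofReal ((t / 2 ^ m) ^ α) * g Ω φ (t / 2 ^ m) := by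
    intro m
    set r : ℝ := 1 / 2 ^ m with hr
    have hr0 : 0 < r := by rw [hr]; positivity
    set Φ : ℝ → ℝ≥0∞ := (Ioc (1 / 2 / 2 ^ m : ℝ) (1 / 2 ^ m)).indicator
      (fun s => ENNReal.ofReal (s ^ (α - 1)) * g Ω φ s) with hΦ
    have e1 : ∫⁻ s in Ioc (1 / 2 / 2 ^ m : ℝ) (1 / 2 ^ m),
        ENNReal.ofReal (s ^ (α - 1)) * g Ω φ s = ENNReal.ofReal r * ∫⁻ t, Φ (r * t) := by
      rw [lint_smul_real hr0 Φ, ← mul_assoc, ← ENNReal.ofReal_mul hr0.le,
        mul_inv_cancel₀ hr0.ne', ENNReal.ofReal_one, one_mul, hΦ,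
        lintegral_indicator measurableSet_Ioc]
    rw [e1, ← lintegral_const_mul' _ _ ENNReal.ofReal_ne_top,
      ← lintegral_const_mul' _ _ (by norm_num), ← lintegral_indicator measurableSet_Ioc]
    refine lintegral_mono fun t => ?_
    have hiff : r * t ∈ Ioc (1 / 2 / 2 ^ m : ℝ) (1 / 2 ^ m) ↔ t ∈ Ioc (1 / 2 : ℝ) 1 := by
      have ea : (1 / 2 / 2 ^ m : ℝ) = r * (1 / 2) := by rw [hr]; ring
      have eb : (1 / 2 ^ m : ℝ) = r * 1 := by rw [hr]; ring
      constructor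
      · rintro ⟨h1, h2⟩
        rw [ea] at h1
        rw [eb] at h2
        exact ⟨lt_of_mul_lt_mul_left h1 hr0.le, le_of_mul_le_mul_left h2 hr0⟩
      · rintro ⟨h1, h2⟩
        constructor
        · rw [ea]
          gcongr
        · rw [eb]
          gcongr
    by_cases ht : t ∈ Ioc (1 / 2 : ℝ) 1
    · have ht0 : 0 < t := lt_trans (by norm_num) ht.1
      rw [hΦ, indicator_of_mem ht, indicator_of_mem (hiff.2 ht)]
      have e2 : r * t = t / 2 ^ m := by rw [hr]; ring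
      rw [e2, ← mul_assoc, ← mul_assoc, ← ENNReal.ofReal_mul hr0.le]
      gcongr
      have h2 : (2 : ℝ≥0∞) = ENNReal.ofReal 2 := by simp
      rw [h2, ← ENNReal.ofReal_mul (by norm_num)]
      apply ENNReal.ofReal_le_ofReal
      have hs0 : 0 < t / 2 ^ m := by positivity
      rw [Real.rpow_sub_one hs0.ne']
      have e3 : r * ((t / 2 ^ m) ^ α / (t / 2 ^ m)) = t⁻¹ * (t / 2 ^ m) ^ α := by
        rw [hr]
        field_simp
      rw [e3]
      gcongr
      rw [inv_le_comm₀ ht0 (by norm_num)]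
      have := ht.1
      norm_num at this ⊢
      linarith
    · rw [hΦ, indicator_of_notMem (fun h => ht (hiff.1 h)), mul_zero]
      exact zero_le
  have hmeas : ∀ m : ℕ, AEMeasurable (fun t : ℝ => ENNReal.ofReal ((t / 2 ^ m) ^ α) *
      g Ω φ (t / 2 ^ m)) (volume.restrict (Ioc (1 / 2 : ℝ) 1)) := by
    intro m
    have h1 : AEMeasurable (fun t : ℝ => g Ω φ (1 / 2 ^ m * t))
        (volume.restrict (Ioc (1 / 2 : ℝ) 1)) :=
      g_aemeas' hΩ hφ hc (by positivity) measurableSet_Ioc fun t ht =>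
        lt_trans (by norm_num : (0 : ℝ) < 1 / 2) ht.1
    have h2 : (fun t : ℝ => g Ω φ (t / 2 ^ m)) = fun t : ℝ => g Ω φ (1 / 2 ^ m * t) := by
      ext t
      congr 1
      ring
    rw [← h2] at h1
    have h3 : Measurable fun t : ℝ => (t / 2 ^ m) ^ α := by fun_prop
    exact h3.ennreal_ofReal.aemeasurable.mul h1
  calc X Ω φ α ≤ ∫⁻ s in ⋃ m : ℕ, Ioc (1 / 2 / 2 ^ m : ℝ) (1 / 2 ^ m),
        ENNReal.ofReal (s ^ (α - 1)) * g Ω φ s := lintegral_mono_set hcover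
    _ ≤ ∑' m : ℕ, ∫⁻ s in Ioc (1 / 2 / 2 ^ m : ℝ) (1 / 2 ^ m),
        ENNReal.ofReal (s ^ (α - 1)) * g Ω φ s := lintegral_iUnion_le _ _
    _ ≤ ∑' m : ℕ, 2 * ∫⁻ t in Ioc (1 / 2 : ℝ) 1, ENNReal.ofReal ((t / 2 ^ m) ^ α) *
        g Ω φ (t / 2 ^ m) := ENNReal.tsum_le_tsum hscale
    _ = 2 * ∫⁻ t in Ioc (1 / 2 : ℝ) 1, ∑' m : ℕ, ENNReal.ofReal ((t / 2 ^ m) ^ α) *
        g Ω φ (t / 2 ^ m) := by
        rw [ENNReal.tsum_mul_left, lintegral_tsum hmeas]
    _ ≤ 2 * ∫⁻ _t in Ioc (1 / 2 : ℝ) 1, D := by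
        gcongr 2 * ?_
        refine setLIntegral_mono' measurableSet_Ioc fun t ht => step3 t ht.1.le ht.2
    _ < ⊤ := by
        rw [setLIntegral_const, Real.volume_Ioc]
        exact ENNReal.mul_lt_top (by norm_num)
          (ENNReal.mul_lt_top hDt.lt_top ENNReal.ofReal_lt_top)

end Pool.Agent.T9h61.DB
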