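import Pool.Agent.T9h61.DB.Nec2

set_option autoImplicit false

open MeasureTheory Complex Set Filter Topology
open scoped ENNReal NNReal ContDiff Convolution ComplexConjugate

namespace Pool.Agent.T9h61.DB

variable {Ω : Set ℂ} {φ : ℂ → ℂ}

/-- the fractional perimeter (interactions at distance less than one) -/
noncomputable def FP (α : ℝ) (Ω : Set ℂ) : ℝ≥0∞ :=
  ∫⁻ z in Ω, ∫⁻ w in Ωᶜ ∩ Metric.ball z 1, ENNReal.ofReal (‖z - w‖ ^ (α - 3))

/-- the indicator of `‖z - w‖ < s` -/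
noncomputable def nr (s : ℝ) (z w : ℂ) : ℝ≥0∞ := if ‖z - w‖ < s then 1 else 0

lemma nr_meas : Measurable (fun p : ℝ × ℂ × ℂ => nr p.1 p.2.1 p.2.2) := by
  unfold nr
  refine Measurable.ite (measurableSet_lt ?_ ?_) measurable_const measurable_const
  · fun_prop
  · fun_prop

noncomputable def II (Ω : Set ℂ) (s : ℝ) : ℝ≥0∞ := ∫⁻ z in Ω, ∫⁻ w in Ωᶜ, nr s z w

lemma II_symm (Ω : Set ℂ) (s : ℝ) : ∫⁻ z in Ωᶜ, ∫⁻ w in Ω, nr s z w = II Ω s := by
  unfold II
  rw [lintegral_lintegral_swap]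
  · refine lintegral_congr fun z => lintegral_congr fun w => ?_
    unfold nr
    rw [norm_sub_rev]
  · exact (nr_meas.comp (measurable_const.prodMk measurable_id)).aemeasurable

lemma sc_bound {L : ℝ} (hφ : ContDiff ℝ ∞ φ) (hL : ∀ y, ‖dbar φ y‖ ≤ L)
    (hsupp : ∀ y, 1 ≤ ‖y‖ → dbar φ y = 0) {s : ℝ} (hs : 0 < s) (z w : ℂ) :
    ‖dbar (sc φ s) (z - w)‖ₑ ≤ ENNReal.ofReal (L * ((s ^ 2)⁻¹ * s⁻¹)) * nr s z w := by
  rw [dbar_sc hφ]
  unfold nr
  split_ifs with h
  · rw [mul_one, ← ofReal_norm, norm_smul, Real.norm_of_nonneg (by positivity), mul_comm]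
    apply ENNReal.ofReal_le_ofReal
    gcongr
    exact hL _
  · rw [hsupp]
    · simp
    · rw [norm_smul, Real.norm_of_nonneg (by positivity)]
      rw [not_lt] at h
      rw [inv_mul_eq_div, le_div_iff₀ hs, one_mul]
      exact h

lemma int_dbar_zero {f : ℂ → ℂ} (hf : ContDiff ℝ ∞ f) (hc : HasCompactSupport f) :
    ∫ w, dbar f w = 0 := by
  have h := parts (u := fun _ => 1) hf hc contDiff_const
  simp only [mul_one] at h
  rw [h]
  have : ∀ w : ℂ, dbar (fun _ => (1 : ℂ)) w = 0 := by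
    intro w
    unfold dbar
    simp
  simp [this]

lemma G_bound {L : ℝ} (hΩ : MeasurableSet Ω) (hφ : ContDiff ℝ ∞ φ) (hc : HasCompactSupport φ)
    (hL0 : 0 ≤ L) (hL : ∀ y, ‖dbar φ y‖ ≤ L)
    (hsupp : ∀ y, 1 ≤ ‖y‖ → dbar φ y = 0) {s : ℝ} (hs : 0 < s) :
    g Ω φ s ≤ ENNReal.ofReal (L * ((s ^ 2)⁻¹ * s⁻¹)) * (2 * II Ω s) := by
  have hψ := dbar_contDiff (sc_contDiff hφ s)
  have hψc := dbar_compact (sc_compact hc hs.ne')
  have e1 : ∀ w, G Ω φ s w = ∫ z in Ω, dbar (sc φ s) (w - z) := by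
    intro w
    unfold G
    rw [cv_dbar (ch_loc hΩ) (sc_contDiff hφ s) (sc_compact hc hs.ne'), cv_ch hΩ]
  have hint : ∀ w, Integrable (fun z => dbar (sc φ s) (w - z)) := fun w =>
    (hψ.continuous.integrable_of_hasCompactSupport hψc).comp_sub_left w
  have e2 : ∀ w, G Ω φ s w = -∫ z in Ωᶜ, dbar (sc φ s) (w - z) := by
    intro w
    have h1 := integral_add_compl hΩ (hint w)
    have h2 : ∫ z, dbar (sc φ s) (w - z) = 0 := by
      rw [integral_sub_left_eq_self (fun z => dbar (sc φ s) z) volume w]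
      exact int_dbar_zero (sc_contDiff hφ s) (sc_compact hc hs.ne')
    rw [h2] at h1
    rw [e1]
    linear_combination h1
  have b1 : ∀ w, ‖G Ω φ s w‖ₑ ≤ ENNReal.ofReal (L * ((s ^ 2)⁻¹ * s⁻¹)) *
      ∫⁻ z in Ω, nr s w z := by
    intro w
    rw [e1, ← lintegral_const_mul' _ _ ENNReal.ofReal_ne_top]
    exact (enorm_integral_le_lintegral_enorm _).trans
      (lintegral_mono fun z => sc_bound hφ hL hsupp hs w z)
  have b2 : ∀ w, ‖G Ω φ s w‖ₑ ≤ ENNReal.ofReal (L * ((s ^ 2)⁻¹ * s⁻¹)) *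
      ∫⁻ z in Ωᶜ, nr s w z := by
    intro w
    rw [e2, enorm_neg, ← lintegral_const_mul' _ _ ENNReal.ofReal_ne_top]
    exact (enorm_integral_le_lintegral_enorm _).trans
      (lintegral_mono fun z => sc_bound hφ hL hsupp hs w z)
  unfold g
  rw [← lintegral_add_compl _ hΩ]
  calc (∫⁻ w in Ω, ‖G Ω φ s w‖ₑ) + (∫⁻ w in Ωᶜ, ‖G Ω φ s w‖ₑ)
      ≤ (∫⁻ w in Ω, ENNReal.ofReal (L * ((s ^ 2)⁻¹ * s⁻¹)) * ∫⁻ z in Ωᶜ, nr s w z) +
        (∫⁻ w in Ωᶜ, ENNReal.ofReal (L * ((s ^ 2)⁻¹ * s⁻¹)) * ∫⁻ z in Ω, nr s w z) :=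
        add_le_add (lintegral_mono fun w => b2 w) (lintegral_mono fun w => b1 w)
    _ = _ := by
        rw [lintegral_const_mul' _ _ ENNReal.ofReal_ne_top,
          lintegral_const_mul' _ _ ENNReal.ofReal_ne_top, II_symm]
        unfold II
        ring

lemma tail_int {α : ℝ} (hα : α < 3) {r : ℝ} (hr : 0 < r) :
    ∫⁻ s in Ioi r, ENNReal.ofReal (s ^ (α - 4)) = ENNReal.ofReal (r ^ (α - 3) / (3 - α)) := by
  have h1 := integral_Ioi_rpow_of_lt (a := α - 4) (by linarith) hr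
  rw [← ofReal_integral_eq_lintegral_ofReal (integrableOn_Ioi_rpow_of_lt (by linarith) hr)
    ((ae_restrict_iff' measurableSet_Ioi).2 (Eventually.of_forall fun s hs =>
      Real.rpow_nonneg (hr.le.trans (le_of_lt hs)) _)), h1]
  congr 1
  rw [show α - 4 + 1 = α - 3 by ring, show (α - 3) = -(3 - α) by ring, neg_div_neg_eq]

/-- the exchange of the order of integration -/
lemma exch (Ω : Set ℂ) (γ : ℝ) :
    ∫⁻ s in Ioo (0 : ℝ) 1, ENNReal.ofReal (s ^ γ) * II Ω s =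
      ∫⁻ z in Ω, ∫⁻ w in Ωᶜ, ∫⁻ s in Ioo (0 : ℝ) 1, ENNReal.ofReal (s ^ γ) * nr s z w := by
  have hpow : Measurable fun s : ℝ => ENNReal.ofReal (s ^ γ) := by fun_prop
  have hm3 : Measurable (fun p : ℝ × ℂ × ℂ => ENNReal.ofReal (p.1 ^ γ) * nr p.1 p.2.1 p.2.2) :=
    (hpow.comp measurable_fst).mul nr_meas
  have h1 : ∀ s : ℝ, ENNReal.ofReal (s ^ γ) * II Ω s =
      ∫⁻ z in Ω, ∫⁻ w in Ωᶜ, ENNReal.ofReal (s ^ γ) * nr s z w := by
    intro s
    unfold II
    rw [← lintegral_const_mul' _ _ ENNReal.ofReal_ne_top]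
    refine lintegral_congr fun z => ?_
    rw [lintegral_const_mul' _ _ ENNReal.ofReal_ne_top]
  simp_rw [h1]
  rw [lintegral_lintegral_swap]
  · refine lintegral_congr fun z => ?_
    rw [lintegral_lintegral_swap]
    have : Measurable (fun p : ℝ × ℂ => ENNReal.ofReal (p.1 ^ γ) * nr p.1 z p.2) :=
      hm3.comp (measurable_fst.prodMk (measurable_const.prodMk measurable_snd))
    exact this.aemeasurable
  · have h2 : Measurable (fun p : (ℝ × ℂ) × ℂ =>
        ENNReal.ofReal (p.1.1 ^ γ) * nr p.1.1 p.1.2 p.2) :=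
      hm3.comp ((measurable_fst.comp measurable_fst).prodMk
        ((measurable_snd.comp measurable_fst).prodMk measurable_snd))
    exact (h2.lintegral_prod_right' (ν := volume.restrict Ωᶜ)).aemeasurable

lemma FP_eq (α : ℝ) (Ω : Set ℂ) :
    FP α Ω = ∫⁻ z in Ω, ∫⁻ w in Ωᶜ, nr 1 z w * ENNReal.ofReal (‖z - w‖ ^ (α - 3)) := by
  unfold FP
  refine lintegral_congr fun z => ?_
  rw [inter_comm, ← Measure.restrict_restrict Metric.isOpen_ball.measurableSet,
    ← lintegral_indicator Metric.isOpen_ball.measurableSet]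
  refine lintegral_congr fun w => ?_
  by_cases hw : w ∈ Metric.ball z 1
  · rw [indicator_of_mem hw]
    unfold nr
    rw [Metric.mem_ball, dist_eq_norm, norm_sub_rev] at hw
    rw [if_pos hw, one_mul]
  · rw [indicator_of_notMem hw]
    unfold nr
    rw [Metric.mem_ball, dist_eq_norm, norm_sub_rev] at hw
    rw [if_neg hw, zero_mul]

/-- finite fractional perimeter implies finiteness of the integral over the scales -/
theorem X_of_FP {L : ℝ} (hΩ : MeasurableSet Ω) (hφ : ContDiff ℝ ∞ φ) (hc : HasCompactSupport φ)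
    (hL0 : 0 ≤ L) (hL : ∀ y, ‖dbar φ y‖ ≤ L)
    (hsupp : ∀ y, 1 ≤ ‖y‖ → dbar φ y = 0) {α : ℝ} (hα : α < 3) (h : FP α Ω < ⊤) :
    X Ω φ α < ⊤ := by
  have h1 : X Ω φ α ≤ ENNReal.ofReal (2 * L) *
      ∫⁻ s in Ioo (0 : ℝ) 1, ENNReal.ofReal (s ^ (α - 4)) * II Ω s := by
    unfold X
    rw [← lintegral_const_mul' _ _ ENNReal.ofReal_ne_top]
    refine setLIntegral_mono' measurableSet_Ioo fun s hs => ?_
    have hs0 : 0 < s := hs.1
    refine (mul_le_mul_right (G_bound hΩ hφ hc hL0 hL hsupp hs0) _).trans (le_of_eq ?_)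
    have h2 : (2 : ℝ≥0∞) = ENNReal.ofReal 2 := by simp
    have hA : ENNReal.ofReal (s ^ (α - 1)) * ENNReal.ofReal (L * ((s ^ 2)⁻¹ * s⁻¹)) * 2 =
        ENNReal.ofReal (2 * L) * ENNReal.ofReal (s ^ (α - 4)) := by
      rw [h2, ← ENNReal.ofReal_mul (by positivity), ← ENNReal.ofReal_mul (by positivity),
        ← ENNReal.ofReal_mul (by positivity)]
      congr 1
      have e : s ^ (α - 1) = s ^ (α - 4) * s ^ 3 := by
        rw [← Real.rpow_natCast s 3, ← Real.rpow_add hs0]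
        congr 1
        push_cast
        ring
      rw [e]
      field_simp
    calc _ = (ENNReal.ofReal (s ^ (α - 1)) * ENNReal.ofReal (L * ((s ^ 2)⁻¹ * s⁻¹)) * 2) *
          II Ω s := by ring
      _ = _ := by rw [hA]; ring
  have h2 : ∫⁻ s in Ioo (0 : ℝ) 1, ENNReal.ofReal (s ^ (α - 4)) * II Ω s ≤
      ENNReal.ofReal (1 / (3 - α)) * FP α Ω := by
    rw [exch Ω _, FP_eq α Ω, ← lintegral_const_mul' _ _ ENNReal.ofReal_ne_top]
    refine setLIntegral_mono' hΩ fun z hz => ?_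
    rw [← lintegral_const_mul' _ _ ENNReal.ofReal_ne_top]
    refine setLIntegral_mono' hΩ.compl fun w hw => ?_
    have hne : z - w ≠ 0 := by
      intro h0
      rw [sub_eq_zero] at h0
      exact hw (h0 ▸ hz)
    have hr : 0 < ‖z - w‖ := norm_pos_iff.2 hne
    by_cases hr1 : ‖z - w‖ < 1
    · calc ∫⁻ s in Ioo (0 : ℝ) 1, ENNReal.ofReal (s ^ (α - 4)) * nr s z w
          ≤ ∫⁻ s in Ioi ‖z - w‖, ENNReal.ofReal (s ^ (α - 4)) := by
            rw [← lintegral_indicator measurableSet_Ioo, ← lintegral_indicator measurableSet_Ioi]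
            refine lintegral_mono fun s => ?_
            by_cases hs : s ∈ Ioo (0 : ℝ) 1
            · rw [indicator_of_mem hs]
              unfold nr
              split_ifs with h3
              · rw [indicator_of_mem (show s ∈ Ioi ‖z - w‖ from h3), mul_one]
              · rw [mul_zero]
                exact zero_le
            · rw [indicator_of_notMem hs]
              exact zero_le
        _ = ENNReal.ofReal (‖z - w‖ ^ (α - 3) / (3 - α)) := tail_int hα hr
        _ = ENNReal.ofReal (1 / (3 - α)) * (nr 1 z w * ENNReal.ofReal (‖z - w‖ ^ (α - 3))) := by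
            have h3 : 0 < 3 - α := by linarith
            unfold nr
            rw [if_pos hr1, one_mul, ← ENNReal.ofReal_mul (by positivity)]
            congr 1
            ring
    · have h3 : ∀ s ∈ Ioo (0 : ℝ) 1, ENNReal.ofReal (s ^ (α - 4)) * nr s z w = 0 := by
        intro s hs
        unfold nr
        rw [if_neg, mul_zero]
        intro h4
        exact hr1 (h4.trans hs.2)
      rw [setLIntegral_congr_fun measurableSet_Ioo h3]
      simp
  refine lt_of_le_of_lt h1 (ENNReal.mul_lt_top ENNReal.ofReal_lt_top ?_)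
  exact lt_of_le_of_lt h2 (ENNReal.mul_lt_top ENNReal.ofReal_lt_top h)

end Pool.Agent.T9h61.DB
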