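import Pool.Agent.T9h61.DB.Tens

set_option autoImplicit false

open MeasureTheory Complex Set Filter Topology
open scoped ENNReal NNReal ContDiff Convolution ComplexConjugate

namespace Pool.Agent.T9h61.DB

variable {Ω : Set ℂ}

/-- the three kernels -/
noncomputable def k0 : ℂ → ℝ := ten p p
noncomputable def k1 : ℂ → ℝ := ten q p2
noncomputable def k2 : ℂ → ℝ := ten p q

lemma k0_contDiff : ContDiff ℝ ∞ k0 := ten_contDiff p_contDiff p_contDiff
lemma k1_contDiff : ContDiff ℝ ∞ k1 := ten_contDiff q_contDiff p2_contDiff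
lemma k2_contDiff : ContDiff ℝ ∞ k2 := ten_contDiff p_contDiff q_contDiff

lemma k0_compact : HasCompactSupport k0 :=
  ten_compact (R := 4) (fun _ h => p_zero (by linarith)) (fun _ h => p_zero (by linarith))
lemma k1_compact : HasCompactSupport k1 :=
  ten_compact (R := 4) (fun _ h => q_zero h) (fun _ h => p2_zero (by linarith))
lemma k2_compact : HasCompactSupport k2 :=
  ten_compact (R := 4) (fun _ h => p_zero (by linarith)) (fun _ h => q_zero h)

/-- the telescoping identity for the kernels -/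
lemma ker_tel {s : ℝ} (hs : 0 < s) (y : ℂ) :
    sc (rc k0) (s / 2) y - sc (rc k0) s y =
      (s : ℂ) * (fderiv ℝ (sc (rc k1) s) y 1 + fderiv ℝ (sc (rc k2) s) y I) := by
  rw [fderiv_sc (rc_contDiff k1_contDiff), fderiv_sc (rc_contDiff k2_contDiff),
    rc_fderiv k1_contDiff, rc_fderiv k2_contDiff]
  have h1 := div_id (s⁻¹ • y)
  have h2 : sc (rc k0) (s / 2) y = (((s ^ 2)⁻¹ * (4 * k0 (2 * (s⁻¹ • y))) : ℝ) : ℂ) := by
    unfold sc rc
    have e1 : (s / 2)⁻¹ • y = 2 * (s⁻¹ • y) := by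
      rw [Complex.real_smul, Complex.real_smul]
      push_cast
      field_simp
    rw [e1, Complex.real_smul]
    push_cast
    have : (s : ℂ) ≠ 0 := by exact_mod_cast hs.ne'
    field_simp
    ring
  have h3 : sc (rc k0) s y = (((s ^ 2)⁻¹ * k0 (s⁻¹ • y) : ℝ) : ℂ) := by
    unfold sc rc
    rw [Complex.real_smul]
    push_cast
    ring
  have e5 : ∀ c x : ℝ, c • (x : ℂ) = ((c * x : ℝ) : ℂ) := by
    intro c x
    rw [Complex.real_smul]
    push_cast
    rfl
  rw [h2, h3, e5, e5]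
  have hs' : s ≠ 0 := hs.ne'
  have h4 : (s ^ 2)⁻¹ * (4 * k0 (2 * (s⁻¹ • y))) - (s ^ 2)⁻¹ * k0 (s⁻¹ • y) =
      s * ((s ^ 2)⁻¹ * s⁻¹ * fderiv ℝ k1 (s⁻¹ • y) 1 +
        (s ^ 2)⁻¹ * s⁻¹ * fderiv ℝ k2 (s⁻¹ • y) I) := by
    have h5 : 4 * k0 (2 * (s⁻¹ • y)) - k0 (s⁻¹ • y) =
        fderiv ℝ k1 (s⁻¹ • y) 1 + fderiv ℝ k2 (s⁻¹ • y) I := h1
    rw [← mul_sub, h5]
    field_simp
  have h6 := congrArg (fun x : ℝ => (x : ℂ)) h4
  push_cast at h6 ⊢
  exact h6

/-- the telescoping identity for the mollified indicators -/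
lemma moll_tel (hΩ : MeasurableSet Ω) {s : ℝ} (hs : 0 < s) (z : ℂ) :
    moll Ω k0 (s / 2) z - moll Ω k0 s z =
      s * (fderiv ℝ (moll Ω k1 s) z 1 + fderiv ℝ (moll Ω k2 s) z I) := by
  have hs2 : s / 2 ≠ 0 := by positivity
  have h0 := sc_contDiff (rc_contDiff k0_contDiff) (s / 2)
  have h0' := sc_compact (rc_compact k0_compact) hs2
  have h00 := sc_contDiff (rc_contDiff k0_contDiff) s
  have h00' := sc_compact (rc_compact k0_compact) hs.ne'
  have h1 := sc_contDiff (rc_contDiff k1_contDiff) s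
  have h1' := sc_compact (rc_compact k1_compact) hs.ne'
  have h2 := sc_contDiff (rc_contDiff k2_contDiff) s
  have h2' := sc_compact (rc_compact k2_compact) hs.ne'
  have hl := ch_loc hΩ
  have e1 : ((fderiv ℝ (moll Ω k1 s) z 1 : ℝ) : ℂ) =
      cv (ch Ω) (fun y => fderiv ℝ (sc (rc k1) s) y 1) z := by
    rw [← cv_fderiv hl h1 h1', ← moll_eq' hΩ,
      rc_fderiv (moll_contDiff hΩ k1_contDiff k1_compact hs.ne')]
  have e2 : ((fderiv ℝ (moll Ω k2 s) z I : ℝ) : ℂ) =
      cv (ch Ω) (fun y => fderiv ℝ (sc (rc k2) s) y I) z := by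
    rw [← cv_fderiv hl h2 h2', ← moll_eq' hΩ,
      rc_fderiv (moll_contDiff hΩ k2_contDiff k2_compact hs.ne')]
  have key : ((moll Ω k0 (s / 2) z - moll Ω k0 s z : ℝ) : ℂ) =
      ((s * (fderiv ℝ (moll Ω k1 s) z 1 + fderiv ℝ (moll Ω k2 s) z I) : ℝ) : ℂ) := by
    push_cast
    rw [moll_eq hΩ, moll_eq hΩ, e1, e2]
    unfold cv
    rw [← integral_sub (intg hl h0.continuous h0' z) (intg hl h00.continuous h00' z),
      ← integral_add (intg hl (fd_continuous h1 1) (fd_compact h1' 1) z)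
        (intg hl (fd_continuous h2 I) (fd_compact h2' I) z), ← integral_const_mul]
    congr 1
    ext w
    rw [← mul_sub, ker_tel hs]
    ring
  exact_mod_cast key

/-- difference of consecutive scales in `L^1` -/
lemma moll_diff (hΩ : MeasurableSet Ω) {s : ℝ} (hs : 0 < s) :
    ∫⁻ z, ‖moll Ω k0 (s / 2) z - moll Ω k0 s z‖ₑ ≤
      ENNReal.ofReal (2 * s) * (g Ω (rc k1) s + g Ω (rc k2) s) := by
  have hm := (G_continuous (Ω := Ω) hΩ (rc_contDiff k1_contDiff) (rc_compact k1_compact)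
    hs.ne').enorm.measurable
  unfold g
  rw [← lintegral_add_left hm, ← lintegral_const_mul' _ _ ENNReal.ofReal_ne_top]
  refine lintegral_mono fun z => ?_
  rw [moll_tel hΩ hs, ← ofReal_norm, ← ofReal_norm, ← ofReal_norm,
    ← ENNReal.ofReal_add (norm_nonneg _) (norm_nonneg _), ← ENNReal.ofReal_mul (by positivity)]
  apply ENNReal.ofReal_le_ofReal
  rw [norm_mul, Real.norm_of_nonneg hs.le]
  have h1 := D1_le hΩ k1_contDiff k1_compact hs.ne' z
  have h2 := DI_le hΩ k2_contDiff k2_compact hs.ne' z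
  have h3 := norm_add_le (fderiv ℝ (moll Ω k1 s) z 1) (fderiv ℝ (moll Ω k2 s) z I)
  nlinarith

/-- the real indicator function -/
noncomputable def chr (Ω : Set ℂ) : ℂ → ℝ := Ω.indicator (fun _ => 1)

lemma k0_nonneg (z : ℂ) : 0 ≤ k0 z := mul_nonneg (p_nonneg _) (p_nonneg _)

lemma k0_int : ∫ z, k0 z = 1 := by
  unfold k0
  rw [ten_integral, p_int, one_mul]

lemma k0_integrable : Integrable k0 :=
  k0_contDiff.continuous.integrable_of_hasCompactSupport k0_compact

/-- scaled kernel, real version -/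
noncomputable def scr (s : ℝ) (y : ℂ) : ℝ := k0 (y / s) / s ^ 2

lemma scr_integrable {s : ℝ} (hs : 0 < s) (z : ℂ) : Integrable (fun w => scr s (z - w)) := by
  have h1 : Integrable (fun y : ℂ => k0 (s⁻¹ • y)) :=
    k0_integrable.comp_smul (inv_ne_zero hs.ne')
  have h2 : Integrable (scr s) := by
    have h3 := h1.div_const (s ^ 2)
    refine h3.congr (Eventually.of_forall fun y => ?_)
    simp only [scr]
    rw [Complex.real_smul, div_eq_inv_mul y]
    push_cast
    rfl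
  exact h2.comp_sub_left z

lemma scr_int {s : ℝ} (hs : 0 < s) (z : ℂ) : ∫ w, scr s (z - w) = 1 := by
  rw [integral_sub_left_eq_self (fun y => scr s y) volume z]
  have h1 : ∀ y : ℂ, scr s y = (s ^ 2)⁻¹ • k0 (s⁻¹ • y) := by
    intro y
    unfold scr
    rw [Complex.real_smul, div_eq_inv_mul y, div_eq_inv_mul, smul_eq_mul]
    push_cast
    rfl
  simp_rw [h1]
  rw [integral_smul, Measure.integral_comp_smul, k0_int, Complex.finrank_real_complex,
    abs_of_pos (by positivity)]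
  simp only [smul_eq_mul, mul_one]
  field_simp

lemma scr_nonneg (s : ℝ) (y : ℂ) : 0 ≤ scr s y := div_nonneg (k0_nonneg _) (by positivity)

/-- inside `Ω` the difference is the mass outside -/
lemma one_sub_moll (hΩ : MeasurableSet Ω) {s : ℝ} (hs : 0 < s) (z : ℂ) :
    1 - moll Ω k0 s z = ∫ w in Ωᶜ, scr s (z - w) := by
  have h1 := integral_add_compl hΩ (scr_integrable hs z)
  rw [scr_int hs] at h1
  have h2 : moll Ω k0 s z = ∫ w in Ω, scr s (z - w) := rfl
  rw [h2]
  linarith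

/-- the kernel is bounded below on the disc of radius two -/
lemma k0_lower : ∃ c : ℝ, 0 < c ∧ ∀ z : ℂ, ‖z‖ ≤ 2 → c ≤ k0 z := by
  obtain ⟨c, hc, h⟩ := p_pos
  refine ⟨c * c, by positivity, fun z hz => ?_⟩
  unfold k0 ten
  rw [h _ ((Complex.abs_re_le_norm z).trans hz), h _ ((Complex.abs_im_le_norm z).trans hz)]

/-- `L^1` distance of the indicator and its mollification -/
noncomputable def V (Ω : Set ℂ) (s : ℝ) : ℝ≥0∞ := ∫⁻ z, ‖chr Ω z - moll Ω k0 s z‖ₑ

lemma V_lower (hΩ : MeasurableSet Ω) {c : ℝ} (hc : ∀ z : ℂ, ‖z‖ ≤ 2 → c ≤ k0 z)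
    {s : ℝ} (hs : 0 < s) :
    ENNReal.ofReal (c / s ^ 2) * II Ω (2 * s) ≤ V Ω s := by
  unfold V II
  rw [← lintegral_const_mul' _ _ ENNReal.ofReal_ne_top]
  refine le_trans ?_ (setLIntegral_le_lintegral Ω _)
  refine setLIntegral_mono' hΩ fun z hz => ?_
  unfold chr
  rw [indicator_of_mem hz, one_sub_moll hΩ hs]
  have h0 : 0 ≤ ∫ w in Ωᶜ, scr s (z - w) := integral_nonneg fun w => scr_nonneg _ _
  rw [Real.enorm_of_nonneg h0, ofReal_integral_eq_lintegral_ofReal (scr_integrable hs z).integrableOn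
    (Eventually.of_forall fun w => scr_nonneg _ _), ← lintegral_const_mul' _ _ ENNReal.ofReal_ne_top]
  refine lintegral_mono fun w => ?_
  unfold nr
  split_ifs with h
  · rw [mul_one]
    apply ENNReal.ofReal_le_ofReal
    unfold scr
    gcongr
    apply hc
    rw [norm_div, Complex.norm_real, Real.norm_of_nonneg hs.le, div_le_iff₀ hs]
    exact h.le
  · rw [mul_zero]
    exact zero_le

end Pool.Agent.T9h61.DB
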