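import Pool.Agent.T9h61.DB.Per2

set_option autoImplicit false

open MeasureTheory Complex Set Filter Topology
open scoped ENNReal NNReal ContDiff Convolution ComplexConjugate

namespace Pool.Agent.T9h61.DB

variable {Ω : Set ℂ}

lemma chr_loc (hΩ : MeasurableSet Ω) : LocallyIntegrable (chr Ω) :=
  (locallyIntegrable_const (1 : ℝ)).indicator hΩ

lemma moll_conv (hΩ : MeasurableSet Ω) (σ : ℝ) (z : ℂ) :
    moll Ω k0 σ z = ∫ w, chr Ω w * scr σ (z - w) := by
  have h1 : moll Ω k0 σ z = ∫ w in Ω, scr σ (z - w) := rfl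
  rw [h1, ← integral_indicator hΩ]
  congr 1
  ext w
  unfold chr
  by_cases hw : w ∈ Ω
  · rw [indicator_of_mem hw, indicator_of_mem hw, one_mul]
  · rw [indicator_of_notMem hw, indicator_of_notMem hw, zero_mul]

lemma k0_supp {z : ℂ} (hz : 6 < ‖z‖) : k0 z = 0 := by
  unfold k0 ten
  have h1 := Complex.norm_le_abs_re_add_abs_im z
  by_cases h3 : 3 ≤ |z.re|
  · rw [p_zero h3, zero_mul]
  · have h4 : 3 ≤ |z.im| := by
      rw [not_le] at h3
      linarith
    rw [p_zero h4, mul_zero]

/-- almost everywhere convergence of the mollifications -/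
lemma ae_conv (hΩ : MeasurableSet Ω) :
    ∀ᵐ z : ℂ, ∀ s : ℝ, 0 < s →
      Tendsto (fun m : ℕ => moll Ω k0 (s / 2 ^ m) z) atTop (𝓝 (chr Ω z)) := by
  obtain ⟨B, hB⟩ := k0_compact.exists_bound_of_continuous k0_contDiff.continuous
  have hB0 : 0 ≤ B := (norm_nonneg _).trans (hB 0)
  have hae := IsUnifLocDoublingMeasure.ae_tendsto_average_norm_sub
    (μ := (volume : Measure ℂ)) (chr_loc hΩ) 1
  filter_upwards [hae] with z hz s hs
  have hδ : Tendsto (fun m : ℕ => 6 * (s / 2 ^ m)) atTop (𝓝[>] 0) := by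
    rw [tendsto_nhdsWithin_iff]
    refine ⟨?_, Eventually.of_forall fun m => by
      show (0 : ℝ) < 6 * (s / 2 ^ m)
      positivity⟩
    have h2 : Tendsto (fun m : ℕ => 6 * s * (1 / 2 : ℝ) ^ m) atTop (𝓝 (6 * s * 0)) :=
      (tendsto_pow_atTop_nhds_zero_of_lt_one (by norm_num) (by norm_num)).const_mul _
    rw [mul_zero] at h2
    refine h2.congr fun m => ?_
    rw [one_div_pow]
    ring
  have h1 := hz (ι := ℕ) (l := atTop) (fun _ => z) (fun m : ℕ => 6 * (s / 2 ^ m)) hδ
    (Eventually.of_forall fun m => Metric.mem_closedBall_self (by positivity))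
  -- the bound by the average
  have hbound : ∀ σ : ℝ, 0 < σ → ‖moll Ω k0 σ z - chr Ω z‖ ≤
      (B * (36 * Real.pi)) * ⨍ y in Metric.closedBall z (6 * σ), ‖chr Ω y - chr Ω z‖ := by
    intro σ hσ
    have hi1 : Integrable (fun w => chr Ω w * scr σ (z - w)) := by
      refine (scr_integrable hσ z).norm.mono'
        (((measurable_const.indicator hΩ : Measurable (chr Ω)).aestronglyMeasurable).mul
          (scr_integrable hσ z).aestronglyMeasurable) (Eventually.of_forall fun w => ?_)
      rw [norm_mul]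
      have : ‖chr Ω w‖ ≤ 1 := by
        unfold chr
        by_cases hw : w ∈ Ω
        · rw [indicator_of_mem hw]; simp
        · rw [indicator_of_notMem hw]; simp
      calc ‖chr Ω w‖ * ‖scr σ (z - w)‖ ≤ 1 * ‖scr σ (z - w)‖ := by gcongr
        _ = _ := one_mul _
    have e1 : moll Ω k0 σ z - chr Ω z = ∫ w, (chr Ω w - chr Ω z) * scr σ (z - w) := by
      simp_rw [sub_mul]
      rw [integral_sub hi1 ((scr_integrable hσ z).const_mul _), integral_const_mul, scr_int hσ,
        mul_one, moll_conv hΩ]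
    have hloc : IntegrableOn (fun y => ‖chr Ω y - chr Ω z‖) (Metric.closedBall z (6 * σ)) := by
      have h3 : LocallyIntegrable (fun y => chr Ω y - chr Ω z) :=
        (chr_loc hΩ).sub (locallyIntegrable_const _)
      exact (h3.integrableOn_isCompact (isCompact_closedBall _ _)).norm
    rw [e1]
    calc ‖∫ w, (chr Ω w - chr Ω z) * scr σ (z - w)‖
        ≤ ∫ w, (Metric.closedBall z (6 * σ)).indicator
            (fun y => (B / σ ^ 2) * ‖chr Ω y - chr Ω z‖) w := by
          refine norm_integral_le_of_norm_le ?_ (Eventually.of_forall fun w => ?_)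
          · rw [integrable_indicator_iff Metric.isClosed_closedBall.measurableSet]
            exact hloc.const_mul _
          · rw [norm_mul]
            by_cases hw : w ∈ Metric.closedBall z (6 * σ)
            · rw [indicator_of_mem hw, mul_comm]
              gcongr
              unfold scr
              rw [norm_div, Real.norm_of_nonneg (by positivity : 0 ≤ σ ^ 2)]
              gcongr
              exact hB _
            · rw [indicator_of_notMem hw]
              have h4 : scr σ (z - w) = 0 := by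
                unfold scr
                rw [k0_supp, zero_div]
                rw [Metric.mem_closedBall, dist_eq_norm, norm_sub_rev, not_le] at hw
                rw [norm_div, Complex.norm_real, Real.norm_of_nonneg hσ.le, lt_div_iff₀ hσ]
                exact hw
              rw [h4, norm_zero, mul_zero]
      _ = (B / σ ^ 2) * ∫ y in Metric.closedBall z (6 * σ), ‖chr Ω y - chr Ω z‖ := by
          rw [integral_indicator Metric.isClosed_closedBall.measurableSet, integral_const_mul]
      _ = _ := by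
          rw [setAverage_eq, smul_eq_mul, Measure.real, Complex.volume_closedBall]
          rw [ENNReal.toReal_mul, ENNReal.toReal_pow, ENNReal.toReal_ofReal (by positivity)]
          simp only [ENNReal.coe_toReal, NNReal.coe_real_pi]
          have := Real.pi_pos
          field_simp
          try ring
  have h2 : Tendsto (fun m : ℕ => (B * (36 * Real.pi)) *
      ⨍ y in Metric.closedBall z (6 * (s / 2 ^ m)), ‖chr Ω y - chr Ω z‖) atTop (𝓝 0) := by
    have := h1.const_mul (B * (36 * Real.pi))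
    rwa [mul_zero] at this
  rw [tendsto_iff_norm_sub_tendsto_zero]
  exact squeeze_zero (fun m => norm_nonneg _) (fun m => hbound _ (by positivity)) h2

lemma tele_real {q : ℕ → ℝ} {l : ℝ} (h : Tendsto q atTop (𝓝 l)) :
    ‖l - q 0‖ₑ ≤ ∑' m, ‖q (m + 1) - q m‖ₑ := by
  have h1 : ∀ M, ‖q M - q 0‖ₑ ≤ ∑ m ∈ Finset.range M, ‖q (m + 1) - q m‖ₑ := by
    intro M
    induction M with
    | zero => simp
    | succ M ih =>
      rw [Finset.sum_range_succ]
      calc ‖q (M + 1) - q 0‖ₑ = ‖(q M - q 0) + (q (M + 1) - q M)‖ₑ := by congr 1; ring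
        _ ≤ ‖q M - q 0‖ₑ + ‖q (M + 1) - q M‖ₑ := enorm_add_le _ _
        _ ≤ _ := by gcongr
  have h2 : ∀ M, ‖q M - q 0‖ₑ ≤ ∑' m, ‖q (m + 1) - q m‖ₑ := fun M =>
    (h1 M).trans (ENNReal.sum_le_tsum _)
  exact le_of_tendsto' ((h.sub_const (q 0)).enorm) h2

lemma V_upper (hΩ : MeasurableSet Ω) {s : ℝ} (hs : 0 < s) :
    V Ω s ≤ ∑' m : ℕ, ENNReal.ofReal (2 * (s / 2 ^ m)) *
      (g Ω (rc k1) (s / 2 ^ m) + g Ω (rc k2) (s / 2 ^ m)) := by
  unfold V
  have hmeas : ∀ m : ℕ, Measurable fun z => ‖moll Ω k0 (s / 2 ^ (m + 1)) z -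
      moll Ω k0 (s / 2 ^ m) z‖ₑ := by
    intro m
    have h1 := (moll_contDiff hΩ k0_contDiff k0_compact
      (show s / 2 ^ (m + 1) ≠ 0 by positivity)).continuous
    have h2 := (moll_contDiff hΩ k0_contDiff k0_compact
      (show s / 2 ^ m ≠ 0 by positivity)).continuous
    exact (h1.sub h2).enorm.measurable
  calc ∫⁻ z, ‖chr Ω z - moll Ω k0 s z‖ₑ
      ≤ ∫⁻ z, ∑' m : ℕ, ‖moll Ω k0 (s / 2 ^ (m + 1)) z - moll Ω k0 (s / 2 ^ m) z‖ₑ := by
        refine lintegral_mono_ae ?_
        filter_upwards [ae_conv hΩ] with z hz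
        have h1 := tele_real (hz s hs)
        simp only [pow_zero, div_one] at h1
        exact h1
    _ = ∑' m : ℕ, ∫⁻ z, ‖moll Ω k0 (s / 2 ^ (m + 1)) z - moll Ω k0 (s / 2 ^ m) z‖ₑ :=
        lintegral_tsum fun m => (hmeas m).aemeasurable
    _ ≤ _ := by
        refine ENNReal.tsum_le_tsum fun m => ?_
        have h1 : s / 2 ^ (m + 1) = s / 2 ^ m / 2 := by rw [pow_succ]; field_simp
        rw [h1]
        exact moll_diff hΩ (by positivity)

end Pool.Agent.T9h61.DB
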