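import Pool.Agent.T9h61.DB.Per3

set_option autoImplicit false

open MeasureTheory Complex Set Filter Topology
open scoped ENNReal NNReal ContDiff Convolution ComplexConjugate

namespace Pool.Agent.T9h61.DB

variable {Ω : Set ℂ}

/-- the integral of `V` over the scales -/
lemma V_int (hΩ : MeasurableSet Ω) {α : ℝ} (hα1 : α < 1)
    (h1 : X Ω (rc k1) α < ⊤) (h2 : X Ω (rc k2) α < ⊤) :
    ∫⁻ s in Ioo (0 : ℝ) 1, ENNReal.ofReal (s ^ (α - 2)) * V Ω s < ⊤ := by
  have hm1 := rc_contDiff k1_contDiff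
  have hm1' := rc_compact k1_compact
  have hm2 := rc_contDiff k2_contDiff
  have hm2' := rc_compact k2_compact
  set Gs : ℝ → ℝ≥0∞ := fun σ => g Ω (rc k1) σ + g Ω (rc k2) σ with hGs
  have hGm : ∀ m : ℕ, AEMeasurable (fun s : ℝ => Gs (s / 2 ^ m))
      (volume.restrict (Ioo (0 : ℝ) 1)) := by
    intro m
    have e : (fun s : ℝ => Gs (s / 2 ^ m)) = fun s : ℝ => Gs (1 / 2 ^ m * s) := by
      ext s
      congr 1
      ring
    rw [e]
    exact (g_aemeas' hΩ hm1 hm1' (by positivity) measurableSet_Ioo fun t ht => ht.1).add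
      (g_aemeas' hΩ hm2 hm2' (by positivity) measurableSet_Ioo fun t ht => ht.1)
  set ρ : ℝ := (2 : ℝ) ^ (-(1 - α)) with hρ
  have hρ0 : 0 < ρ := Real.rpow_pos_of_pos (by norm_num) _
  have hρ1 : ρ < 1 := Real.rpow_lt_one_of_one_lt_of_neg (by norm_num) (by linarith)
  have hscale : ∀ m : ℕ, ∫⁻ s in Ioo (0 : ℝ) 1, ENNReal.ofReal (s ^ (α - 2)) *
      (ENNReal.ofReal (2 * (s / 2 ^ m)) * Gs (s / 2 ^ m)) ≤
      ENNReal.ofReal (2 * ρ ^ m) * (X Ω (rc k1) α + X Ω (rc k2) α) := by
    intro m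
    set r : ℝ := 1 / 2 ^ m with hr
    have hr0 : 0 < r := by rw [hr]; positivity
    have hr1 : r ≤ 1 := by
      rw [hr, div_le_one (by positivity)]
      exact one_le_pow₀ (by norm_num)
    have hrho : ρ ^ m = r ^ (1 - α) := by
      rw [hρ, hr, ← Real.rpow_natCast, ← Real.rpow_mul (by norm_num), one_div,
        Real.inv_rpow (by positivity), ← Real.rpow_neg (by positivity),
        ← Real.rpow_natCast, ← Real.rpow_mul (by norm_num), mul_comm]
    set Φ : ℝ → ℝ≥0∞ := (Ioo (0 : ℝ) r).indicator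
      (fun σ => ENNReal.ofReal (2 * r * (σ / r) ^ (α - 1)) * Gs σ) with hΦ
    have e1 : ∀ s : ℝ, (Ioo (0 : ℝ) 1).indicator (fun s => ENNReal.ofReal (s ^ (α - 2)) *
        (ENNReal.ofReal (2 * (s / 2 ^ m)) * Gs (s / 2 ^ m))) s = Φ (r * s) := by
      intro s
      have hiff : s ∈ Ioo (0 : ℝ) 1 ↔ r * s ∈ Ioo (0 : ℝ) r := by
        constructor
        · rintro ⟨h1, h2⟩
          exact ⟨by positivity, by nlinarith⟩
        · rintro ⟨h1, h2⟩
          refine ⟨?_, ?_⟩
          · exact (mul_pos_iff_of_pos_left hr0).1 h1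
          · by_contra h3
            rw [not_lt] at h3
            nlinarith
      by_cases hs : s ∈ Ioo (0 : ℝ) 1
      · have hs0 : 0 < s := hs.1
        rw [hΦ, indicator_of_mem hs, indicator_of_mem (hiff.1 hs)]
        have e2 : s / 2 ^ m = r * s := by rw [hr]; ring
        rw [e2, ← mul_assoc, ← ENNReal.ofReal_mul (by positivity)]
        congr 2
        have e3 : r * s / r = s := by field_simp
        rw [e3, show α - 1 = (α - 2) + 1 by ring, Real.rpow_add hs0, Real.rpow_one]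
        ring
      · rw [hΦ, indicator_of_notMem hs, indicator_of_notMem (fun h => hs (hiff.2 h))]
    rw [← lintegral_indicator measurableSet_Ioo]
    simp_rw [e1]
    rw [lint_smul_real hr0 Φ, hΦ, lintegral_indicator measurableSet_Ioo,
      ← lintegral_const_mul' _ _ ENNReal.ofReal_ne_top]
    have hX : X Ω (rc k1) α + X Ω (rc k2) α =
        ∫⁻ σ in Ioo (0 : ℝ) 1, ENNReal.ofReal (σ ^ (α - 1)) * Gs σ := by
      unfold X
      rw [← lintegral_add_left']
      · refine lintegral_congr fun σ => ?_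
        rw [hGs]
        ring
      · have h3 : Measurable fun t : ℝ => ENNReal.ofReal (t ^ (α - 1)) := by fun_prop
        have h4 := g_aemeas' hΩ hm1 hm1' (r := 1) one_pos (S := Ioo (0 : ℝ) 1)
          measurableSet_Ioo fun t ht => ht.1
        simp only [one_mul] at h4
        exact h3.aemeasurable.mul h4
    rw [hX, ← lintegral_const_mul' _ _ ENNReal.ofReal_ne_top]
    refine le_trans ?_ (lintegral_mono_set (Ioo_subset_Ioo_right hr1))
    refine setLIntegral_mono' measurableSet_Ioo fun σ hσ => le_of_eq ?_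
    have hσ0 : 0 < σ := hσ.1
    rw [← mul_assoc, ← mul_assoc, ← ENNReal.ofReal_mul (by positivity),
      ← ENNReal.ofReal_mul (by positivity)]
    congr 2
    rw [hrho, Real.div_rpow hσ0.le hr0.le, show (1 - α) = -(α - 1) by ring,
      Real.rpow_neg hr0.le]
    have : r ^ (α - 1) ≠ 0 := (Real.rpow_pos_of_pos hr0 _).ne'
    field_simp
  calc ∫⁻ s in Ioo (0 : ℝ) 1, ENNReal.ofReal (s ^ (α - 2)) * V Ω s
      ≤ ∫⁻ s in Ioo (0 : ℝ) 1, ∑' m : ℕ, ENNReal.ofReal (s ^ (α - 2)) *
        (ENNReal.ofReal (2 * (s / 2 ^ m)) * Gs (s / 2 ^ m)) := by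
        refine setLIntegral_mono' measurableSet_Ioo fun s hs => ?_
        rw [ENNReal.tsum_mul_left]
        gcongr
        exact V_upper hΩ hs.1
    _ = ∑' m : ℕ, ∫⁻ s in Ioo (0 : ℝ) 1, ENNReal.ofReal (s ^ (α - 2)) *
        (ENNReal.ofReal (2 * (s / 2 ^ m)) * Gs (s / 2 ^ m)) := by
        refine lintegral_tsum fun m => ?_
        have h3 : Measurable fun s : ℝ => ENNReal.ofReal (s ^ (α - 2)) := by fun_prop
        have h4 : Measurable fun s : ℝ => ENNReal.ofReal (2 * (s / 2 ^ m)) := by fun_prop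
        exact h3.aemeasurable.mul (h4.aemeasurable.mul (hGm m))
    _ ≤ ∑' m : ℕ, ENNReal.ofReal (2 * ρ ^ m) * (X Ω (rc k1) α + X Ω (rc k2) α) :=
        ENNReal.tsum_le_tsum hscale
    _ < ⊤ := by
        rw [ENNReal.tsum_mul_right]
        refine ENNReal.mul_lt_top ?_ (ENNReal.add_lt_top.2 ⟨h1, h2⟩)
        have hs : Summable fun m : ℕ => 2 * ρ ^ m :=
          (summable_geometric_of_lt_one hρ0.le hρ1).mul_left 2
        exact hs.tsum_ofReal_lt_top

lemma exch2 (Ω : Set ℂ) (γ : ℝ) :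
    ∫⁻ s in Ioo (0 : ℝ) 1, ENNReal.ofReal (s ^ γ) * II Ω (2 * s) =
      ∫⁻ z in Ω, ∫⁻ w in Ωᶜ, ∫⁻ s in Ioo (0 : ℝ) 1, ENNReal.ofReal (s ^ γ) * nr (2 * s) z w := by
  have hpow : Measurable fun s : ℝ => ENNReal.ofReal (s ^ γ) := by fun_prop
  have hnr : Measurable (fun p : ℝ × ℂ × ℂ => nr (2 * p.1) p.2.1 p.2.2) :=
    nr_meas.comp ((measurable_fst.const_mul 2).prodMk measurable_snd)
  have hm3 : Measurable (fun p : ℝ × ℂ × ℂ =>
      ENNReal.ofReal (p.1 ^ γ) * nr (2 * p.1) p.2.1 p.2.2) :=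
    (hpow.comp measurable_fst).mul hnr
  have h1 : ∀ s : ℝ, ENNReal.ofReal (s ^ γ) * II Ω (2 * s) =
      ∫⁻ z in Ω, ∫⁻ w in Ωᶜ, ENNReal.ofReal (s ^ γ) * nr (2 * s) z w := by
    intro s
    unfold II
    rw [← lintegral_const_mul' _ _ ENNReal.ofReal_ne_top]
    refine lintegral_congr fun z => ?_
    rw [lintegral_const_mul' _ _ ENNReal.ofReal_ne_top]
  simp_rw [h1]
  rw [lintegral_lintegral_swap]
  · refine lintegral_congr fun z => ?_
    rw [lintegral_lintegral_swap]
    have : Measurable (fun p : ℝ × ℂ => ENNReal.ofReal (p.1 ^ γ) * nr (2 * p.1) z p.2) :=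
      hm3.comp (measurable_fst.prodMk (measurable_const.prodMk measurable_snd))
    exact this.aemeasurable
  · have h2 : Measurable (fun p : (ℝ × ℂ) × ℂ =>
        ENNReal.ofReal (p.1.1 ^ γ) * nr (2 * p.1.1) p.1.2 p.2) :=
      hm3.comp ((measurable_fst.comp measurable_fst).prodMk
        ((measurable_snd.comp measurable_fst).prodMk measurable_snd))
    exact (h2.lintegral_prod_right' (ν := volume.restrict Ωᶜ)).aemeasurable

/-- finiteness of the integrals over the scales implies finite fractional perimeter -/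
theorem FP_of_X (hΩ : MeasurableSet Ω) {α : ℝ} (hα1 : α < 1)
    (h1 : X Ω (rc k1) α < ⊤) (h2 : X Ω (rc k2) α < ⊤) : FP α Ω < ⊤ := by
  obtain ⟨c, hc0, hc⟩ := k0_lower
  have h3 := V_int hΩ hα1 h1 h2
  have h4 : FP α Ω ≤ 2 * ∫⁻ s in Ioo (0 : ℝ) 1, ENNReal.ofReal (s ^ (α - 4)) * II Ω (2 * s) := by
    rw [exch2, FP_eq, ← lintegral_const_mul' _ _ (by norm_num)]
    refine setLIntegral_mono' hΩ fun z hz => ?_
    rw [← lintegral_const_mul' _ _ (by norm_num)]
    refine setLIntegral_mono' hΩ.compl fun w hw => ?_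
    have hne : z - w ≠ 0 := by
      intro h0
      rw [sub_eq_zero] at h0
      exact hw (h0 ▸ hz)
    have hr : 0 < ‖z - w‖ := norm_pos_iff.2 hne
    set r := ‖z - w‖ with hrdef
    unfold nr
    rw [← hrdef]
    split_ifs with hr1
    · rw [one_mul]
      have h5 : ENNReal.ofReal (r ^ (α - 3) / 2) ≤
          ∫⁻ s in Ioo (0 : ℝ) 1, ENNReal.ofReal (s ^ (α - 4)) * (if r < 2 * s then 1 else 0) := by
        calc ENNReal.ofReal (r ^ (α - 3) / 2)
            = ∫⁻ _s in Ioo (r / 2) r, ENNReal.ofReal (r ^ (α - 4)) := by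
              rw [setLIntegral_const, Real.volume_Ioo, ← ENNReal.ofReal_mul (by positivity)]
              congr 1
              rw [show α - 3 = (α - 4) + 1 by ring, Real.rpow_add hr, Real.rpow_one]
              ring
          _ ≤ ∫⁻ s in Ioo (r / 2) r, ENNReal.ofReal (s ^ (α - 4)) *
              (if r < 2 * s then 1 else 0) := by
              refine setLIntegral_mono' measurableSet_Ioo fun s hs => ?_
              have hs0 : 0 < s := lt_trans (by positivity) hs.1
              rw [if_pos (by linarith [hs.1]), mul_one]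
              apply ENNReal.ofReal_le_ofReal
              exact Real.rpow_le_rpow_of_nonpos hs0 hs.2.le (by linarith)
          _ ≤ _ := by
              refine lintegral_mono_set (Ioo_subset_Ioo (by positivity) hr1.le)
      calc ENNReal.ofReal (r ^ (α - 3)) = 2 * ENNReal.ofReal (r ^ (α - 3) / 2) := by
            have h2 : (2 : ℝ≥0∞) = ENNReal.ofReal 2 := by simp
            rw [h2, ← ENNReal.ofReal_mul (by norm_num)]
            congr 1
            ring
        _ ≤ _ := by gcongr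
    · rw [zero_mul]
      exact zero_le
  have h5 : ∫⁻ s in Ioo (0 : ℝ) 1, ENNReal.ofReal (s ^ (α - 4)) * II Ω (2 * s) ≤
      ENNReal.ofReal (1 / c) * ∫⁻ s in Ioo (0 : ℝ) 1, ENNReal.ofReal (s ^ (α - 2)) * V Ω s := by
    rw [← lintegral_const_mul' _ _ ENNReal.ofReal_ne_top]
    refine setLIntegral_mono' measurableSet_Ioo fun s hs => ?_
    have hs0 : 0 < s := hs.1
    have h6 := V_lower hΩ hc hs0
    calc ENNReal.ofReal (s ^ (α - 4)) * II Ω (2 * s)
        = ENNReal.ofReal (1 / c) * (ENNReal.ofReal (s ^ (α - 2)) *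
          (ENNReal.ofReal (c / s ^ 2) * II Ω (2 * s))) := by
          rw [← mul_assoc, ← mul_assoc, ← ENNReal.ofReal_mul (by positivity),
            ← ENNReal.ofReal_mul (by positivity)]
          congr 2
          have e : s ^ (α - 2) = s ^ (α - 4) * s ^ 2 := by
            rw [← Real.rpow_natCast s 2, ← Real.rpow_add hs0]
            congr 1
            push_cast
            ring
          rw [e]
          field_simp
      _ ≤ _ := by gcongr
  refine lt_of_le_of_lt h4 (ENNReal.mul_lt_top (by norm_num) ?_)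
  exact lt_of_le_of_lt h5 (ENNReal.mul_lt_top ENNReal.ofReal_lt_top h3)

end Pool.Agent.T9h61.DB
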