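import Pool.Agent.T9h61.DB.Per1

set_option autoImplicit false

open MeasureTheory Complex Set Filter Topology
open scoped ENNReal NNReal ContDiff Convolution ComplexConjugate

namespace Pool.Agent.T9h61.DB

/-- the convolution of the indicator function of `Ω` with `t⁻² φ(·/t)` -/
noncomputable def moll (Ω : Set ℂ) (φ : ℂ → ℝ) (t : ℝ) (z : ℂ) : ℝ :=
  ∫ w in Ω, φ ((z - w) / t) / t ^ 2

/-- real kernel as a complex one -/
def rc (φ : ℂ → ℝ) (z : ℂ) : ℂ := (φ z : ℂ)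

variable {Ω : Set ℂ} {φ : ℂ → ℝ}

lemma rc_contDiff (hφ : ContDiff ℝ ∞ φ) : ContDiff ℝ ∞ (rc φ) :=
  Complex.ofRealCLM.contDiff.comp hφ

lemma rc_compact (hc : HasCompactSupport φ) : HasCompactSupport (rc φ) :=
  hc.comp_left (g := fun x : ℝ => (x : ℂ)) (by simp)

lemma rc_fderiv (hφ : ContDiff ℝ ∞ φ) (z v : ℂ) :
    fderiv ℝ (rc φ) z v = ((fderiv ℝ φ z v : ℝ) : ℂ) := by
  have h1 : HasFDerivAt φ (fderiv ℝ φ z) z := (hφ.differentiable (by simp) z).hasFDerivAt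
  have h2 : HasFDerivAt (rc φ) (Complex.ofRealCLM.comp (fderiv ℝ φ z)) z :=
    Complex.ofRealCLM.hasFDerivAt.comp z h1
  rw [h2.fderiv]
  rfl

lemma moll_eq (hΩ : MeasurableSet Ω) (φ : ℂ → ℝ) (s : ℝ) (z : ℂ) :
    ((moll Ω φ s z : ℝ) : ℂ) = cv (ch Ω) (sc (rc φ) s) z := by
  rw [cv_ch hΩ]
  unfold moll
  rw [← integral_complex_ofReal]
  congr 1
  ext w
  unfold sc rc
  rw [Complex.real_smul, Complex.real_smul]
  push_cast
  rw [div_eq_inv_mul, div_eq_inv_mul]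

lemma moll_eq' (hΩ : MeasurableSet Ω) (φ : ℂ → ℝ) (s : ℝ) :
    rc (moll Ω φ s) = cv (ch Ω) (sc (rc φ) s) := by
  ext z
  exact moll_eq hΩ φ s z

lemma moll_contDiff (hΩ : MeasurableSet Ω) (hφ : ContDiff ℝ ∞ φ) (hc : HasCompactSupport φ)
    {s : ℝ} (hs : s ≠ 0) : ContDiff ℝ ∞ (moll Ω φ s) := by
  have h1 : moll Ω φ s = fun z => Complex.reCLM (cv (ch Ω) (sc (rc φ) s) z) := by
    ext z
    rw [← moll_eq hΩ]
    simp
  rw [h1]
  exact Complex.reCLM.contDiff.comp (cv_contDiff (ch_loc hΩ) (sc_contDiff (rc_contDiff hφ) s)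
    (sc_compact (rc_compact hc) hs))

lemma G_real (hΩ : MeasurableSet Ω) (hφ : ContDiff ℝ ∞ φ) (hc : HasCompactSupport φ)
    {s : ℝ} (hs : s ≠ 0) (z : ℂ) :
    G Ω (rc φ) s z = (((fderiv ℝ (moll Ω φ s) z 1 : ℝ) : ℂ) +
      I * ((fderiv ℝ (moll Ω φ s) z I : ℝ) : ℂ)) / 2 := by
  unfold G
  rw [← moll_eq' hΩ]
  unfold dbar
  rw [rc_fderiv (moll_contDiff hΩ hφ hc hs), rc_fderiv (moll_contDiff hΩ hφ hc hs)]

lemma G_le (hΩ : MeasurableSet Ω) (hφ : ContDiff ℝ ∞ φ) (hc : HasCompactSupport φ)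
    {s : ℝ} (hs : s ≠ 0) (z : ℂ) : ‖G Ω (rc φ) s z‖ ≤ ‖fderiv ℝ (moll Ω φ s) z‖ := by
  rw [G_real hΩ hφ hc hs]
  set D := fderiv ℝ (moll Ω φ s) z
  have h1 : ‖D 1‖ ≤ ‖D‖ := by simpa using D.le_opNorm 1
  have h2 : ‖D I‖ ≤ ‖D‖ := by simpa using D.le_opNorm I
  rw [norm_div]
  have h3 := norm_add_le (((D 1 : ℝ) : ℂ)) (I * ((D I : ℝ) : ℂ))
  rw [norm_mul, norm_I, one_mul, Complex.norm_real, Complex.norm_real] at h3
  have h4 : ‖(2 : ℂ)‖ = 2 := by simp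
  rw [h4, div_le_iff₀ (by norm_num)]
  linarith

lemma D1_le (hΩ : MeasurableSet Ω) (hφ : ContDiff ℝ ∞ φ) (hc : HasCompactSupport φ)
    {s : ℝ} (hs : s ≠ 0) (z : ℂ) : ‖fderiv ℝ (moll Ω φ s) z 1‖ ≤ 2 * ‖G Ω (rc φ) s z‖ := by
  have h1 : (G Ω (rc φ) s z).re = fderiv ℝ (moll Ω φ s) z 1 / 2 := by
    rw [G_real hΩ hφ hc hs]
    simp
  have h2 := Complex.abs_re_le_norm (G Ω (rc φ) s z)
  rw [h1, abs_div, abs_of_pos (by norm_num : (0 : ℝ) < 2)] at h2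
  rw [Real.norm_eq_abs]
  linarith

lemma DI_le (hΩ : MeasurableSet Ω) (hφ : ContDiff ℝ ∞ φ) (hc : HasCompactSupport φ)
    {s : ℝ} (hs : s ≠ 0) (z : ℂ) : ‖fderiv ℝ (moll Ω φ s) z I‖ ≤ 2 * ‖G Ω (rc φ) s z‖ := by
  have h1 : (G Ω (rc φ) s z).im = fderiv ℝ (moll Ω φ s) z I / 2 := by
    rw [G_real hΩ hφ hc hs]
    simp
  have h2 := Complex.abs_im_le_norm (G Ω (rc φ) s z)
  rw [h1, abs_div, abs_of_pos (by norm_num : (0 : ℝ) < 2)] at h2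
  rw [Real.norm_eq_abs]
  linarith

lemma D_le (hΩ : MeasurableSet Ω) (hφ : ContDiff ℝ ∞ φ) (hc : HasCompactSupport φ)
    {s : ℝ} (hs : s ≠ 0) (z : ℂ) : ‖fderiv ℝ (moll Ω φ s) z‖ ≤ 4 * ‖G Ω (rc φ) s z‖ := by
  have h1 := D1_le hΩ hφ hc hs z
  have h2 := DI_le hΩ hφ hc hs z
  refine ContinuousLinearMap.opNorm_le_bound _ (by positivity) fun v => ?_
  have hv : v = v.re • (1 : ℂ) + v.im • I := by
    rw [Complex.real_smul, Complex.real_smul, mul_one]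
    exact (Complex.re_add_im v).symm
  conv_lhs => rw [hv, map_add, map_smul, map_smul]
  have h3 := norm_add_le (v.re • fderiv ℝ (moll Ω φ s) z 1) (v.im • fderiv ℝ (moll Ω φ s) z I)
  rw [norm_smul, norm_smul, Real.norm_eq_abs v.re, Real.norm_eq_abs v.im] at h3
  have h4 := Complex.abs_re_le_norm v
  have h5 := Complex.abs_im_le_norm v
  have h6 : |v.re| * ‖fderiv ℝ (moll Ω φ s) z 1‖ ≤ ‖v‖ * (2 * ‖G Ω (rc φ) s z‖) := by gcongr
  have h7 : |v.im| * ‖fderiv ℝ (moll Ω φ s) z I‖ ≤ ‖v‖ * (2 * ‖G Ω (rc φ) s z‖) := by gcongr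
  linarith

/-- the integral over the scales in terms of the gradient -/
noncomputable def XR (α : ℝ) (Ω : Set ℂ) (φ : ℂ → ℝ) : ℝ≥0∞ :=
  ∫⁻ t in Ioo (0 : ℝ) 1, ENNReal.ofReal (t ^ (α - 1)) * ∫⁻ z, ‖fderiv ℝ (moll Ω φ t) z‖ₑ

lemma XR_iff (hΩ : MeasurableSet Ω) (hφ : ContDiff ℝ ∞ φ) (hc : HasCompactSupport φ) (α : ℝ) :
    XR α Ω φ < ⊤ ↔ X Ω (rc φ) α < ⊤ := by
  constructor
  · intro h
    refine lt_of_le_of_lt (setLIntegral_mono' measurableSet_Ioo fun s hs => ?_) h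
    unfold g
    gcongr with z
    rw [← ofReal_norm, ← ofReal_norm]
    exact ENNReal.ofReal_le_ofReal (G_le hΩ hφ hc hs.1.ne' z)
  · intro h
    have h1 : XR α Ω φ ≤ 4 * X Ω (rc φ) α := by
      unfold XR X
      rw [← lintegral_const_mul' _ _ (by norm_num)]
      refine setLIntegral_mono' measurableSet_Ioo fun s hs => ?_
      have h2 : ∫⁻ z, ‖fderiv ℝ (moll Ω φ s) z‖ₑ ≤ 4 * g Ω (rc φ) s := by
        unfold g
        rw [← lintegral_const_mul' _ _ (by norm_num)]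
        refine lintegral_mono fun z => ?_
        have h4 : (4 : ℝ≥0∞) = ENNReal.ofReal 4 := by simp
        rw [← ofReal_norm, ← ofReal_norm, h4, ← ENNReal.ofReal_mul (by norm_num)]
        exact ENNReal.ofReal_le_ofReal (D_le hΩ hφ hc hs.1.ne' z)
      calc ENNReal.ofReal (s ^ (α - 1)) * ∫⁻ z, ‖fderiv ℝ (moll Ω φ s) z‖ₑ
          ≤ ENNReal.ofReal (s ^ (α - 1)) * (4 * g Ω (rc φ) s) := by gcongr
        _ = _ := by ring
    exact lt_of_le_of_lt h1 (ENNReal.mul_lt_top (by norm_num) h)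

end Pool.Agent.T9h61.DB
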