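import Pool.Agent.T9h61.DB.Tau

set_option autoImplicit false

open MeasureTheory Complex Set Filter Topology
open scoped ENNReal NNReal ContDiff Convolution

namespace Pool.Agent.T9h61.DB

variable {Ω : Set ℂ} {φ f : ℂ → ℂ}

/-- the coefficients -/
noncomputable def co (k j : ℕ) : ℝ := (-1) ^ (j + 1) * (k.choose j : ℝ)

noncomputable def P (φ f : ℂ → ℂ) (k : ℕ) (s : ℝ) (w : ℂ) : ℂ :=
  ∑ j ∈ Finset.Icc 1 k, co k j • Ee φ f (j * s) w

lemma co_sum {k : ℕ} (hk : 1 ≤ k) : ∑ j ∈ Finset.Icc 1 k, co k j = 1 := by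
  have h := Int.alternating_sum_range_choose_of_ne (n := k) (by omega)
  have h2 : (∑ j ∈ Finset.range (k + 1), (-1 : ℝ) ^ j * (k.choose j : ℝ)) = 0 := by
    exact_mod_cast h
  rw [Finset.range_eq_Ico, Finset.sum_eq_sum_Ico_succ_bot (by omega)] at h2
  have h3 : ∑ j ∈ Finset.Icc 1 k, co k j = -∑ j ∈ Finset.Ico 1 (k + 1),
      (-1 : ℝ) ^ j * (k.choose j : ℝ) := by
    rw [← Finset.sum_neg_distrib]
    refine Finset.sum_congr (by ext; simp [Nat.lt_succ_iff]) fun j _ => ?_
    unfold co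
    ring
  simp only [pow_zero, Nat.choose_zero_right, Nat.cast_one, mul_one, zero_add] at h2
  rw [h3]
  linarith

lemma Ee_int (hφ : Continuous φ) (hc : HasCompactSupport φ) (hf : Continuous f) (s : ℝ) (w : ℂ) :
    Integrable (fun u => φ u * f (w + s • u)) :=
  (by fun_prop : Continuous fun u => φ u * f (w + s • u)).integrable_of_hasCompactSupport
    hc.mul_right

lemma diff_formula (hφ : Continuous φ) (hc : HasCompactSupport φ) (h1 : ∫ u, φ u = 1)
    (hf : Continuous f) (k : ℕ) (s : ℝ) (w : ℂ) :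
    f w - P φ f k s w = (-1 : ℝ) ^ k • ∫ u, φ u * (fwdDiff (s • u))^[k] f w := by
  have e1 : ∫ u, φ u * (fwdDiff (s • u))^[k] f w = ∑ j ∈ Finset.range (k + 1),
      ((-1 : ℝ) ^ (k - j) * (k.choose j : ℝ)) • Ee φ f (j * s) w := by
    simp_rw [iter_sum, Finset.mul_sum]
    rw [integral_finsetSum]
    · refine Finset.sum_congr rfl fun j _ => ?_
      unfold Ee
      rw [← integral_smul]
      congr 1
      ext u
      rw [mul_smul_comm, smul_smul (j : ℝ) s u]
    · intro j _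
      have := (Ee_int hφ hc hf (j * s) w).smul ((-1 : ℝ) ^ (k - j) * (k.choose j : ℝ))
      refine this.congr (Eventually.of_forall fun u => ?_)
      simp only [Pi.smul_apply]
      rw [mul_smul_comm, smul_smul (j : ℝ) s u]
  have e0 : Ee φ f 0 w = f w := by
    unfold Ee
    simp only [zero_smul, add_zero]
    rw [integral_mul_const, h1, one_mul]
  rw [e1, Finset.range_eq_Ico, Finset.sum_eq_sum_Ico_succ_bot (by omega), smul_add,
    Finset.smul_sum]
  rw [Nat.cast_zero, zero_mul, e0, Nat.choose_zero_right, Nat.cast_one, mul_one, Nat.sub_zero,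
    smul_smul]
  rw [← pow_add, show (-1 : ℝ) ^ (k + k) = 1 by rw [← two_mul, pow_mul]; simp, one_smul,
    sub_eq_add_neg]
  congr 1
  unfold P
  rw [← Finset.sum_neg_distrib]
  refine Finset.sum_congr (by ext; simp [Nat.lt_succ_iff]) fun j hj => ?_
  rw [Finset.mem_Ico] at hj
  rw [smul_smul, ← neg_smul]
  congr 1
  unfold co
  have h2 : (-1 : ℝ) ^ k * (-1) ^ (k - j) = (-1) ^ j := by
    rw [← pow_add, show k + (k - j) = 2 * (k - j) + j by omega, pow_add, pow_mul]
    simp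
  rw [← mul_assoc, h2]
  ring

/-- the seminorm -/
noncomputable def semi (α : ℝ) (k : ℕ) (f : ℂ → ℂ) : ℝ≥0∞ :=
  ⨆ (h : ℂ) (_ : h ≠ 0) (z : ℂ), ‖(fwdDiff h)^[k] f z‖ₑ / ENNReal.ofReal (‖h‖ ^ α)

noncomputable def supn (f : ℂ → ℂ) : ℝ≥0∞ := ⨆ z : ℂ, ‖f z‖ₑ

lemma le_semi {α : ℝ} {k : ℕ} (hk : 1 ≤ k) (h z : ℂ) :
    ‖(fwdDiff h)^[k] f z‖ₑ ≤ semi α k f * ENNReal.ofReal (‖h‖ ^ α) := by
  by_cases hh : h = 0
  · subst hh
    have : (fwdDiff (0 : ℂ))^[k] f z = 0 := by
      obtain ⟨n, rfl⟩ := Nat.exists_eq_add_of_le' hk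
      rw [iter_succ, add_zero, sub_self]
    rw [this, enorm_zero]
    exact zero_le
  · have h1 : ‖(fwdDiff h)^[k] f z‖ₑ / ENNReal.ofReal (‖h‖ ^ α) ≤ semi α k f :=
      le_iSup_of_le h (le_iSup_of_le hh (le_iSup_of_le z le_rfl))
    rwa [ENNReal.div_le_iff (by
      have : 0 < ‖h‖ ^ α := Real.rpow_pos_of_pos (norm_pos_iff.2 hh) _
      simpa using this) ENNReal.ofReal_ne_top] at h1

/-- the constant -/
noncomputable def J (φ : ℂ → ℂ) (α : ℝ) : ℝ≥0∞ := ∫⁻ u, ‖φ u‖ₑ * ENNReal.ofReal (‖u‖ ^ α)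

lemma J_lt (hφ : Continuous φ) (hc : HasCompactSupport φ) {α : ℝ} (hα : 0 < α) : J φ α < ⊤ := by
  have h1 : Continuous fun u : ℂ => ‖φ u‖ * ‖u‖ ^ α :=
    hφ.norm.mul (continuous_norm.rpow_const fun _ => Or.inr hα.le)
  have h2 : Integrable fun u : ℂ => ‖φ u‖ * ‖u‖ ^ α := by
    refine h1.integrable_of_hasCompactSupport ?_
    exact hc.norm.mul_right
  have h3 := h2.hasFiniteIntegral
  unfold J
  refine lt_of_le_of_lt (lintegral_mono fun u => ?_) h3
  rw [enorm_mul, enorm_norm, Real.enorm_of_nonneg (by positivity)]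

lemma sub_P_le (hφ : Continuous φ) (hc : HasCompactSupport φ) (h1 : ∫ u, φ u = 1)
    (hf : Continuous f) {k : ℕ} (hk : 1 ≤ k) {α : ℝ} {s : ℝ} (hs : 0 ≤ s) (w : ℂ) :
    ‖f w - P φ f k s w‖ₑ ≤ semi α k f * (J φ α * ENNReal.ofReal (s ^ α)) := by
  rw [diff_formula hφ hc h1 hf, enorm_smul]
  have e1 : ‖(-1 : ℝ) ^ k‖ₑ = 1 := by simp [enorm_pow]
  rw [e1, one_mul]
  calc ‖∫ u, φ u * (fwdDiff (s • u))^[k] f w‖ₑ
      ≤ ∫⁻ u, ‖φ u * (fwdDiff (s • u))^[k] f w‖ₑ := enorm_integral_le_lintegral_enorm _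
    _ ≤ ∫⁻ u, (semi α k f * ENNReal.ofReal (s ^ α)) * (‖φ u‖ₑ * ENNReal.ofReal (‖u‖ ^ α)) := by
        refine lintegral_mono fun u => ?_
        rw [enorm_mul]
        calc ‖φ u‖ₑ * ‖(fwdDiff (s • u))^[k] f w‖ₑ
            ≤ ‖φ u‖ₑ * (semi α k f * ENNReal.ofReal (‖s • u‖ ^ α)) := by
              gcongr
              exact le_semi hk _ _
          _ = _ := by
              rw [norm_smul, Real.norm_of_nonneg hs, Real.mul_rpow hs (norm_nonneg _),
                ENNReal.ofReal_mul (by positivity)]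
              ring
    _ = (semi α k f * ENNReal.ofReal (s ^ α)) * J φ α := by
        rw [lintegral_const_mul]
        · rfl
        · have : Measurable fun u : ℂ => ‖u‖ ^ α := by fun_prop
          exact hφ.enorm.measurable.mul this.ennreal_ofReal
    _ = _ := by ring

/-- the `L^1` norm of the derivative of the mollified indicator -/
noncomputable def g (Ω : Set ℂ) (φ : ℂ → ℂ) (s : ℝ) : ℝ≥0∞ := ∫⁻ w, ‖G Ω φ s w‖ₑ

lemma pair_le {e : ℂ → ℂ} {s : ℝ} {M : ℝ≥0∞} (he : ∀ w, ‖e w‖ₑ ≤ M) (hG : Continuous (G Ω φ s)) :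
    ‖-∫ w, e w * G Ω φ s w‖ₑ ≤ M * g Ω φ s := by
  rw [enorm_neg]
  refine (enorm_integral_le_lintegral_enorm _).trans ?_
  unfold g
  rw [← lintegral_const_mul _ hG.enorm.measurable]
  refine lintegral_mono fun w => ?_
  rw [enorm_mul]
  gcongr
  exact he w

/-- the averaged pairing -/
noncomputable def Q (Ω : Set ℂ) (φ f : ℂ → ℂ) (k : ℕ) (a b : ℝ) : ℂ :=
  ∑ i ∈ Finset.Icc 1 k, ∑ j ∈ Finset.Icc 1 k, (co k i * co k j) • T Ω φ f (i * a) (j * b)

lemma Q_eq (hΩ : MeasurableSet Ω) (hφ : ContDiff ℝ ∞ φ) (hc : HasCompactSupport φ)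
    (hf : ContDiff ℝ ∞ f) (hfc : HasCompactSupport f) (k : ℕ) (a : ℝ) {b : ℝ} (hb : 0 < b) :
    Q Ω φ f k a b = ∑ j ∈ Finset.Icc 1 k, co k j •
      (-∫ w, P φ f k a w * G Ω φ (j * b) w) := by
  unfold Q
  rw [Finset.sum_comm]
  refine Finset.sum_congr rfl fun j hj => ?_
  have hj1 : (0 : ℝ) < j := by
    have := (Finset.mem_Icc.1 hj).1
    exact_mod_cast this
  have hjb : (0 : ℝ) < j * b := by positivity
  have hG := G_continuous (Ω := Ω) hΩ hφ hc hjb.ne'
  have e1 : ∫ w, P φ f k a w * G Ω φ (j * b) w =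
      ∑ i ∈ Finset.Icc 1 k, co k i • ∫ w, Ee φ f (i * a) w * G Ω φ (j * b) w := by
    unfold P
    simp_rw [Finset.sum_mul]
    rw [integral_finsetSum]
    · refine Finset.sum_congr rfl fun i _ => ?_
      rw [← integral_smul]
      congr 1
      ext w
      rw [smul_mul_assoc]
    · intro i _
      have h2 : Integrable fun w => Ee φ f (i * a) w * G Ω φ (j * b) w := by
        refine Continuous.integrable_of_hasCompactSupport (Continuous.mul ?_ hG)
          (HasCompactSupport.mul_right ?_)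
        · have h3 : Ee φ f (i * a) = fun w => ∫ u in tsupport φ, φ u * f (w + ((i:ℝ) * a) • u) := by
            ext w
            unfold Ee
            refine (setIntegral_eq_integral_of_forall_compl_eq_zero fun x hx => ?_).symm
            rw [image_eq_zero_of_notMem_tsupport hx, zero_mul]
          rw [h3]
          refine continuous_parametric_integral_of_continuous ?_ hc.isCompact
          have := hf.continuous
          have := hφ.continuous
          unfold Function.uncurry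
          fun_prop
        · refine HasCompactSupport.intro (K := (fun p : ℂ × ℂ => p.1 - ((i:ℝ) * a) • p.2) ''
            ((tsupport f) ×ˢ (tsupport φ)))
            ((hfc.isCompact.prod hc.isCompact).image (by fun_prop)) ?_
          intro w hw
          unfold Ee
          have : ∀ u, φ u * f (w + ((i:ℝ) * a) • u) = 0 := by
            intro u
            by_contra hne
            have h4 : φ u ≠ 0 := fun h => hne (by rw [h, zero_mul])
            have h5 : f (w + ((i:ℝ) * a) • u) ≠ 0 := fun h => hne (by rw [h, mul_zero])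
            exact hw ⟨(w + ((i:ℝ) * a) • u, u),
              ⟨subset_tsupport _ h5, subset_tsupport _ h4⟩, by simp⟩
          simp_rw [this]
          exact integral_zero _ _
      refine (h2.smul (co k i)).congr (Eventually.of_forall fun w => ?_)
      simp only [Pi.smul_apply, smul_mul_assoc]
  rw [e1, smul_neg, Finset.smul_sum, ← Finset.sum_neg_distrib]
  refine Finset.sum_congr rfl fun i _ => ?_
  rw [T_eq hΩ hφ hc hf hfc hjb, smul_neg, smul_smul, mul_comm (co k i)]

lemma Q_symm (hΩ : MeasurableSet Ω) (hφ : ContDiff ℝ ∞ φ) (hc : HasCompactSupport φ)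
    (hf : ContDiff ℝ ∞ f) (hfc : HasCompactSupport f) (k : ℕ) (a b : ℝ) :
    Q Ω φ f k a b = Q Ω φ f k b a := by
  unfold Q
  rw [Finset.sum_comm]
  refine Finset.sum_congr rfl fun j _ => Finset.sum_congr rfl fun i _ => ?_
  rw [T_symm hΩ hφ hc hf hfc, mul_comm (co k i)]

end Pool.Agent.T9h61.DB
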