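import Pool.Agent.T9h61.DB.Suff

set_option autoImplicit false

open MeasureTheory Complex Set Filter Topology
open scoped ENNReal NNReal ContDiff Convolution

namespace Pool.Agent.T9h61.DB

variable {Ω : Set ℂ} {φ f : ℂ → ℂ}

lemma fderiv_sc (hφ : ContDiff ℝ ∞ φ) (s : ℝ) (y v : ℂ) :
    fderiv ℝ (sc φ s) y v = ((s ^ 2)⁻¹ * s⁻¹) • fderiv ℝ φ (s⁻¹ • y) v := by
  have h1 : HasFDerivAt (fun y : ℂ => s⁻¹ • y) (s⁻¹ • ContinuousLinearMap.id ℝ ℂ) y :=
    (hasFDerivAt_id y).const_smul s⁻¹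
  have h2 : HasFDerivAt φ (fderiv ℝ φ (s⁻¹ • y)) (s⁻¹ • y) :=
    (hφ.differentiable (by simp) _).hasFDerivAt
  have h3 := (h2.comp y h1).const_smul (s ^ 2)⁻¹
  have h4 : HasFDerivAt (sc φ s) ((s ^ 2)⁻¹ • (fderiv ℝ φ (s⁻¹ • y)).comp
      (s⁻¹ • ContinuousLinearMap.id ℝ ℂ)) y := h3
  rw [h4.fderiv]
  simp [mul_smul]

lemma dbar_sc (hφ : ContDiff ℝ ∞ φ) (s : ℝ) (y : ℂ) :
    dbar (sc φ s) y = ((s ^ 2)⁻¹ * s⁻¹) • dbar φ (s⁻¹ • y) := by
  unfold dbar
  rw [fderiv_sc hφ, fderiv_sc hφ]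
  simp only [Complex.real_smul]
  ring

lemma G_formula (hΩ : MeasurableSet Ω) (hφ : ContDiff ℝ ∞ φ) (hc : HasCompactSupport φ)
    {s : ℝ} (hs : s ≠ 0) (w : ℂ) :
    G Ω φ s w = ∫ z, ch Ω z * (((s ^ 2)⁻¹ * s⁻¹) • dbar φ (s⁻¹ • (w - z))) := by
  unfold G
  rw [cv_dbar (ch_loc hΩ) (sc_contDiff hφ s) (sc_compact hc hs)]
  unfold cv
  congr 1
  ext z
  rw [dbar_sc hφ]

lemma g_measurable (hΩ : MeasurableSet Ω) (hφ : ContDiff ℝ ∞ φ) (hc : HasCompactSupport φ) :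
    Measurable (fun s : ℝ => if s = 0 then 0 else g Ω φ s) := by
  have h1 : StronglyMeasurable (fun p : (ℝ × ℂ) × ℂ =>
      ch Ω p.2 * (((p.1.1 ^ 2)⁻¹ * p.1.1⁻¹) • dbar φ (p.1.1⁻¹ • (p.1.2 - p.2)))) := by
    apply Measurable.stronglyMeasurable
    have hch : Measurable (ch Ω) := measurable_const.indicator hΩ
    have hd : Measurable (dbar φ) := (dbar_contDiff hφ).continuous.measurable
    have e1 : Measurable fun p : (ℝ × ℂ) × ℂ => p.1.1 := by fun_prop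
    have e2 : Measurable fun p : (ℝ × ℂ) × ℂ => p.1.1⁻¹ := e1.inv
    have e3 : Measurable fun p : (ℝ × ℂ) × ℂ => p.1.1⁻¹ • (p.1.2 - p.2) :=
      e2.smul (by fun_prop)
    have e4 : Measurable fun p : (ℝ × ℂ) × ℂ => (p.1.1 ^ 2)⁻¹ * p.1.1⁻¹ :=
      (e1.pow_const 2).inv.mul e2
    exact (hch.comp measurable_snd).mul (e4.smul (hd.comp e3))
  have h2 := h1.integral_prod_right' (ν := (volume : Measure ℂ))
  have h3 : Measurable (fun s : ℝ => ∫⁻ w, ‖∫ z, ch Ω z *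
      (((s ^ 2)⁻¹ * s⁻¹) • dbar φ (s⁻¹ • (w - z)))‖ₑ) :=
    (h2.enorm).lintegral_prod_right'
  have h4 : (fun s : ℝ => if s = 0 then 0 else g Ω φ s) = fun s : ℝ => if s = 0 then 0 else
      ∫⁻ w, ‖∫ z, ch Ω z * (((s ^ 2)⁻¹ * s⁻¹) • dbar φ (s⁻¹ • (w - z)))‖ₑ := by
    ext s
    by_cases hs : s = 0
    · rw [if_pos hs, if_pos hs]
    · rw [if_neg hs, if_neg hs]
      unfold g
      simp_rw [G_formula hΩ hφ hc hs]
  rw [h4]
  exact Measurable.ite (measurableSet_singleton 0) measurable_const h3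

/-- measurability of the scaled function on a positive interval -/
lemma g_aemeas (hΩ : MeasurableSet Ω) (hφ : ContDiff ℝ ∞ φ) (hc : HasCompactSupport φ)
    {r : ℝ} (hr : 0 < r) {a b : ℝ} (ha : 0 ≤ a) :
    AEMeasurable (fun t : ℝ => g Ω φ (r * t)) (volume.restrict (Ioo a b)) := by
  have h1 : Measurable (fun t : ℝ => if r * t = 0 then 0 else g Ω φ (r * t)) :=
    (g_measurable hΩ hφ hc).comp (measurable_const_mul r)
  refine h1.aemeasurable.congr ?_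
  refine (ae_restrict_iff' measurableSet_Ioo).2 (Eventually.of_forall fun t ht => ?_)
  have : 0 < t := lt_of_le_of_lt ha ht.1
  have h2 : r * t ≠ 0 := by positivity
  simp only [h2, if_false]

lemma P_continuous (hφ : ContDiff ℝ ∞ φ) (hc : HasCompactSupport φ)
    (hf : ContDiff ℝ ∞ f) (k : ℕ) (a : ℝ) : Continuous (P φ f k a) := by
  have hP : P φ f k a = fun w => ∑ j ∈ Finset.Icc 1 k, co k j • Ee φ f (j * a) w := rfl
  rw [hP]
  refine continuous_finsetSum (Finset.Icc 1 k) fun i _ => ?_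
  refine Continuous.const_smul (g := Ee φ f (i * a)) ?_ (co k i)
  have h3 : Ee φ f (i * a) = fun w => ∫ u in tsupport φ, φ u * f (w + ((i:ℝ) * a) • u) := by
    ext w
    unfold Ee
    refine (setIntegral_eq_integral_of_forall_compl_eq_zero fun x hx => ?_).symm
    rw [image_eq_zero_of_notMem_tsupport hx, zero_mul]
  change Continuous (Ee φ f (i * a))
  rw [h3]
  refine continuous_parametric_integral_of_continuous ?_ hc.isCompact
  have := hf.continuous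
  have := hφ.continuous
  unfold Function.uncurry
  fun_prop

lemma P_compact (hc : HasCompactSupport φ) (hfc : HasCompactSupport f) (k : ℕ) (a : ℝ) :
    HasCompactSupport (P φ f k a) := by
  have hE : ∀ i : ℕ, HasCompactSupport (Ee φ f (i * a)) := by
    intro i
    refine HasCompactSupport.intro (K := (fun p : ℂ × ℂ => p.1 - ((i:ℝ) * a) • p.2) ''
        ((tsupport f) ×ˢ (tsupport φ)))
        ((hfc.isCompact.prod hc.isCompact).image (by fun_prop)) ?_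
    intro w hw
    unfold Ee
    have : ∀ u, φ u * f (w + ((i:ℝ) * a) • u) = 0 := by
      intro u
      by_contra hne
      have h4 : φ u ≠ 0 := fun h => hne (by rw [h, zero_mul])
      have h5 : f (w + ((i:ℝ) * a) • u) ≠ 0 := fun h => hne (by rw [h, mul_zero])
      exact hw ⟨(w + ((i:ℝ) * a) • u, u),
        ⟨subset_tsupport _ h5, subset_tsupport _ h4⟩, by simp⟩
    simp_rw [this]
    exact integral_zero _ _
  have h1 : IsCompact (⋃ i ∈ Finset.Icc 1 k, tsupport (Ee φ f ((i : ℕ) * a))) :=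
    (Finset.Icc 1 k).isCompact_biUnion fun i _ => (hE i).isCompact
  refine HasCompactSupport.intro h1 fun w hw => ?_
  unfold P
  refine Finset.sum_eq_zero fun i hi => ?_
  have : w ∉ tsupport (Ee φ f ((i : ℕ) * a)) := fun h => hw (mem_biUnion hi h)
  rw [image_eq_zero_of_notMem_tsupport this, smul_zero]

lemma Qdiff_le (hΩ : MeasurableSet Ω) (hφ : ContDiff ℝ ∞ φ) (hc : HasCompactSupport φ)
    (hf : ContDiff ℝ ∞ f) (hfc : HasCompactSupport f) (k : ℕ) (a a' : ℝ) {b : ℝ} (hb : 0 < b)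
    {M : ℝ≥0∞} (hM : ∀ w, ‖P φ f k a' w - P φ f k a w‖ₑ ≤ M) :
    ‖Q Ω φ f k a' b - Q Ω φ f k a b‖ₑ ≤
      ∑ j ∈ Finset.Icc 1 k, ‖co k j‖ₑ * (M * g Ω φ (j * b)) := by
  rw [Q_eq hΩ hφ hc hf hfc k a' hb, Q_eq hΩ hφ hc hf hfc k a hb, ← Finset.sum_sub_distrib]
  refine (enorm_sum_le _ _).trans (Finset.sum_le_sum fun j hj => ?_)
  have hj1 : (0 : ℝ) < j := by
    have := (Finset.mem_Icc.1 hj).1
    exact_mod_cast this
  have hjb : (0 : ℝ) < j * b := by positivity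
  have hG := G_continuous (Ω := Ω) hΩ hφ hc hjb.ne'
  have hi : ∀ c, Integrable fun w => P φ f k c w * G Ω φ (j * b) w := fun c =>
    ((P_continuous hφ hc hf k c).mul hG).integrable_of_hasCompactSupport
      (P_compact hc hfc k c).mul_right
  rw [← smul_sub, enorm_smul]
  gcongr
  have e : (-∫ w, P φ f k a' w * G Ω φ (j * b) w) - (-∫ w, P φ f k a w * G Ω φ (j * b) w) =
      -∫ w, (P φ f k a' w - P φ f k a w) * G Ω φ (j * b) w := by
    simp_rw [sub_mul]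
    rw [integral_sub (hi a') (hi a)]
    ring
  rw [e]
  exact pair_le hM hG

lemma Q_le (hΩ : MeasurableSet Ω) (hφ : ContDiff ℝ ∞ φ) (hc : HasCompactSupport φ)
    (hf : ContDiff ℝ ∞ f) (hfc : HasCompactSupport f) (k : ℕ) (a : ℝ) {b : ℝ} (hb : 0 < b)
    {M : ℝ≥0∞} (hM : ∀ w, ‖P φ f k a w‖ₑ ≤ M) :
    ‖Q Ω φ f k a b‖ₑ ≤ ∑ j ∈ Finset.Icc 1 k, ‖co k j‖ₑ * (M * g Ω φ (j * b)) := by
  rw [Q_eq hΩ hφ hc hf hfc k a hb]
  refine (enorm_sum_le _ _).trans (Finset.sum_le_sum fun j hj => ?_)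
  have hj1 : (0 : ℝ) < j := by
    have := (Finset.mem_Icc.1 hj).1
    exact_mod_cast this
  have hjb : (0 : ℝ) < j * b := by positivity
  have hG := G_continuous (Ω := Ω) hΩ hφ hc hjb.ne'
  rw [enorm_smul]
  gcongr
  exact pair_le hM hG

end Pool.Agent.T9h61.DB
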