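import Pool.Agent.T9h61.DB.Suff2

set_option autoImplicit false

open MeasureTheory Complex Set Filter Topology
open scoped ENNReal NNReal ContDiff Convolution

namespace Pool.Agent.T9h61.DB

variable {Ω : Set ℂ} {φ f : ℂ → ℂ}

/-- the sum over the scales -/
noncomputable def W (Ω : Set ℂ) (φ : ℂ → ℂ) (α : ℝ) (k : ℕ) (t : ℝ) : ℝ≥0∞ :=
  ∑' m : ℕ, ∑ j ∈ Finset.Icc 1 k, ENNReal.ofReal ((t / 2 ^ m) ^ α) * g Ω φ (j * (t / 2 ^ m))

lemma tele {q : ℕ → ℂ} {l : ℂ} (h : Tendsto q atTop (𝓝 l)) :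
    ‖l‖ₑ ≤ ‖q 0‖ₑ + ∑' m, ‖q (m + 1) - q m‖ₑ := by
  have h1 : ∀ M, ‖q M‖ₑ ≤ ‖q 0‖ₑ + ∑ m ∈ Finset.range M, ‖q (m + 1) - q m‖ₑ := by
    intro M
    induction M with
    | zero => simp
    | succ M ih =>
      rw [Finset.sum_range_succ, ← add_assoc]
      calc ‖q (M + 1)‖ₑ = ‖q M + (q (M + 1) - q M)‖ₑ := by congr 1; ring
        _ ≤ ‖q M‖ₑ + ‖q (M + 1) - q M‖ₑ := enorm_add_le _ _
        _ ≤ _ := by gcongr
  have h2 : ∀ M, ‖q M‖ₑ ≤ ‖q 0‖ₑ + ∑' m, ‖q (m + 1) - q m‖ₑ := fun M =>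
    (h1 M).trans (by gcongr; exact ENNReal.sum_le_tsum _)
  exact le_of_tendsto' (h.enorm) h2

lemma tau_le (hΩ : MeasurableSet Ω) (hφ : ContDiff ℝ ∞ φ) (hc : HasCompactSupport φ)
    (h1 : ∫ u, φ u = 1) {α : ℝ} (hα : 0 < α) {k : ℕ} (hk : 1 ≤ k) :
    ∃ C : ℝ≥0∞, C ≠ ⊤ ∧ ∀ f : ℂ → ℂ, ContDiff ℝ ∞ f → HasCompactSupport f →
      ∀ t : ℝ, 1 / (2 * k) < t → t ≤ 1 →
      ‖tau Ω f 0‖ₑ ≤ C * (supn f + semi α k f) * W Ω φ α k t := by
  have hJ := J_lt hφ.continuous hc hα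
  set K : ℝ≥0∞ := ∑ j ∈ Finset.Icc 1 k, ‖co k j‖ₑ with hK
  have hKt : K ≠ ⊤ := by
    rw [hK]
    exact ENNReal.sum_ne_top.2 fun j _ => enorm_ne_top
  have hKj : ∀ j ∈ Finset.Icc 1 k, ‖co k j‖ₑ ≤ K := fun j hj =>
    Finset.single_le_sum (f := fun j => ‖co k j‖ₑ) (fun _ _ => zero_le) hj
  have hk0 : (0 : ℝ) < k := by exact_mod_cast hk
  refine ⟨K * (1 + 2 * J φ α) * (ENNReal.ofReal ((2 * k) ^ α) + 1 + ENNReal.ofReal (2 ^ α)), ?_,
    fun f hf hfc t ht1 ht2 => ?_⟩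
  · refine ENNReal.mul_ne_top (ENNReal.mul_ne_top hKt ?_) ?_
    · exact ENNReal.add_ne_top.2 ⟨ENNReal.one_ne_top, ENNReal.mul_ne_top (by norm_num) hJ.ne⟩
    · exact ENNReal.add_ne_top.2 ⟨ENNReal.add_ne_top.2 ⟨ENNReal.ofReal_ne_top,
        ENNReal.one_ne_top⟩, ENNReal.ofReal_ne_top⟩
  have ht0 : 0 < t := lt_trans (by positivity) ht1
  set N := supn f + semi α k f with hN
  set s : ℕ → ℝ := fun m => t / 2 ^ m with hs
  have hs0 : ∀ m, 0 < s m := fun m => by rw [hs]; positivity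
  have hs1 : ∀ m, s (m + 1) = s m / 2 := fun m => by rw [hs]; simp only [pow_succ]; field_simp
  have hslim : Tendsto s atTop (𝓝 0) := by
    have h2 : Tendsto (fun m : ℕ => t * (1 / 2 : ℝ) ^ m) atTop (𝓝 (t * 0)) :=
      (tendsto_pow_atTop_nhds_zero_of_lt_one (by norm_num) (by norm_num)).const_mul t
    rw [mul_zero] at h2
    refine h2.congr fun m => ?_
    rw [hs]
    simp only [one_div, inv_pow]
    rw [div_eq_mul_inv]
  -- the limit
  have hlim : Tendsto (fun m => Q Ω φ f k (s m) (s m)) atTop (𝓝 (tau Ω f 0)) := by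
    have h2 : Tendsto (fun m => Q Ω φ f k (s m) (s m)) atTop
        (𝓝 (∑ i ∈ Finset.Icc 1 k, ∑ j ∈ Finset.Icc 1 k, (co k i * co k j) •
          ((∫ u, φ u) * ((∫ u, φ u) * tau Ω f 0)))) := by
      unfold Q
      refine tendsto_finsetSum _ fun i _ => tendsto_finsetSum _ fun j _ => ?_
      refine Tendsto.const_smul (T_lim hΩ hφ hc hf hfc ?_ ?_) _
      · simpa using hslim.const_mul (i : ℝ)
      · simpa using hslim.const_mul (j : ℝ)
    have h3 : ∑ i ∈ Finset.Icc 1 k, ∑ j ∈ Finset.Icc 1 k, (co k i * co k j) •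
          ((∫ u, φ u) * ((∫ u, φ u) * tau Ω f 0)) = tau Ω f 0 := by
      simp_rw [h1, one_mul, ← Finset.sum_smul, ← Finset.mul_sum, co_sum hk, mul_one, co_sum hk,
        one_smul]
    rwa [h3] at h2
  have htele := tele hlim
  -- bounds for `P`
  have hPs : ∀ r, 0 ≤ r → ∀ w, ‖f w - P φ f k r w‖ₑ ≤ semi α k f * (J φ α * ENNReal.ofReal (r ^ α)) :=
    fun r hr w => sub_P_le hφ.continuous hc h1 hf.continuous hk hr w
  have hP0 : ∀ w, ‖P φ f k (s 0) w‖ₑ ≤ N * (1 + 2 * J φ α) := by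
    intro w
    have e : P φ f k (s 0) w = f w - (f w - P φ f k (s 0) w) := by ring
    have ha : ‖f w‖ₑ ≤ N := (le_iSup (fun z => ‖f z‖ₑ) w).trans le_self_add
    have hb := hPs (s 0) (hs0 0).le w
    have hc1 : ENNReal.ofReal (s 0 ^ α) ≤ 1 := by
      rw [← ENNReal.ofReal_one]
      apply ENNReal.ofReal_le_ofReal
      apply Real.rpow_le_one (hs0 0).le _ hα.le
      simp [hs, ht2]
    calc ‖P φ f k (s 0) w‖ₑ ≤ ‖f w‖ₑ + ‖f w - P φ f k (s 0) w‖ₑ := by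
          conv_lhs => rw [e]
          exact enorm_sub_le
      _ ≤ N + N * (J φ α * 1) := by
          gcongr
          refine hb.trans ?_
          gcongr
          exact le_add_self
      _ = N * (1 + J φ α) := by ring
      _ ≤ N * (1 + 2 * J φ α) := by
          gcongr
          exact le_mul_of_one_le_left' (by norm_num)
  have hPd : ∀ m w, ‖P φ f k (s (m + 1)) w - P φ f k (s m) w‖ₑ ≤
      N * (2 * J φ α) * ENNReal.ofReal (s m ^ α) := by
    intro m w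
    have e : P φ f k (s (m + 1)) w - P φ f k (s m) w =
        (f w - P φ f k (s m) w) - (f w - P φ f k (s (m + 1)) w) := by ring
    have hmono : ENNReal.ofReal (s (m + 1) ^ α) ≤ ENNReal.ofReal (s m ^ α) := by
      apply ENNReal.ofReal_le_ofReal
      apply Real.rpow_le_rpow (hs0 _).le _ hα.le
      rw [hs1]
      linarith [hs0 m]
    rw [e]
    calc _ ≤ ‖f w - P φ f k (s m) w‖ₑ + ‖f w - P φ f k (s (m + 1)) w‖ₑ := enorm_sub_le
      _ ≤ N * (J φ α * ENNReal.ofReal (s m ^ α)) + N * (J φ α * ENNReal.ofReal (s m ^ α)) := by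
          refine add_le_add ((hPs _ (hs0 m).le w).trans ?_)
            ((hPs _ (hs0 (m + 1)).le w).trans ?_)
          · gcongr
            exact le_add_self
          · gcongr
            exact le_add_self
      _ = _ := by ring
  -- first term
  have hfirst : ‖Q Ω φ f k (s 0) (s 0)‖ₑ ≤ K * (N * (1 + 2 * J φ α)) *
      (ENNReal.ofReal ((2 * k) ^ α) * W Ω φ α k t) := by
    refine (Q_le hΩ hφ hc hf hfc k (s 0) (hs0 0) hP0).trans ?_
    have h2 : ∑ j ∈ Finset.Icc 1 k, g Ω φ (j * s 0) ≤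
        ENNReal.ofReal ((2 * k) ^ α) * W Ω φ α k t := by
      have h3 : ∑ j ∈ Finset.Icc 1 k, ENNReal.ofReal ((t / 2 ^ 0) ^ α) *
          g Ω φ (j * (t / 2 ^ 0)) ≤ W Ω φ α k t :=
        ENNReal.le_tsum (f := fun m : ℕ => ∑ j ∈ Finset.Icc 1 k,
          ENNReal.ofReal ((t / 2 ^ m) ^ α) * g Ω φ (j * (t / 2 ^ m))) 0
      calc ∑ j ∈ Finset.Icc 1 k, g Ω φ (j * s 0)
          ≤ ENNReal.ofReal ((2 * k) ^ α) * ∑ j ∈ Finset.Icc 1 k,
            ENNReal.ofReal ((t / 2 ^ 0) ^ α) * g Ω φ (j * (t / 2 ^ 0)) := by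
            rw [Finset.mul_sum]
            refine Finset.sum_le_sum fun j _ => ?_
            rw [← mul_assoc, ← ENNReal.ofReal_mul (by positivity),
              ← Real.mul_rpow (by positivity) (by positivity)]
            have h4 : 1 ≤ ENNReal.ofReal ((2 * k * (t / 2 ^ 0)) ^ α) := by
              rw [← ENNReal.ofReal_one]
              apply ENNReal.ofReal_le_ofReal
              apply Real.one_le_rpow _ hα.le
              rw [div_lt_iff₀ (by positivity)] at ht1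
              rw [pow_zero, div_one]
              nlinarith
            exact le_mul_of_one_le_left' h4
        _ ≤ _ := by gcongr
    calc ∑ j ∈ Finset.Icc 1 k, ‖co k j‖ₑ * (N * (1 + 2 * J φ α) * g Ω φ (j * s 0))
        ≤ ∑ j ∈ Finset.Icc 1 k, K * (N * (1 + 2 * J φ α)) * g Ω φ (j * s 0) := by
          refine Finset.sum_le_sum fun j hj => ?_
          rw [mul_assoc K]
          gcongr
          exact hKj j hj
      _ = K * (N * (1 + 2 * J φ α)) * ∑ j ∈ Finset.Icc 1 k, g Ω φ (j * s 0) := by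
          rw [Finset.mul_sum]
      _ ≤ _ := by gcongr
  -- the differences
  have hdiff : ∀ m, ‖Q Ω φ f k (s (m + 1)) (s (m + 1)) - Q Ω φ f k (s m) (s m)‖ₑ ≤
      K * (N * (1 + 2 * J φ α)) * ((∑ j ∈ Finset.Icc 1 k, ENNReal.ofReal (s m ^ α) *
        g Ω φ (j * s m)) + ENNReal.ofReal (2 ^ α) * ∑ j ∈ Finset.Icc 1 k,
        ENNReal.ofReal (s (m + 1) ^ α) * g Ω φ (j * s (m + 1))) := by
    intro m
    have e : Q Ω φ f k (s (m + 1)) (s (m + 1)) - Q Ω φ f k (s m) (s m) =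
        (Q Ω φ f k (s (m + 1)) (s (m + 1)) - Q Ω φ f k (s m) (s (m + 1))) +
        (Q Ω φ f k (s (m + 1)) (s m) - Q Ω φ f k (s m) (s m)) := by
      rw [Q_symm hΩ hφ hc hf hfc k (s m) (s (m + 1))]
      ring
    rw [e]
    have hcommon : ∀ b : ℝ, 0 < b → ‖Q Ω φ f k (s (m + 1)) b - Q Ω φ f k (s m) b‖ₑ ≤
        K * (N * (1 + 2 * J φ α)) * ∑ j ∈ Finset.Icc 1 k, ENNReal.ofReal (s m ^ α) *
          g Ω φ (j * b) := by
      intro b hb
      refine (Qdiff_le hΩ hφ hc hf hfc k (s m) (s (m + 1)) hb (hPd m)).trans ?_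
      rw [Finset.mul_sum]
      refine Finset.sum_le_sum fun j hj => ?_
      calc ‖co k j‖ₑ * (N * (2 * J φ α) * ENNReal.ofReal (s m ^ α) * g Ω φ (j * b))
          ≤ K * (N * (1 + 2 * J φ α) * ENNReal.ofReal (s m ^ α) * g Ω φ (j * b)) := by
            gcongr
            · exact hKj j hj
            · exact le_add_self
        _ = _ := by ring
    refine (enorm_add_le _ _).trans ?_
    rw [mul_add, add_comm]
    refine add_le_add (hcommon _ (hs0 m)) ((hcommon _ (hs0 (m + 1))).trans ?_)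
    gcongr
    rw [Finset.mul_sum]
    refine Finset.sum_le_sum fun j _ => ?_
    rw [← mul_assoc, ← ENNReal.ofReal_mul (by positivity),
      ← Real.mul_rpow (by norm_num) (hs0 _).le, hs1]
    apply le_of_eq
    congr 3
    ring
  calc ‖tau Ω f 0‖ₑ ≤ ‖Q Ω φ f k (s 0) (s 0)‖ₑ +
        ∑' m, ‖Q Ω φ f k (s (m + 1)) (s (m + 1)) - Q Ω φ f k (s m) (s m)‖ₑ := htele
    _ ≤ K * (N * (1 + 2 * J φ α)) * (ENNReal.ofReal ((2 * k) ^ α) * W Ω φ α k t) +
        ∑' m, K * (N * (1 + 2 * J φ α)) * ((∑ j ∈ Finset.Icc 1 k, ENNReal.ofReal (s m ^ α) *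
        g Ω φ (j * s m)) + ENNReal.ofReal (2 ^ α) * ∑ j ∈ Finset.Icc 1 k,
        ENNReal.ofReal (s (m + 1) ^ α) * g Ω φ (j * s (m + 1))) :=
        add_le_add hfirst (ENNReal.tsum_le_tsum hdiff)
    _ ≤ K * (N * (1 + 2 * J φ α)) * (ENNReal.ofReal ((2 * k) ^ α) * W Ω φ α k t) +
        K * (N * (1 + 2 * J φ α)) * (W Ω φ α k t + ENNReal.ofReal (2 ^ α) * W Ω φ α k t) := by
        rw [ENNReal.tsum_mul_left, ENNReal.tsum_add, ENNReal.tsum_mul_left]
        gcongr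
        · exact le_rfl
        · exact ENNReal.tsum_comp_le_tsum_of_injective (add_left_injective 1)
            (fun m : ℕ => ∑ j ∈ Finset.Icc 1 k, ENNReal.ofReal ((t / 2 ^ m) ^ α) *
              g Ω φ (j * (t / 2 ^ m)))
    _ = _ := by ring

end Pool.Agent.T9h61.DB
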