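import Pool.Agent.T9h61.DB.Suff3

set_option autoImplicit false

open MeasureTheory Complex Set Filter Topology
open scoped ENNReal NNReal ContDiff Convolution

namespace Pool.Agent.T9h61.DB

variable {Ω : Set ℂ} {φ f : ℂ → ℂ}

/-- the integral over the scales -/
noncomputable def X (Ω : Set ℂ) (φ : ℂ → ℂ) (α : ℝ) : ℝ≥0∞ :=
  ∫⁻ s in Ioo (0 : ℝ) 1, ENNReal.ofReal (s ^ (α - 1)) * g Ω φ s

lemma one_scale (Ω : Set ℂ) (φ : ℂ → ℂ) {α : ℝ} (hα : 0 < α) {k j m : ℕ} (hk : 1 ≤ k)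
    (hj : 1 ≤ j) :
    ∫⁻ t in Ioo (1 / (2 * k) : ℝ) (1 / k), ENNReal.ofReal ((t / 2 ^ m) ^ α) *
      g Ω φ (j * (t / 2 ^ m)) ≤
    ∫⁻ s in Ioo ((j : ℝ) / 2 ^ m / (2 * k)) ((j : ℝ) / 2 ^ m / k),
      ENNReal.ofReal (s ^ (α - 1)) * g Ω φ s := by
  have hk0 : (0 : ℝ) < k := by exact_mod_cast hk
  have hj0 : (0 : ℝ) < j := by exact_mod_cast hj
  have hj1 : (1 : ℝ) ≤ j := by exact_mod_cast hj
  have hk1 : (1 : ℝ) ≤ k := by exact_mod_cast hk
  set r : ℝ := (j : ℝ) / 2 ^ m with hr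
  have hr0 : 0 < r := by rw [hr]; positivity
  set Φ : ℝ → ℝ≥0∞ := (Ioo (r / (2 * k)) (r / k)).indicator
    (fun s => ENNReal.ofReal ((s / j) ^ α) * g Ω φ s) with hΦ
  have h1 : ∀ t : ℝ, (Ioo (1 / (2 * k) : ℝ) (1 / k)).indicator
      (fun t => ENNReal.ofReal ((t / 2 ^ m) ^ α) * g Ω φ (j * (t / 2 ^ m))) t = Φ (r * t) := by
    intro t
    have hiff : t ∈ Ioo (1 / (2 * k) : ℝ) (1 / k) ↔ r * t ∈ Ioo (r / (2 * k)) (r / k) := by
      constructor
      · rintro ⟨h1, h2⟩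
        constructor
        · calc r / (2 * k) = r * (1 / (2 * k)) := by ring
            _ < r * t := by gcongr
        · calc r * t < r * (1 / k) := by gcongr
            _ = r / k := by ring
      · rintro ⟨h1, h2⟩
        constructor
        · have : r * (1 / (2 * k)) < r * t := by
            calc r * (1 / (2 * k)) = r / (2 * k) := by ring
              _ < r * t := h1
          exact lt_of_mul_lt_mul_left this hr0.le
        · have : r * t < r * (1 / k) := by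
            calc r * t < r / k := h2
              _ = r * (1 / k) := by ring
          exact lt_of_mul_lt_mul_left this hr0.le
    by_cases ht : t ∈ Ioo (1 / (2 * k) : ℝ) (1 / k)
    · rw [hΦ, indicator_of_mem ht, indicator_of_mem (hiff.1 ht)]
      have e1 : r * t / j = t / 2 ^ m := by rw [hr]; field_simp
      have e2 : (j : ℝ) * (t / 2 ^ m) = r * t := by rw [hr]; field_simp
      rw [e1, e2]
    · rw [hΦ, indicator_of_notMem ht, indicator_of_notMem (fun h => ht (hiff.2 h))]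
  rw [← lintegral_indicator measurableSet_Ioo]
  simp_rw [h1]
  rw [lint_smul_real hr0 Φ, hΦ, lintegral_indicator measurableSet_Ioo,
    ← lintegral_const_mul' _ _ ENNReal.ofReal_ne_top]
  refine setLIntegral_mono' measurableSet_Ioo fun s hs => ?_
  have hs0 : 0 < s := lt_trans (by positivity) hs.1
  rw [← mul_assoc, ← ENNReal.ofReal_mul (by positivity)]
  gcongr
  have h2 : r⁻¹ ≤ s⁻¹ := by
    apply inv_anti₀ hs0
    calc s ≤ r / k := hs.2.le
      _ ≤ r / 1 := by gcongr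
      _ = r := div_one r
  have h3 : (s / j) ^ α ≤ s ^ α := by
    apply Real.rpow_le_rpow (by positivity) _ hα.le
    exact div_le_self hs0.le hj1
  calc r⁻¹ * (s / j) ^ α ≤ s⁻¹ * s ^ α := by gcongr
    _ = s ^ (α - 1) := by
        rw [Real.rpow_sub_one hs0.ne']
        field_simp

lemma scales (Ω : Set ℂ) (φ : ℂ → ℂ) {α : ℝ} (hα : 0 < α) {k j : ℕ} (hk : 1 ≤ k)
    (hj : 1 ≤ j) (hjk : j ≤ k) :
    ∑' m : ℕ, ∫⁻ t in Ioo (1 / (2 * k) : ℝ) (1 / k), ENNReal.ofReal ((t / 2 ^ m) ^ α) *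
      g Ω φ (j * (t / 2 ^ m)) ≤ X Ω φ α := by
  have hk0 : (0 : ℝ) < k := by exact_mod_cast hk
  have hj0 : (0 : ℝ) < j := by exact_mod_cast hj
  have hjk' : (j : ℝ) ≤ k := by exact_mod_cast hjk
  refine (ENNReal.tsum_le_tsum fun m => one_scale Ω φ hα hk hj (m := m)).trans ?_
  rw [← lintegral_iUnion (fun m => measurableSet_Ioo)]
  · unfold X
    refine lintegral_mono_set ?_
    refine iUnion_subset fun m => ?_
    intro s hs
    refine ⟨lt_trans (by positivity) hs.1, hs.2.trans_le ?_⟩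
    rw [div_div, div_le_one (by positivity)]
    calc (j : ℝ) ≤ k := hjk'
      _ = 1 * k := (one_mul _).symm
      _ ≤ 2 ^ m * k := by
          gcongr
          exact one_le_pow₀ (by norm_num)
  · intro m n hmn
    have key : ∀ m n : ℕ, m < n → Disjoint (Ioo ((j : ℝ) / 2 ^ m / (2 * k)) ((j : ℝ) / 2 ^ m / k))
        (Ioo ((j : ℝ) / 2 ^ n / (2 * k)) ((j : ℝ) / 2 ^ n / k)) := by
      intro m n hmn
      rw [Set.disjoint_left]
      intro s hs1 hs2
      have h1 : (j : ℝ) / 2 ^ n / k ≤ (j : ℝ) / 2 ^ m / (2 * k) := by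
        have h2 : (2 : ℝ) ^ m * 2 ≤ 2 ^ n := by
          rw [← pow_succ]
          exact pow_le_pow_right₀ (by norm_num) hmn
        calc (j : ℝ) / 2 ^ n / k = j / (2 ^ n * k) := by rw [div_div]
          _ ≤ j / (2 ^ m * 2 * k) := by gcongr
          _ = (j : ℝ) / 2 ^ m / (2 * k) := by rw [div_div]; congr 1; ring
      have := hs1.1
      have := hs2.2
      linarith
    rcases lt_or_gt_of_ne hmn with h | h
    · exact key m n h
    · exact (key n m h).symm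

lemma W_int (hΩ : MeasurableSet Ω) (hφ : ContDiff ℝ ∞ φ) (hc : HasCompactSupport φ)
    {α : ℝ} (hα : 0 < α) {k : ℕ} (hk : 1 ≤ k) :
    AEMeasurable (W Ω φ α k) (volume.restrict (Ioo (1 / (2 * k) : ℝ) (1 / k))) ∧
    ∫⁻ t in Ioo (1 / (2 * k) : ℝ) (1 / k), W Ω φ α k t ≤ k * X Ω φ α := by
  have hk0 : (0 : ℝ) < k := by exact_mod_cast hk
  have hm : ∀ m : ℕ, ∀ j ∈ Finset.Icc 1 k, AEMeasurable (fun t : ℝ =>
      ENNReal.ofReal ((t / 2 ^ m) ^ α) * g Ω φ (j * (t / 2 ^ m)))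
      (volume.restrict (Ioo (1 / (2 * k) : ℝ) (1 / k))) := by
    intro m j hj
    have hj0 : (0 : ℝ) < j := by exact_mod_cast (Finset.mem_Icc.1 hj).1
    have h1 : AEMeasurable (fun t : ℝ => g Ω φ (j / 2 ^ m * t))
        (volume.restrict (Ioo (1 / (2 * k) : ℝ) (1 / k))) :=
      g_aemeas hΩ hφ hc (by positivity) (by positivity)
    have h2 : (fun t : ℝ => g Ω φ (j * (t / 2 ^ m))) = fun t : ℝ => g Ω φ (j / 2 ^ m * t) := by
      ext t
      congr 1
      ring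
    rw [← h2] at h1
    have h3 : Measurable fun t : ℝ => (t / 2 ^ m) ^ α := by fun_prop
    exact h3.ennreal_ofReal.aemeasurable.mul h1
  have hm' : ∀ m : ℕ, AEMeasurable (fun t : ℝ => ∑ j ∈ Finset.Icc 1 k,
      ENNReal.ofReal ((t / 2 ^ m) ^ α) * g Ω φ (j * (t / 2 ^ m)))
      (volume.restrict (Ioo (1 / (2 * k) : ℝ) (1 / k))) := fun m =>
    Finset.aemeasurable_fun_sum _ (hm m)
  refine ⟨AEMeasurable.ennreal_tsum hm', ?_⟩
  unfold W
  rw [lintegral_tsum hm']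
  have h1 : ∀ m : ℕ, ∫⁻ t in Ioo (1 / (2 * k) : ℝ) (1 / k), ∑ j ∈ Finset.Icc 1 k,
      ENNReal.ofReal ((t / 2 ^ m) ^ α) * g Ω φ (j * (t / 2 ^ m)) =
      ∑ j ∈ Finset.Icc 1 k, ∫⁻ t in Ioo (1 / (2 * k) : ℝ) (1 / k),
      ENNReal.ofReal ((t / 2 ^ m) ^ α) * g Ω φ (j * (t / 2 ^ m)) := fun m =>
    lintegral_finsetSum' _ (hm m)
  simp_rw [h1]
  rw [Summable.tsum_finsetSum (fun _ _ => ENNReal.summable)]
  calc ∑ j ∈ Finset.Icc 1 k, ∑' m : ℕ, ∫⁻ t in Ioo (1 / (2 * k) : ℝ) (1 / k),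
      ENNReal.ofReal ((t / 2 ^ m) ^ α) * g Ω φ (j * (t / 2 ^ m))
      ≤ ∑ j ∈ Finset.Icc 1 k, X Ω φ α := by
        refine Finset.sum_le_sum fun j hj => ?_
        rw [Finset.mem_Icc] at hj
        exact scales Ω φ hα hk hj.1 hj.2
    _ = k * X Ω φ α := by
        rw [Finset.sum_const, Nat.card_Icc, nsmul_eq_mul]
        simp

/-- **Sufficiency.** -/
theorem suff (hΩ : MeasurableSet Ω) (hφ : ContDiff ℝ ∞ φ) (hc : HasCompactSupport φ)
    (h1 : ∫ u, φ u = 1) {α : ℝ} (hα : 0 < α) {k : ℕ} (hk : 1 ≤ k) (hX : X Ω φ α < ⊤) :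
    Admissible α k Ω := by
  obtain ⟨C, hC, htau⟩ := tau_le hΩ hφ hc h1 hα hk
  have hk0 : (0 : ℝ) < k := by exact_mod_cast hk
  obtain ⟨hWm, hW⟩ := W_int hΩ hφ hc hα hk
  have hfin : ENNReal.ofReal (2 * k) * (C * (k * X Ω φ α)) ≠ ⊤ :=
    ENNReal.mul_ne_top ENNReal.ofReal_ne_top
      (ENNReal.mul_ne_top hC (ENNReal.mul_ne_top (ENNReal.natCast_ne_top k) hX.ne))
  refine ⟨(ENNReal.ofReal (2 * k) * (C * (k * X Ω φ α))).toNNReal, fun f hf hfc => ?_⟩
  rw [ENNReal.coe_toNNReal hfin]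
  have e0 : tau Ω f 0 = ∫ z in Ω, dbar f z := by
    unfold tau
    simp
  rw [enorm_neg, ← e0]
  have hN : lipNorm α k f = supn f + semi α k f := rfl
  rw [hN]
  set N := supn f + semi α k f
  have h2 : ‖tau Ω f 0‖ₑ * ENNReal.ofReal (1 / (2 * k)) ≤ C * N * (k * X Ω φ α) := by
    calc ‖tau Ω f 0‖ₑ * ENNReal.ofReal (1 / (2 * k))
        = ∫⁻ _t in Ioo (1 / (2 * k) : ℝ) (1 / k), ‖tau Ω f 0‖ₑ := by
          rw [setLIntegral_const, Real.volume_Ioo]
          congr 2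
          field_simp
          ring
      _ ≤ ∫⁻ t in Ioo (1 / (2 * k) : ℝ) (1 / k), C * N * W Ω φ α k t := by
          refine setLIntegral_mono' measurableSet_Ioo fun t ht => ?_
          refine htau f hf hfc t ht.1 (ht.2.le.trans ?_)
          rw [div_le_one hk0]
          exact_mod_cast hk
      _ = C * N * ∫⁻ t in Ioo (1 / (2 * k) : ℝ) (1 / k), W Ω φ α k t :=
          lintegral_const_mul'' _ hWm
      _ ≤ _ := by gcongr
  calc ‖tau Ω f 0‖ₑ = ENNReal.ofReal (2 * k) * (‖tau Ω f 0‖ₑ * ENNReal.ofReal (1 / (2 * k))) := by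
        rw [mul_comm (‖tau Ω f 0‖ₑ), ← mul_assoc, ← ENNReal.ofReal_mul (by positivity)]
        rw [show (2 * (k : ℝ)) * (1 / (2 * k)) = 1 by field_simp, ENNReal.ofReal_one, one_mul]
    _ ≤ ENNReal.ofReal (2 * k) * (C * N * (k * X Ω φ α)) := by gcongr
    _ = _ := by ring

end Pool.Agent.T9h61.DB
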