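import Pool.Agent.T9h61.DB.Conv

set_option autoImplicit false

open MeasureTheory Complex Set Filter Topology
open scoped ENNReal NNReal ContDiff Convolution

namespace Pool.Agent.T9h61.DB

/-- translates of the pairing -/
noncomputable def tau (Ω : Set ℂ) (f : ℂ → ℂ) (h : ℂ) : ℂ := ∫ z in Ω, dbar f (z + h)

/-- averaged translates -/
noncomputable def T (Ω : Set ℂ) (φ f : ℂ → ℂ) (s s' : ℝ) : ℂ :=
  ∫ u, φ u * ∫ u', φ u' * tau Ω f (s • u + s' • u')

/-- the derivative of the mollified indicator -/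
noncomputable def G (Ω : Set ℂ) (φ : ℂ → ℂ) (s : ℝ) : ℂ → ℂ := dbar (cv (ch Ω) (sc φ s))

noncomputable def Ee (φ f : ℂ → ℂ) (s : ℝ) (w : ℂ) : ℂ := ∫ u, φ u * f (w + s • u)

variable {Ω : Set ℂ} {φ f : ℂ → ℂ}

lemma G_continuous (hΩ : MeasurableSet Ω) (hφ : ContDiff ℝ ∞ φ) (hc : HasCompactSupport φ)
    {s : ℝ} (hs : s ≠ 0) : Continuous (G Ω φ s) :=
  (dbar_contDiff (cv_contDiff (ch_loc hΩ) (sc_contDiff hφ s) (sc_compact hc hs))).continuous

lemma tau_continuous (hΩ : MeasurableSet Ω) (hf : ContDiff ℝ ∞ f) (hfc : HasCompactSupport f) :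
    Continuous (tau Ω f) := by
  have h1 : ∀ h, tau Ω f h = cv (ch Ω) (fun y => dbar f (-y)) (-h) := by
    intro h
    rw [cv_ch hΩ]
    unfold tau
    congr 1
    ext z
    congr 1
    ring
  have h2 : Continuous (cv (ch Ω) (fun y => dbar f (-y))) := by
    have h3 : ContDiff ℝ ∞ (fun y => dbar f (-y)) := (dbar_contDiff hf).comp contDiff_neg
    have h4 : HasCompactSupport (fun y => dbar f (-y)) := by
      have := (dbar_compact hfc).comp_smul (show (-1 : ℝ) ≠ 0 by norm_num)
      simpa using this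
    exact (cv_contDiff (ch_loc hΩ) h3 h4).continuous
  have h5 : tau Ω f = fun h => cv (ch Ω) (fun y => dbar f (-y)) (-h) := funext h1
  rw [h5]
  exact h2.comp continuous_neg

lemma dbar_shift (f : ℂ → ℂ) (h z : ℂ) : dbar (fun w => f (w + h)) z = dbar f (z + h) := by
  unfold dbar
  rw [fderiv_comp_add_right]

lemma compact_shift (hfc : HasCompactSupport f) (h : ℂ) :
    HasCompactSupport (fun w => f (w + h)) :=
  hfc.comp_homeomorph (Homeomorph.addRight h)

/-- change of variables -/
lemma cov (φ F : ℂ → ℂ) {s : ℝ} (hs : 0 < s) (z h : ℂ) :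
    ∫ u, φ u * F (z + (h + s • u)) = ∫ w, sc φ s (w - z) * F (w + h) := by
  have h1 : ∫ w, sc φ s (w - z) * F (w + h) = ∫ w, sc φ s w * F (w + z + h) := by
    rw [← integral_add_right_eq_self (fun w => sc φ s (w - z) * F (w + h)) z]
    simp only [add_sub_cancel_right]
  rw [h1]
  have h2 : ∀ w : ℂ, sc φ s w * F (w + z + h) =
      (fun u : ℂ => (s ^ 2)⁻¹ • (φ u * F (z + (h + s • u)))) (s⁻¹ • w) := by
    intro w
    simp only [sc]
    rw [smul_smul, mul_inv_cancel₀ hs.ne', one_smul, smul_mul_assoc]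
    congr 3
    ring
  have h3 := Measure.integral_comp_smul (volume : Measure ℂ)
    (fun u : ℂ => (s ^ 2)⁻¹ • (φ u * F (z + (h + s • u)))) s⁻¹
  rw [integral_congr_ae (Eventually.of_forall h2), h3, integral_smul, smul_smul,
    Complex.finrank_real_complex]
  rw [abs_of_pos (by positivity)]
  rw [show (s⁻¹ ^ 2)⁻¹ * (s ^ 2)⁻¹ = 1 by field_simp, one_smul]

lemma prod_compact {K K' : Set ℂ} (hK : IsCompact K) (hK' : IsCompact K') {g : ℂ → ℂ → ℂ}
    (h : ∀ u w, g u w ≠ 0 → u ∈ K ∧ w ∈ K') : HasCompactSupport (Function.uncurry g) := by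
  refine HasCompactSupport.intro (hK.prod hK') ?_
  rintro ⟨u, w⟩ huw
  by_contra hne
  exact huw (h u w hne)

lemma inner_eq (hΩ : MeasurableSet Ω) (hφ : ContDiff ℝ ∞ φ) (hc : HasCompactSupport φ)
    (hf : ContDiff ℝ ∞ f) (hfc : HasCompactSupport f) {s : ℝ} (hs : 0 < s) (h : ℂ) :
    ∫ u, φ u * tau Ω f (h + s • u) = -∫ w, f (w + h) * G Ω φ s w := by
  have hF := (dbar_contDiff hf).continuous
  have hFc := dbar_compact hfc
  have hφ' := hφ.continuous
  calc ∫ u, φ u * tau Ω f (h + s • u)
      = ∫ u, ∫ z in Ω, φ u * dbar f (z + (h + s • u)) := by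
        congr 1
        ext u
        unfold tau
        rw [integral_const_mul]
    _ = ∫ z in Ω, ∫ u, φ u * dbar f (z + (h + s • u)) := by
        apply integral_integral_swap_of_hasCompactSupport
        · unfold Function.uncurry
          fun_prop
        · refine prod_compact (K := tsupport φ)
            (K' := (fun p : ℂ × ℂ => p.1 - (h + s • p.2)) '' ((tsupport (dbar f)) ×ˢ (tsupport φ)))
            hc.isCompact ((hFc.isCompact.prod hc.isCompact).image (by fun_prop)) ?_
          intro u z hne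
          have h1 : φ u ≠ 0 := fun h => hne (by rw [h, zero_mul])
          have h2 : dbar f (z + (h + s • u)) ≠ 0 := fun h => hne (by rw [h, mul_zero])
          refine ⟨subset_tsupport _ h1, ⟨(z + (h + s • u), u),
            ⟨subset_tsupport _ h2, subset_tsupport _ h1⟩, ?_⟩⟩
          simp
    _ = ∫ z in Ω, ∫ w, sc φ s (w - z) * dbar f (w + h) := by
        congr 1
        ext z
        exact cov φ (dbar f) hs z h
    _ = ∫ w, dbar f (w + h) * cv (ch Ω) (sc φ s) w := by
        have := swap (Ω := Ω) (F := fun w => dbar f (w + h)) (ψ := sc φ s) hΩ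
          (hF.comp (continuous_add_const h)) (compact_shift hFc h)
          (sc_contDiff hφ s).continuous (sc_compact hc hs.ne')
        exact this
    _ = ∫ w, dbar (fun w => f (w + h)) w * cv (ch Ω) (sc φ s) w := by
        simp_rw [dbar_shift]
    _ = -∫ w, f (w + h) * G Ω φ s w := by
        have h1 : ContDiff ℝ ∞ (fun w => f (w + h)) := by fun_prop
        rw [parts h1 (compact_shift hfc h)
          (cv_contDiff (ch_loc hΩ) (sc_contDiff hφ s) (sc_compact hc hs.ne'))]
        rfl

lemma T_eq (hΩ : MeasurableSet Ω) (hφ : ContDiff ℝ ∞ φ) (hc : HasCompactSupport φ)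
    (hf : ContDiff ℝ ∞ f) (hfc : HasCompactSupport f) {s' : ℝ} (hs : 0 < s') (s : ℝ) :
    T Ω φ f s s' = -∫ w, Ee φ f s w * G Ω φ s' w := by
  have hG := G_continuous (Ω := Ω) hΩ hφ hc hs.ne'
  have hφ' := hφ.continuous
  have hf' := hf.continuous
  unfold T
  simp_rw [inner_eq hΩ hφ hc hf hfc hs]
  have e1 : ∫ u, φ u * -∫ w, f (w + s • u) * G Ω φ s' w =
      -∫ u, ∫ w, φ u * (f (w + s • u) * G Ω φ s' w) := by
    rw [← integral_neg]
    congr 1
    ext u
    rw [integral_const_mul, mul_neg]
  rw [e1]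
  congr 1
  rw [integral_integral_swap_of_hasCompactSupport]
  · congr 1
    ext w
    unfold Ee
    rw [← integral_mul_const]
    congr 1
    ext u
    ring
  · unfold Function.uncurry
    fun_prop
  · refine prod_compact (K := tsupport φ)
      (K' := (fun p : ℂ × ℂ => p.1 - s • p.2) '' ((tsupport f) ×ˢ (tsupport φ)))
      hc.isCompact ((hfc.isCompact.prod hc.isCompact).image (by fun_prop)) ?_
    intro u w hne
    have h1 : φ u ≠ 0 := fun h => hne (by rw [h, zero_mul])
    have h2 : f (w + s • u) ≠ 0 := fun h => hne (by rw [h, zero_mul, mul_zero])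
    refine ⟨subset_tsupport _ h1, ⟨(w + s • u, u),
      ⟨subset_tsupport _ h2, subset_tsupport _ h1⟩, ?_⟩⟩
    simp

lemma T_symm (hΩ : MeasurableSet Ω) (hφ : ContDiff ℝ ∞ φ) (hc : HasCompactSupport φ)
    (hf : ContDiff ℝ ∞ f) (hfc : HasCompactSupport f) (s s' : ℝ) :
    T Ω φ f s s' = T Ω φ f s' s := by
  have ht := tau_continuous hΩ hf hfc
  have hφ' := hφ.continuous
  unfold T
  simp_rw [← integral_const_mul]
  rw [integral_integral_swap_of_hasCompactSupport]
  · congr 1
    ext u
    congr 1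
    ext u'
    rw [add_comm (s • u') (s' • u)]
    ring
  · unfold Function.uncurry
    fun_prop
  · refine prod_compact (K := tsupport φ) (K' := tsupport φ) hc.isCompact hc.isCompact ?_
    intro u w hne
    have h1 : φ u ≠ 0 := fun h => hne (by rw [h, zero_mul])
    have h2 : φ w ≠ 0 := fun h => hne (by rw [h, zero_mul, mul_zero])
    exact ⟨subset_tsupport _ h1, subset_tsupport _ h2⟩

lemma T_lim (hΩ : MeasurableSet Ω) (hφ : ContDiff ℝ ∞ φ) (hc : HasCompactSupport φ)
    (hf : ContDiff ℝ ∞ f) (hfc : HasCompactSupport f) {a b : ℕ → ℝ}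
    (ha : Tendsto a atTop (𝓝 0)) (hb : Tendsto b atTop (𝓝 0)) :
    Tendsto (fun m => T Ω φ f (a m) (b m)) atTop (𝓝 ((∫ u, φ u) * ((∫ u, φ u) * tau Ω f 0))) := by
  have ht := tau_continuous hΩ hf hfc
  have hφ' := hφ.continuous
  have hint : Integrable φ := hφ'.integrable_of_hasCompactSupport hc
  obtain ⟨B, hB⟩ : ∃ B, ∀ h, ‖tau Ω f h‖ ≤ B := by
    have hFi : Integrable (dbar f) :=
      (dbar_contDiff hf).continuous.integrable_of_hasCompactSupport (dbar_compact hfc)
    refine ⟨∫ z, ‖dbar f z‖, fun h => ?_⟩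
    unfold tau
    calc ‖∫ z in Ω, dbar f (z + h)‖ ≤ ∫ z in Ω, ‖dbar f (z + h)‖ := norm_integral_le_integral_norm _
      _ ≤ ∫ z, ‖dbar f (z + h)‖ :=
          setIntegral_le_integral (hFi.comp_add_right h).norm
            (Eventually.of_forall fun z => norm_nonneg _)
      _ = ∫ z, ‖dbar f z‖ := integral_add_right_eq_self (fun z => ‖dbar f z‖) h
  -- inner limit
  have hinner : ∀ u, Tendsto (fun m => ∫ u', φ u' * tau Ω f (a m • u + b m • u')) atTop
      (𝓝 (∫ u', φ u' * tau Ω f 0)) := by
    intro u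
    apply tendsto_integral_of_dominated_convergence (fun u' => ‖φ u'‖ * B)
    · intro m
      exact (by fun_prop : Continuous fun u' => φ u' * tau Ω f (a m • u + b m • u')
        ).aestronglyMeasurable
    · exact hint.norm.mul_const B
    · intro m
      refine Eventually.of_forall fun u' => ?_
      rw [norm_mul]
      exact mul_le_mul_of_nonneg_left (hB _) (norm_nonneg _)
    · refine Eventually.of_forall fun u' => ?_
      have h1 : Tendsto (fun m => a m • u + b m • u') atTop (𝓝 ((0 : ℝ) • u + (0 : ℝ) • u')) :=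
        (ha.smul_const u).add (hb.smul_const u')
      rw [zero_smul, zero_smul, add_zero] at h1
      exact ((ht.tendsto 0).comp h1).const_mul _
  have hB0 : 0 ≤ B := (norm_nonneg _).trans (hB 0)
  have hT : Tendsto (fun m => ∫ u, φ u * ∫ u', φ u' * tau Ω f (a m • u + b m • u')) atTop
      (𝓝 (∫ u, φ u * ∫ u', φ u' * tau Ω f 0)) := by
    apply tendsto_integral_of_dominated_convergence (fun u => ‖φ u‖ * ((∫ u', ‖φ u'‖) * B))
    · intro m
      have h1 : Continuous fun u => ∫ u', φ u' * tau Ω f (a m • u + b m • u') := by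
        have h2 : ∀ u, ∫ u', φ u' * tau Ω f (a m • u + b m • u') =
            ∫ u' in tsupport φ, φ u' * tau Ω f (a m • u + b m • u') := by
          intro u
          refine (setIntegral_eq_integral_of_forall_compl_eq_zero fun x hx => ?_).symm
          rw [image_eq_zero_of_notMem_tsupport hx, zero_mul]
        simp_rw [h2]
        refine continuous_parametric_integral_of_continuous ?_ hc.isCompact
        unfold Function.uncurry
        fun_prop
      exact (hφ'.mul h1).aestronglyMeasurable
    · exact hint.norm.mul_const _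
    · intro m
      refine Eventually.of_forall fun u => ?_
      rw [norm_mul]
      refine mul_le_mul_of_nonneg_left ?_ (norm_nonneg _)
      rw [← integral_mul_const]
      refine norm_integral_le_of_norm_le (hint.norm.mul_const B) (Eventually.of_forall fun u' => ?_)
      rw [norm_mul]
      exact mul_le_mul_of_nonneg_left (hB _) (norm_nonneg _)
    · exact Eventually.of_forall fun u => (hinner u).const_mul _
  have e : ∫ u, φ u * ∫ u', φ u' * tau Ω f 0 = (∫ u, φ u) * ((∫ u, φ u) * tau Ω f 0) := by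
    rw [integral_mul_const, integral_mul_const]
  rw [e] at hT
  exact hT

end Pool.Agent.T9h61.DB
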