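import Pool.Agent.T9h61.DB.Real

set_option autoImplicit false

open MeasureTheory Complex Set Filter Topology
open scoped ENNReal NNReal ContDiff Convolution ComplexConjugate

namespace Pool.Agent.T9h61.DB

/-- tensor product of two functions of one variable -/
def ten (a b : ℝ → ℝ) (z : ℂ) : ℝ := a z.re * b z.im

variable {a b : ℝ → ℝ}

lemma ten_contDiff (ha : ContDiff ℝ ∞ a) (hb : ContDiff ℝ ∞ b) : ContDiff ℝ ∞ (ten a b) := by
  have h1 : ContDiff ℝ ∞ (fun z : ℂ => a (Complex.reCLM z)) := ha.comp Complex.reCLM.contDiff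
  have h2 : ContDiff ℝ ∞ (fun z : ℂ => b (Complex.imCLM z)) := hb.comp Complex.imCLM.contDiff
  exact h1.mul h2

lemma ten_compact {R : ℝ} (ha : ∀ x, R < |x| → a x = 0) (hb : ∀ x, R < |x| → b x = 0) :
    HasCompactSupport (ten a b) := by
  refine HasCompactSupport.intro (isCompact_closedBall (0 : ℂ) (2 * |R|)) fun z hz => ?_
  unfold ten
  rw [mem_closedBall_zero_iff, not_le] at hz
  have h1 := Complex.norm_le_abs_re_add_abs_im z
  have h2 := le_abs_self R
  by_cases h3 : R < |z.re|
  · rw [ha _ h3, zero_mul]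
  · rw [hb, mul_zero]
    by_contra h4
    linarith

lemma ten_fderiv_one (ha : ContDiff ℝ ∞ a) (hb : ContDiff ℝ ∞ b) (z : ℂ) :
    fderiv ℝ (ten a b) z 1 = deriv a z.re * b z.im := by
  have h1 : HasFDerivAt (fun z : ℂ => a z.re) (deriv a z.re • Complex.reCLM) z :=
    ((ha.differentiable (by simp) z.re).hasDerivAt).comp_hasFDerivAt z
      Complex.reCLM.hasFDerivAt
  have h2 : HasFDerivAt (fun z : ℂ => b z.im) (deriv b z.im • Complex.imCLM) z :=
    ((hb.differentiable (by simp) z.im).hasDerivAt).comp_hasFDerivAt z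
      Complex.imCLM.hasFDerivAt
  have h3 : HasFDerivAt (ten a b) _ z := h1.mul h2
  rw [h3.fderiv]
  simp [mul_comm]

lemma ten_fderiv_I (ha : ContDiff ℝ ∞ a) (hb : ContDiff ℝ ∞ b) (z : ℂ) :
    fderiv ℝ (ten a b) z I = a z.re * deriv b z.im := by
  have h1 : HasFDerivAt (fun z : ℂ => a z.re) (deriv a z.re • Complex.reCLM) z :=
    ((ha.differentiable (by simp) z.re).hasDerivAt).comp_hasFDerivAt z
      Complex.reCLM.hasFDerivAt
  have h2 : HasFDerivAt (fun z : ℂ => b z.im) (deriv b z.im • Complex.imCLM) z :=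
    ((hb.differentiable (by simp) z.im).hasDerivAt).comp_hasFDerivAt z
      Complex.imCLM.hasFDerivAt
  have h3 : HasFDerivAt (ten a b) _ z := h1.mul h2
  rw [h3.fderiv]
  simp

lemma ten_integral (a b : ℝ → ℝ) : ∫ z, ten a b z = (∫ x, a x) * ∫ y, b y := by
  have h1 := Complex.volume_preserving_equiv_real_prod.symm.integral_comp'
    (g := ten a b)
  rw [← h1, ← integral_prod_mul]
  rfl

/-- the bump function -/
noncomputable def bf : ContDiffBump (0 : ℝ) := ⟨2, 3, by norm_num, by norm_num⟩

noncomputable def p (x : ℝ) : ℝ := bf.normed volume x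

/-- the doubled bump function -/
noncomputable def p2 (x : ℝ) : ℝ := 2 * p (2 * x)

noncomputable def q (x : ℝ) : ℝ := ∫ y in (-4 : ℝ)..x, (p2 y - p y)

lemma p_contDiff : ContDiff ℝ ∞ p := bf.contDiff_normed

lemma p2_contDiff : ContDiff ℝ ∞ p2 := by
  unfold p2
  exact contDiff_const.mul (p_contDiff.comp (contDiff_const.mul contDiff_id))

lemma p_nonneg (x : ℝ) : 0 ≤ p x := bf.nonneg_normed x

lemma p_zero {x : ℝ} (hx : 3 ≤ |x|) : p x = 0 := by
  unfold p
  have h1 := bf.support_normed_eq (μ := volume)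
  by_contra h
  have h2 : x ∈ Function.support (bf.normed volume) := h
  rw [h1, Metric.mem_ball, dist_zero_right, Real.norm_eq_abs] at h2
  have : bf.rOut = 3 := rfl
  linarith

lemma p_int : ∫ x, p x = 1 := bf.integral_normed

lemma p2_int : ∫ x, p2 x = 1 := by
  unfold p2
  rw [integral_const_mul, Measure.integral_comp_mul_left, p_int]
  norm_num

lemma p_integrable : Integrable p := bf.integrable_normed

lemma p_pos : ∃ c : ℝ, 0 < c ∧ ∀ x, |x| ≤ 2 → p x = c := by
  refine ⟨1 / ∫ x, bf x, ?_, fun x hx => ?_⟩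
  · exact div_pos one_pos bf.integral_pos
  · unfold p ContDiffBump.normed
    rw [bf.one_of_mem_closedBall]
    rw [Metric.mem_closedBall, dist_zero_right, Real.norm_eq_abs]
    exact hx

lemma q_hasDerivAt (x : ℝ) : HasDerivAt q (p2 x - p x) x := by
  have hc : Continuous (fun y => p2 y - p y) := p2_contDiff.continuous.sub p_contDiff.continuous
  exact intervalIntegral.integral_hasDerivAt_right (hc.intervalIntegrable _ _)
    (hc.stronglyMeasurableAtFilter _ _) hc.continuousAt

lemma q_deriv : deriv q = fun x => p2 x - p x := funext fun x => (q_hasDerivAt x).deriv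

lemma q_contDiff : ContDiff ℝ ∞ q := by
  rw [contDiff_infty_iff_deriv]
  refine ⟨fun x => (q_hasDerivAt x).differentiableAt, ?_⟩
  rw [q_deriv]
  exact p2_contDiff.sub p_contDiff

lemma p2_zero {x : ℝ} (hx : 3 ≤ |x|) : p2 x = 0 := by
  unfold p2
  rw [p_zero, mul_zero]
  rw [abs_mul, abs_of_pos (by norm_num : (0 : ℝ) < 2)]
  linarith

lemma q_zero {x : ℝ} (hx : 4 < |x|) : q x = 0 := by
  rcases lt_abs.1 hx with h | h
  · -- x > 4
    unfold q
    rw [intervalIntegral.integral_of_le (by linarith)]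
    have h1 : ∫ y in Ioc (-4 : ℝ) x, (p2 y - p y) = ∫ y, (p2 y - p y) := by
      refine setIntegral_eq_integral_of_forall_compl_eq_zero fun y hy => ?_
      have h2 : 3 ≤ |y| := by
        by_contra h3
        rw [not_le, abs_lt] at h3
        exact hy ⟨by linarith, by linarith⟩
      rw [p_zero h2, p2_zero h2, sub_zero]
    have hi2 : Integrable p2 := by
      refine p2_contDiff.continuous.integrable_of_hasCompactSupport ?_
      refine HasCompactSupport.intro (isCompact_Icc (a := (-3 : ℝ)) (b := 3)) fun y hy => ?_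
      refine p2_zero ?_
      by_contra h3
      rw [not_le, abs_lt] at h3
      exact hy ⟨by linarith, by linarith⟩
    rw [h1, integral_sub hi2 p_integrable, p_int, p2_int, sub_self]
  · unfold q
    rw [intervalIntegral.integral_of_ge (by linarith)]
    rw [neg_eq_zero]
    refine setIntegral_eq_zero_of_forall_eq_zero fun y hy => ?_
    have h2 : 3 ≤ |y| := by
      rw [le_abs]
      right
      have := hy.2
      linarith
    rw [p_zero h2, p2_zero h2, sub_zero]

/-- the divergence identity -/
lemma div_id (z : ℂ) : 4 * ten p p (2 * z) - ten p p z =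
    fderiv ℝ (ten q p2) z 1 + fderiv ℝ (ten p q) z I := by
  rw [ten_fderiv_one q_contDiff p2_contDiff, ten_fderiv_I p_contDiff q_contDiff, q_deriv]
  unfold ten
  have e1 : (2 * z).re = 2 * z.re := by simp
  have e2 : (2 * z).im = 2 * z.im := by simp
  rw [e1, e2]
  simp only
  unfold p2
  ring

end Pool.Agent.T9h61.DB
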